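import Mathlib

/-!
# Finite combinatorial inequalities

* `reach_ineq` : in a finite product space, the probability that a random word can be changed
  into an element of `D` by modifying the coordinates of an independent random set of density
  `θ/(1+θ)` is at least `P(D)^(1/(1+θ))`.
* `noise_ineq` : comparison of the mass of a set and of its Hamming neighbourhood.
* `star_count` : counting partially determined words.
-/

namespace Pool.Agent.TH285.Ff

open Finset

section reach

variable {B : Type} [Fintype B]

open Classical in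
/-- total weight of a set of words -/
noncomputable def wt {X : Type} [Fintype X] {n : ℕ} (ν : X → ℝ) (D : Set (Fin n → X)) : ℝ :=
  ∑ u : Fin n → X, if u ∈ D then ∏ k, ν (u k) else 0

/-- weight on pairs (permission flag, letter) -/
def pw (θ : ℝ) (ν : B → ℝ) (x : Bool × B) : ℝ := (if x.1 then θ else 1) * ν x.2

/-- flagged words that can be changed into an element of `D` at the flagged places -/
def reach {n : ℕ} (D : Set (Fin n → B)) : Set (Fin n → Bool × B) :=
  {w | ∃ u ∈ D, ∀ k, (w k).1 = false → u k = (w k).2}

theorem wt_nonneg {X : Type} [Fintype X] {n : ℕ} {ν : X → ℝ} (hν : ∀ x, 0 ≤ ν x)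
    (D : Set (Fin n → X)) : 0 ≤ wt ν D := by
  unfold wt
  refine Finset.sum_nonneg fun u _ => ?_
  split_ifs
  · exact Finset.prod_nonneg fun k _ => hν _
  · exact le_rfl

theorem wt_mono {X : Type} [Fintype X] {n : ℕ} {ν : X → ℝ} (hν : ∀ x, 0 ≤ ν x)
    {D D' : Set (Fin n → X)} (h : D ⊆ D') : wt ν D ≤ wt ν D' := by
  unfold wt
  refine Finset.sum_le_sum fun u _ => ?_
  by_cases hu : u ∈ D
  · rw [if_pos hu, if_pos (h hu)]
  · rw [if_neg hu]
    split_ifs
    · exact Finset.prod_nonneg fun k _ => hν _
    · exact le_rfl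

theorem wt_univ {X : Type} [Fintype X] {n : ℕ} {ν : X → ℝ} (hs : ∑ x, ν x = 1) :
    wt (n := n) ν Set.univ = 1 := by
  classical
  unfold wt
  have h := Finset.prod_univ_sum (fun _ : Fin n => (Finset.univ : Finset X)) (fun _ x => ν x)
  rw [Fintype.piFinset_univ] at h
  simp only [Set.mem_univ, if_true]
  rw [← h]
  simp [hs]

theorem sum_cons {X : Type} [Fintype X] {n : ℕ} (f : (Fin (n + 1) → X) → ℝ) :
    ∑ u : Fin (n + 1) → X, f u = ∑ x : X, ∑ u : Fin n → X, f (Fin.cons x u) := by
  rw [← Fintype.sum_prod_type']
  exact (Fintype.sum_equiv (Fin.consEquiv (fun _ : Fin (n + 1) => X)) _ _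
    (fun p => rfl)).symm

theorem wt_succ {X : Type} [Fintype X] {n : ℕ} (ν : X → ℝ) (D : Set (Fin (n + 1) → X)) :
    wt ν D = ∑ x : X, ν x * wt ν {u : Fin n → X | (Fin.cons x u : Fin (n + 1) → X) ∈ D} := by
  classical
  unfold wt
  rw [sum_cons]
  refine Finset.sum_congr rfl fun x _ => ?_
  rw [Finset.mul_sum]
  refine Finset.sum_congr rfl fun u _ => ?_
  simp only [Set.mem_ofPred_eq, Fin.prod_univ_succ, Fin.cons_zero, Fin.cons_succ]
  split_ifs <;> simp

theorem reach_ineq {θ : ℝ} (hθ : 0 ≤ θ) {ν : B → ℝ} (hν : ∀ b, 0 ≤ ν b)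
    (hs : ∑ b, ν b = 1) : ∀ (n : ℕ) (D : Set (Fin n → B)),
    (1 + θ) ^ n * (wt ν D) ^ (1 / (1 + θ)) ≤ wt (pw θ ν) (reach D) := by
  have hθ1 : 0 < 1 + θ := by linarith
  have hs0 : 0 < 1 / (1 + θ) := by positivity
  have hpw : ∀ x, 0 ≤ pw θ ν x := by
    intro x
    unfold pw
    have := hν x.2
    split_ifs <;> positivity
  intro n
  induction n with
  | zero =>
    intro D
    by_cases hD : D.Nonempty
    · obtain ⟨u, hu⟩ := hD
      have h1 : wt ν D = 1 := by
        classical
        unfold wt
        rw [Fintype.sum_unique]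
        rw [if_pos (by rwa [Subsingleton.elim (default : Fin 0 → B) u])]
        simp
      have h2 : wt (pw θ ν) (reach D) = 1 := by
        classical
        unfold wt
        rw [Fintype.sum_unique]
        rw [if_pos ⟨u, hu, fun k => k.elim0⟩]
        simp
      rw [h1, h2]
      simp
    · rw [Set.not_nonempty_iff_eq_empty] at hD
      subst hD
      have h1 : wt ν (∅ : Set (Fin 0 → B)) = 0 := by
        classical
        unfold wt
        simp
      rw [h1, Real.zero_rpow hs0.ne', mul_zero]
      exact wt_nonneg hpw _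
  | succ n ih =>
    intro D
    have hB : Nonempty B := by
      by_contra hne
      rw [not_nonempty_iff] at hne
      simp at hs
    set Db : B → Set (Fin n → B) := fun b => {u | (Fin.cons b u : Fin (n + 1) → B) ∈ D} with hDb
    have e1 : wt ν D = ∑ b, ν b * wt ν (Db b) := wt_succ ν D
    obtain ⟨bm, -, hbm⟩ := Finset.exists_max_image (Finset.univ : Finset B) (fun b => wt ν (Db b))
      ⟨Classical.arbitrary B, Finset.mem_univ _⟩
    set M := wt ν (Db bm) with hM
    have hM0 : 0 ≤ M := wt_nonneg hν _
    -- lower bound for the reach weight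
    have e2 : (∑ b, ν b * wt (pw θ ν) (reach (Db b))) + θ * wt (pw θ ν) (reach (Db bm))
        ≤ wt (pw θ ν) (reach D) := by
      rw [wt_succ, Fintype.sum_prod_type]
      rw [Fintype.sum_bool]
      have hA : ∀ b, {u : Fin n → Bool × B | (Fin.cons (false, b) u : Fin (n + 1) → Bool × B)
          ∈ reach D} = reach (Db b) := by
        intro b
        ext w
        constructor
        · rintro ⟨u, hu, h⟩
          refine ⟨fun k => u k.succ, ?_, ?_⟩
          · show (Fin.cons b (fun k => u k.succ) : Fin (n + 1) → B) ∈ D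
            have h0 : u 0 = b := by
              have := h 0
              simpa using this
            have : (Fin.cons b (fun k => u k.succ) : Fin (n + 1) → B) = u := by
              rw [← h0]
              exact Fin.cons_self_tail u
            rw [this]
            exact hu
          · intro k hk
            have := h k.succ
            simp only [Fin.cons_succ] at this
            exact this hk
        · rintro ⟨u, hu, h⟩
          refine ⟨Fin.cons b u, hu, ?_⟩
          intro k
          refine Fin.cases ?_ (fun j => ?_) k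
          · intro _
            simp
          · intro hj
            simp only [Fin.cons_succ] at hj ⊢
            exact h j hj
      have hBt : ∀ b, wt (pw θ ν) (reach (Db bm)) ≤ wt (pw θ ν)
          {u : Fin n → Bool × B | (Fin.cons (true, b) u : Fin (n + 1) → Bool × B) ∈ reach D} := by
        intro b
        apply wt_mono hpw
        rintro w ⟨u, hu, h⟩
        refine ⟨Fin.cons bm u, hu, ?_⟩
        intro k
        refine Fin.cases ?_ (fun j => ?_) k
        · intro h0
          simp at h0
        · intro hj
          simp only [Fin.cons_succ] at hj ⊢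
          exact h j hj
      have h1 : θ * wt (pw θ ν) (reach (Db bm)) ≤ ∑ b, pw θ ν (true, b) * wt (pw θ ν)
          {u : Fin n → Bool × B | (Fin.cons (true, b) u : Fin (n + 1) → Bool × B) ∈ reach D} := by
        calc θ * wt (pw θ ν) (reach (Db bm))
            = ∑ b, (θ * ν b) * wt (pw θ ν) (reach (Db bm)) := by
              rw [← Finset.sum_mul, ← Finset.mul_sum, hs]
              ring
          _ ≤ _ := by
              refine Finset.sum_le_sum fun b _ => ?_
              have : pw θ ν (true, b) = θ * ν b := by simp [pw]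
              rw [this]
              exact mul_le_mul_of_nonneg_left (hBt b) (mul_nonneg hθ (hν b))
      have h2 : ∑ b, pw θ ν (false, b) * wt (pw θ ν)
          {u : Fin n → Bool × B | (Fin.cons (false, b) u : Fin (n + 1) → Bool × B) ∈ reach D}
          = ∑ b, ν b * wt (pw θ ν) (reach (Db b)) := by
        refine Finset.sum_congr rfl fun b _ => ?_
        rw [hA b]
        simp [pw]
      rw [h2]
      linarith
    refine le_trans ?_ e2
    have e3 : (1 + θ) ^ n * ((∑ b, ν b * (wt ν (Db b)) ^ (1 / (1 + θ))) + θ * M ^ (1 / (1 + θ)))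
        ≤ (∑ b, ν b * wt (pw θ ν) (reach (Db b))) + θ * wt (pw θ ν) (reach (Db bm)) := by
      rw [mul_add, Finset.mul_sum]
      refine add_le_add (Finset.sum_le_sum fun b _ => ?_) ?_
      · have := mul_le_mul_of_nonneg_left (ih (Db b)) (hν b)
        linarith
      · have := mul_le_mul_of_nonneg_left (ih (Db bm)) hθ
        rw [hM]
        linarith
    refine le_trans ?_ e3
    rw [pow_succ, mul_assoc]
    refine mul_le_mul_of_nonneg_left ?_ (by positivity)
    rcases hM0.eq_or_lt with h0 | hMpos
    · have hz : ∀ b, wt ν (Db b) = 0 := by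
        intro b
        have h1 := hbm b (Finset.mem_univ b)
        have h2 := wt_nonneg hν (Db b)
        change wt ν (Db b) ≤ M at h1
        linarith
      rw [e1]
      simp only [hz, mul_zero, Finset.sum_const_zero]
      rw [Real.zero_rpow hs0.ne', mul_zero]
      have : 0 ≤ M ^ (1 / (1 + θ)) := Real.rpow_nonneg hM0 _
      simp only [mul_zero, Finset.sum_const_zero, zero_add]
      exact mul_nonneg hθ this
    · set σ := (∑ b, ν b * wt ν (Db b)) / M with hσ
      have hσ0 : 0 ≤ σ := by
        apply div_nonneg _ hMpos.le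
        exact Finset.sum_nonneg fun b _ => mul_nonneg (hν b) (wt_nonneg hν _)
      have hD : wt ν D = σ * M := by
        rw [e1, hσ]
        field_simp
      have h1 : (wt ν D) ^ (1 / (1 + θ)) = σ ^ (1 / (1 + θ)) * M ^ (1 / (1 + θ)) := by
        rw [hD, Real.mul_rpow hσ0 hMpos.le]
      rw [h1]
      have h2 : (σ + θ) * M ^ (1 / (1 + θ)) ≤
          (∑ b, ν b * (wt ν (Db b)) ^ (1 / (1 + θ))) + θ * M ^ (1 / (1 + θ)) := by
        rw [add_mul]
        refine add_le_add ?_ le_rfl
        rw [hσ, Finset.sum_div, Finset.sum_mul]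
        refine Finset.sum_le_sum fun b _ => ?_
        have hb0 := wt_nonneg hν (Db b)
        have hb1 : wt ν (Db b) ≤ M := hbm b (Finset.mem_univ b)
        have hr0 : 0 ≤ wt ν (Db b) / M := div_nonneg hb0 hMpos.le
        have hr1 : wt ν (Db b) / M ≤ 1 := (div_le_one hMpos).2 hb1
        have h3 : wt ν (Db b) / M ≤ (wt ν (Db b) / M) ^ (1 / (1 + θ)) := by
          have hle : (1 : ℝ) / (1 + θ) ≤ 1 := by
            rw [div_le_one hθ1]
            linarith
          rcases hr0.eq_or_lt with h00 | hpos
          · rw [← h00, Real.zero_rpow hs0.ne']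
          · calc wt ν (Db b) / M = (wt ν (Db b) / M) ^ (1 : ℝ) := (Real.rpow_one _).symm
              _ ≤ _ := Real.rpow_le_rpow_of_exponent_ge hpos hr1 hle
        have h4 : (wt ν (Db b)) ^ (1 / (1 + θ))
            = (wt ν (Db b) / M) ^ (1 / (1 + θ)) * M ^ (1 / (1 + θ)) := by
          rw [← Real.mul_rpow hr0 hMpos.le]
          congr 1
          field_simp
        rw [h4, mul_div_assoc, mul_assoc]
        refine mul_le_mul_of_nonneg_left ?_ (hν b)
        exact mul_le_mul_of_nonneg_right h3 (Real.rpow_nonneg hMpos.le _)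
      refine le_trans ?_ h2
      rw [← mul_assoc]
      refine mul_le_mul_of_nonneg_right ?_ (Real.rpow_nonneg hMpos.le _)
      have hag := Real.geom_mean_le_arith_mean2_weighted (w₁ := 1 / (1 + θ)) (w₂ := θ / (1 + θ))
        (p₁ := σ) (p₂ := 1) (by positivity) (by positivity) hσ0 zero_le_one
        (by field_simp)
      rw [Real.one_rpow, mul_one] at hag
      calc (1 + θ) * σ ^ (1 / (1 + θ)) ≤ (1 + θ) * (1 / (1 + θ) * σ + θ / (1 + θ) * 1) :=
            mul_le_mul_of_nonneg_left hag hθ1.le
        _ = σ + θ := by field_simp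

end reach

section noise

variable {B : Type} [Fintype B]

open Classical in
/-- number of places where two words differ -/
noncomputable def hd {n : ℕ} (u v : Fin n → B) : ℕ := (Finset.univ.filter fun k => u k ≠ v k).card

theorem noise_ineq {ν : B → ℝ} (hν : ∀ b, 0 ≤ ν b) (hs : ∑ b, ν b = 1) {c : ℝ} (hc0 : 0 ≤ c)
    (hc1 : c ≤ 1) (hc : ∀ b, c ≤ ν b) {x : ℝ} (hx0 : 0 ≤ x) (hx1 : x ≤ 1) {n : ℕ} (r : ℕ)
    (G : Set (Fin n → B)) :
    wt ν {v | ∃ w ∈ G, hd w v ≤ r} * ((1 - x) ^ n * (x * c) ^ r) ≤ wt ν G := by
  classical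
  -- the kernel
  set K : B → B → ℝ := fun v w => (if v = w then 1 - x else 0) + x * ν w with hK
  have hK0 : ∀ v w, 0 ≤ K v w := by
    intro v w
    have := hν w
    simp only [hK]
    split_ifs
    · have : 0 ≤ 1 - x := by linarith
      positivity
    · positivity
  have hinv : ∀ w, ∑ v, ν v * K v w = ν w := by
    intro w
    have : ∀ v, ν v * K v w = (if v = w then (1 - x) * ν v else 0) + x * ν w * ν v := by
      intro v
      simp only [hK]
      split_ifs <;> ring
    simp only [this]
    rw [Finset.sum_add_distrib, ← Finset.mul_sum, hs]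
    simp
    ring
  have hprod : ∀ w : Fin n → B, ∏ k, ν (w k) = ∑ v : Fin n → B, ∏ k, (ν (v k) * K (v k) (w k)) := by
    intro w
    have h := Finset.prod_univ_sum (fun _ : Fin n => (Finset.univ : Finset B))
      (fun k v => ν v * K v (w k))
    rw [Fintype.piFinset_univ] at h
    rw [← h]
    exact Finset.prod_congr rfl fun k _ => (hinv (w k)).symm
  have hG : wt ν G = ∑ v : Fin n → B, ∑ w : Fin n → B,
      if w ∈ G then ∏ k, (ν (v k) * K (v k) (w k)) else 0 := by
    unfold wt
    rw [Finset.sum_comm]
    refine Finset.sum_congr rfl fun w _ => ?_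
    by_cases hw : w ∈ G
    · simp only [if_pos hw]
      exact hprod w
    · simp only [if_neg hw]
      simp
  rw [hG]
  unfold wt
  rw [Finset.sum_mul]
  refine Finset.sum_le_sum fun v _ => ?_
  have hnn : ∀ w : Fin n → B, 0 ≤ (if w ∈ G then ∏ k, (ν (v k) * K (v k) (w k)) else 0) := by
    intro w
    split_ifs
    · exact Finset.prod_nonneg fun k _ => mul_nonneg (hν _) (hK0 _ _)
    · exact le_rfl
  by_cases hv : v ∈ {v | ∃ w ∈ G, hd w v ≤ r}
  · rw [if_pos hv]
    obtain ⟨w, hw, hwr⟩ := hv
    refine le_trans ?_ (Finset.single_le_sum (fun w _ => hnn w) (Finset.mem_univ w))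
    rw [if_pos hw, Finset.prod_mul_distrib]
    refine mul_le_mul_of_nonneg_left ?_ (Finset.prod_nonneg fun k _ => hν _)
    -- product of the kernel
    have h1x : 0 ≤ 1 - x := by linarith
    have hxc : 0 ≤ x * c := mul_nonneg hx0 hc0
    have hxc1 : x * c ≤ 1 := by nlinarith
    have hstep : ∏ k, (if w k ≠ v k then x * c else 1) * (1 - x) ≤ ∏ k, K (v k) (w k) := by
      refine Finset.prod_le_prod (fun k _ => ?_) (fun k _ => ?_)
      · split_ifs <;> positivity
      · simp only [hK]
        by_cases hkk : w k = v k
        · have h2 := hν (v k)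
          simp only [hkk, ne_eq, not_true_eq_false, if_false, if_true, one_mul]
          nlinarith [mul_nonneg hx0 h2]
        · have h2 := hc (w k)
          simp only [ne_eq, hkk, not_false_eq_true, if_true, if_neg (Ne.symm hkk), zero_add]
          have h3 : x * c ≤ x * ν (w k) := mul_le_mul_of_nonneg_left h2 hx0
          have h4 : x * c * (1 - x) ≤ x * c := by nlinarith
          linarith
    refine le_trans ?_ hstep
    rw [Finset.prod_mul_distrib, Finset.prod_const, Finset.card_univ, Fintype.card_fin]
    rw [mul_comm]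
    refine mul_le_mul_of_nonneg_right ?_ (by positivity)
    rw [Finset.prod_ite, Finset.prod_const, Finset.prod_const_one, mul_one]
    have : (Finset.univ.filter fun k => w k ≠ v k).card ≤ r := by
      refine le_trans (le_of_eq ?_) hwr
      unfold hd
      refine congrArg Finset.card ?_
      ext k
      simp only [Finset.mem_filter]
    exact pow_le_pow_of_le_one hxc hxc1 this
  · rw [if_neg hv, zero_mul]
    exact Finset.sum_nonneg fun w _ => hnn w

end noise

section stars

/-- weight of a partially determined symbol -/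
def wp (p : ℝ) : Option Bool → ℝ
  | none => 1
  | some true => p
  | some false => 1 - p

open Classical in
/-- number of undetermined places -/
noncomputable def stars {n : ℕ} (z : Fin n → Option Bool) : ℕ :=
  (Finset.univ.filter fun k => z k = none).card

theorem star_count {p : ℝ} (hp0 : 0 ≤ p) (hp1 : p ≤ 1) {x : ℝ} (hx0 : 0 < x) (hx1 : x ≤ 1)
    {n : ℕ} (r : ℕ) :
    (wt (wp p) {z : Fin n → Option Bool | stars z ≤ r}) * x ^ r ≤ (1 + x) ^ n := by
  classical
  have h := Finset.prod_univ_sum (fun _ : Fin n => (Finset.univ : Finset (Option Bool)))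
      (fun _ y => wp p y * (if y = none then x else 1))
  rw [Fintype.piFinset_univ] at h
  have h1 : ∑ y : Option Bool, wp p y * (if y = none then x else 1) = 1 + x := by
    rw [Fintype.sum_option, Fintype.sum_bool]
    simp [wp]
    ring
  rw [h1, Finset.prod_const, Finset.card_univ, Fintype.card_fin] at h
  rw [h]
  unfold wt
  rw [Finset.sum_mul]
  refine Finset.sum_le_sum fun z _ => ?_
  have hwp : ∀ y, 0 ≤ wp p y := by
    intro y
    rcases y with _ | y
    · simp [wp]
    · cases y <;> simp [wp, hp0, hp1]
  have hx : ∏ k, (if z k = none then x else 1) = x ^ (stars z) := by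
    rw [Finset.prod_ite, Finset.prod_const, Finset.prod_const_one, mul_one]
    refine congrArg (fun m => x ^ m) ?_
    unfold stars
    refine congrArg Finset.card ?_
    ext k
    simp only [Finset.mem_filter]
  rw [Finset.prod_mul_distrib, hx]
  have hpr : 0 ≤ ∏ k, wp p (z k) := Finset.prod_nonneg fun k _ => hwp _
  split_ifs with hz
  · refine mul_le_mul_of_nonneg_left ?_ hpr
    exact pow_le_pow_of_le_one hx0.le hx1 hz
  · rw [zero_mul]
    positivity

end stars

end Pool.Agent.TH285.Ff
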