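import Mathlib
import Pool.Agent.TH285.Ff.Comb

/-!
# Product measures over `ℤ` and the geometric law
-/

namespace Pool.Agent.TH285.Ff

open MeasureTheory Finset
open scoped ENNReal

section zp

variable {X : Type} [MeasurableSpace X]

/-- the product measure over `ℤ` -/
noncomputable def zp (ρ : Measure X) : Measure (ℤ → X) := Measure.infinitePi (fun _ : ℤ => ρ)

variable (ρ : Measure X) [IsProbabilityMeasure ρ]

instance : IsProbabilityMeasure (zp ρ) := by
  unfold zp
  infer_instance

theorem zp_box (J : Finset ℤ) (A : ℤ → Set X) (hA : ∀ i, MeasurableSet (A i)) :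
    zp ρ {ω | ∀ j ∈ J, ω j ∈ A j} = ∏ j ∈ J, ρ (A j) := by
  have h := Measure.infinitePi_pi (fun _ : ℤ => ρ) (s := J) (t := A) (fun i _ => hA i)
  have h2 : {ω : ℤ → X | ∀ j ∈ J, ω j ∈ A j} = (J : Set ℤ).pi A := by
    ext ω
    simp [Set.mem_pi]
  rw [h2]
  exact h

theorem zp_box_inj {ι : Type} [Fintype ι] (f : ι → ℤ) (hf : Function.Injective f)
    (A : ι → Set X) (hA : ∀ i, MeasurableSet (A i)) :
    (zp ρ).real {ω | ∀ i, ω (f i) ∈ A i} = ∏ i, ρ.real (A i) := by
  classical
  set A' : ℤ → Set X := fun j => if h : ∃ i, f i = j then A h.choose else Set.univ with hA'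
  have hAf : ∀ i, A' (f i) = A i := by
    intro i
    have h : ∃ i', f i' = f i := ⟨i, rfl⟩
    simp only [hA']
    rw [dif_pos h]
    congr 1
    exact hf h.choose_spec
  have hm : ∀ j, MeasurableSet (A' j) := by
    intro j
    simp only [hA']
    split_ifs
    · exact hA _
    · exact MeasurableSet.univ
  have h := zp_box ρ (Finset.univ.image f) A' hm
  have h2 : {ω : ℤ → X | ∀ j ∈ Finset.univ.image f, ω j ∈ A' j} = {ω | ∀ i, ω (f i) ∈ A i} := by
    ext ω
    constructor
    · intro hω i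
      have := hω (f i) (Finset.mem_image_of_mem _ (Finset.mem_univ _))
      rwa [hAf] at this
    · intro hω j hj
      obtain ⟨i, -, rfl⟩ := Finset.mem_image.1 hj
      rw [hAf]
      exact hω i
  rw [h2, Finset.prod_image (fun a _ b _ hab => hf hab)] at h
  rw [measureReal_def, h, ENNReal.toReal_prod]
  exact Finset.prod_congr rfl fun i _ => by rw [hAf]; rfl

/-- shift by `k` -/
def sh {X : Type} (k : ℤ) (ω : ℤ → X) : ℤ → X := fun i => ω (i + k)

theorem measurable_sh (k : ℤ) : Measurable (sh k : (ℤ → X) → ℤ → X) :=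
  measurable_pi_lambda _ fun i => measurable_pi_apply (i + k)

theorem zp_sh (k : ℤ) : MeasurePreserving (sh k) (zp ρ) (zp ρ) := by
  refine ⟨measurable_sh k, ?_⟩
  refine Measure.eq_infinitePi (fun _ : ℤ => ρ) ?_
  intro s t ht
  rw [Measure.map_apply (measurable_sh k)
    (MeasurableSet.pi s.countable_toSet fun i _ => ht i)]
  have h1 : sh k ⁻¹' ((s : Set ℤ).pi t)
      = {ω | ∀ j ∈ s.image (fun i => i + k), ω j ∈ t (j - k)} := by
    ext ω
    constructor
    · intro h j hj
      obtain ⟨i, hi, rfl⟩ := Finset.mem_image.1 hj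
      rw [add_sub_cancel_right]
      exact h i hi
    · intro h i hi
      have := h (i + k) (Finset.mem_image_of_mem _ hi)
      rwa [add_sub_cancel_right] at this
  rw [h1, zp_box ρ _ (fun j => t (j - k)) (fun j => ht _), Finset.prod_image]
  · exact Finset.prod_congr rfl fun i _ => by simp
  · intro a _ b _ hab
    simpa using hab

theorem sh_sh {X : Type} (a b : ℤ) (ω : ℤ → X) : sh a (sh b ω) = sh (a + b) ω := by
  funext i
  unfold sh
  congr 1
  ring

theorem sh_zero {X : Type} (ω : ℤ → X) : sh 0 ω = ω := by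
  funext i
  unfold sh
  congr 1
  ring

theorem zp_ae_sh {p : (ℤ → X) → Prop} (h : ∀ᵐ ω ∂(zp ρ), p ω) :
    ∀ᵐ ω ∂(zp ρ), ∀ k : ℤ, p (sh k ω) := by
  rw [ae_all_iff]
  intro k
  exact (zp_sh ρ k).quasiMeasurePreserving.ae h

end zp

section sums

variable {Ω : Type} [MeasurableSpace Ω] (μ : Measure Ω) [IsFiniteMeasure μ]

theorem real_mem_eq_sum {Y : Type} [Fintype Y] (g : Ω → Y) (hg : ∀ y, MeasurableSet {ω | g ω = y})
    (A : Set Y) [DecidablePred (· ∈ A)] :
    μ.real {ω | g ω ∈ A} = ∑ y, if y ∈ A then μ.real {ω | g ω = y} else 0 := by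
  classical
  have h1 : {ω | g ω ∈ A} = ⋃ y ∈ (Finset.univ.filter fun y => y ∈ A), {ω | g ω = y} := by
    ext ω
    simp
  rw [h1, measureReal_biUnion_finset]
  · rw [Finset.sum_filter]
  · intro y _ y' _ hne
    refine Set.disjoint_left.2 fun ω h1 h2 => hne ?_
    exact h1.symm.trans h2
  · intro y _
    exact hg y

end sums

section gm

/-- geometric law `n ↦ 2^{-(n+1)}` on `ℕ` -/
noncomputable def gm : Measure ℕ :=
  Measure.sum fun n : ℕ => ((2 : ℝ≥0∞)⁻¹ ^ (n + 1)) • Measure.dirac n

theorem gm_apply (A : Set ℕ) : gm A = ∑' n, A.indicator (fun n => ((2 : ℝ≥0∞)⁻¹ ^ (n + 1))) n := by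
  classical
  unfold gm
  rw [Measure.sum_apply _ (MeasurableSet.of_discrete)]
  refine tsum_congr fun n => ?_
  rw [Measure.smul_apply, Measure.dirac_apply' n MeasurableSet.of_discrete]
  by_cases hn : n ∈ A <;> simp [hn]

instance : IsProbabilityMeasure gm := by
  constructor
  rw [gm_apply]
  simp only [Set.indicator_univ]
  rw [ENNReal.tsum_geometric_add_one]
  rw [ENNReal.one_sub_inv_two, inv_inv]
  exact ENNReal.inv_mul_cancel (by norm_num) (by norm_num)

theorem gm_real (A : Set ℕ) : gm.real A = ∑' n, A.indicator (fun n => ((1 / 2 : ℝ) ^ (n + 1))) n := by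
  rw [measureReal_def, gm_apply, ENNReal.tsum_toReal_eq]
  · refine tsum_congr fun n => ?_
    by_cases hn : n ∈ A
    · rw [Set.indicator_of_mem hn, Set.indicator_of_mem hn]
      simp
    · rw [Set.indicator_of_notMem hn, Set.indicator_of_notMem hn]
      simp
  · intro n
    by_cases hn : n ∈ A
    · rw [Set.indicator_of_mem hn]
      exact ENNReal.pow_ne_top (by norm_num)
    · rw [Set.indicator_of_notMem hn]
      simp

theorem gm_real_range (f : ℕ → ℕ) (hf : Function.Injective f) :
    gm.real (Set.range f) = ∑' j, (1 / 2 : ℝ) ^ (f j + 1) := by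
  rw [gm_real]
  have h := hf.tsum_eq (f := (Set.range f).indicator (fun n => ((1 / 2 : ℝ) ^ (n + 1)))) ?_
  · rw [← h]
    refine tsum_congr fun j => ?_
    rw [Set.indicator_of_mem (Set.mem_range_self j)]
  · intro n hn
    by_contra hne
    exact hn (Set.indicator_of_notMem hne _)

theorem gm_real_singleton (n : ℕ) : gm.real {n} = (1 / 2 : ℝ) ^ (n + 1) := by
  rw [gm_real, tsum_eq_single n]
  · rw [Set.indicator_of_mem (Set.mem_singleton n)]
  · intro m hm
    exact Set.indicator_of_notMem (by simpa using hm) _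

theorem gm_real_ge (N : ℕ) : gm.real {n | N ≤ n} = (1 / 2 : ℝ) ^ N := by
  have h1 : {n | N ≤ n} = Set.range (fun j : ℕ => j + N) := by
    ext n
    constructor
    · intro hn
      exact ⟨n - N, Nat.sub_add_cancel hn⟩
    · rintro ⟨j, rfl⟩
      exact Nat.le_add_left N j
  rw [h1, gm_real_range _ (fun a b hab => Nat.add_right_cancel hab)]
  have h2 : ∀ j : ℕ, (1 / 2 : ℝ) ^ (j + N + 1) = (1 / 2 : ℝ) ^ j * (1 / 2 : ℝ) ^ (N + 1) := by
    intro j
    rw [← pow_add, add_assoc]
  simp only [h2]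
  rw [tsum_mul_right, tsum_geometric_of_lt_one (by norm_num) (by norm_num), pow_succ]
  ring

theorem gm_real_mod {K : ℕ} (hK : 0 < K) {u : ℕ} (hu : u < K) :
    gm.real {n | n % K = u} = (1 / 2 : ℝ) ^ (u + 1) / (1 - (1 / 2 : ℝ) ^ K) := by
  have h1 : {n | n % K = u} = Set.range (fun j : ℕ => j * K + u) := by
    ext n
    constructor
    · intro hn
      refine ⟨n / K, ?_⟩
      have := Nat.div_add_mod n K
      simp only [Set.mem_ofPred_eq] at hn
      rw [hn] at this
      show n / K * K + u = n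
      rw [mul_comm]
      exact this
    · rintro ⟨j, rfl⟩
      show (j * K + u) % K = u
      rw [Nat.mul_add_mod', Nat.mod_eq_of_lt hu]
  rw [h1, gm_real_range]
  · have h2 : ∀ j : ℕ, (1 / 2 : ℝ) ^ (j * K + u + 1)
        = ((1 / 2 : ℝ) ^ K) ^ j * (1 / 2 : ℝ) ^ (u + 1) := by
      intro j
      rw [← pow_mul, ← pow_add, mul_comm K j, add_assoc]
    simp only [h2]
    have h3 : (1 / 2 : ℝ) ^ K < 1 := pow_lt_one₀ (by norm_num) (by norm_num) hK.ne'
    rw [tsum_mul_right, tsum_geometric_of_lt_one (by positivity) h3]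
    field_simp
  · intro a b hab
    have h3 : a * K = b * K := Nat.add_right_cancel hab
    exact Nat.eq_of_mul_eq_mul_right hK h3

end gm

end Pool.Agent.TH285.Ff
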