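import Mathlib
import Pool.Agent.TH285.Ff.Comb
import Pool.Agent.TH285.Ff.Geo

/-!
# The modification maps
-/

namespace Pool.Agent.TH285.Ff

/-- marker of exponent `a`: the binary digit `a + 1` is on -/
def mkr (a n : ℕ) : Prop := n.testBit (a + 1) = true

/-- two consecutive markers -/
def Sp (a : ℕ) (ω : ℤ → ℕ) (l r : ℤ) : Prop :=
  l < r ∧ mkr a (ω l) ∧ mkr a (ω r) ∧ ∀ j, l < j → j < r → ¬ mkr a (ω j)

theorem Sp_unique {a : ℕ} {ω : ℤ → ℕ} {l r l' r' i : ℤ} (h : Sp a ω l r) (h' : Sp a ω l' r')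
    (h1 : l < i) (h2 : i < r) (h1' : l' < i) (h2' : i < r') : l = l' ∧ r = r' := by
  obtain ⟨-, hl, hr, hno⟩ := h
  obtain ⟨-, hl', hr', hno'⟩ := h'
  constructor
  · by_contra hne
    rcases lt_or_gt_of_ne hne with hlt | hgt
    · exact hno l' hlt (by omega) hl'
    · exact hno' l hgt (by omega) hl
  · by_contra hne
    rcases lt_or_gt_of_ne hne with hlt | hgt
    · exact hno' r (by omega) hlt hr
    · exact hno r' (by omega) hgt hr'

/-- permission digit and low part -/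
def enc (a n : ℕ) : Bool × Fin (2 ^ a) := (n.testBit a, ⟨n % 2 ^ a, Nat.mod_lt _ (by positivity)⟩)

open Classical in
/-- change a flagged word into an element of the target, if possible -/
noncomputable def sel {B : Type} {ℓ : ℕ} (D : Set (Fin ℓ → B)) (x : Fin ℓ → Bool × B) : Fin ℓ → B :=
  if h : ∃ u ∈ D, ∀ k, (x k).1 = false → u k = (x k).2 then h.choose else fun k => (x k).2

theorem sel_mem {B : Type} {ℓ : ℕ} {D : Set (Fin ℓ → B)} {x : Fin ℓ → Bool × B}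
    (h : x ∈ reach D) : sel D x ∈ D := by
  have h' : ∃ u ∈ D, ∀ k, (x k).1 = false → u k = (x k).2 := h
  unfold sel
  rw [dif_pos h']
  exact h'.choose_spec.1

theorem sel_eq {B : Type} {ℓ : ℕ} (D : Set (Fin ℓ → B)) (x : Fin ℓ → Bool × B) {k : Fin ℓ}
    (hk : (x k).1 = false) : sel D x k = (x k).2 := by
  unfold sel
  split_ifs with h
  · exact h.choose_spec.2 k hk
  · rfl

/-- the content of the window starting after `l` -/
def wd (a : ℕ) (ω : ℤ → ℕ) (l : ℤ) (ℓ : ℕ) : Fin ℓ → Bool × Fin (2 ^ a) :=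
  fun k => enc a (ω (l + 1 + (k : ℕ)))

/-- new low part -/
noncomputable def nlow {a ℓ : ℕ} (D : Set (Fin ℓ → Fin (2 ^ a))) (x : Fin ℓ → Bool × Fin (2 ^ a))
    (j : ℕ) : ℕ := if h : j < ℓ then ((sel D x ⟨j, h⟩ : Fin (2 ^ a)) : ℕ) else 0

theorem nlow_lt {a ℓ : ℕ} (D : Set (Fin ℓ → Fin (2 ^ a))) (x : Fin ℓ → Bool × Fin (2 ^ a))
    (j : ℕ) : nlow D x j < 2 ^ a := by
  unfold nlow
  split_ifs
  · exact (sel D x _).2
  · positivity

/-- new value at a site -/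
noncomputable def nval (a : ℕ) (D : ∀ ℓ, Set (Fin ℓ → Fin (2 ^ a))) (ω : ℤ → ℕ) (l : ℤ) (ℓ : ℕ)
    (i : ℤ) : ℕ :=
  2 ^ a * (ω i / 2 ^ a) + nlow (D ℓ) (wd a ω l ℓ) (i - l - 1).toNat

/-- the site `i` lies in an admissible interval -/
def Adm (a N : ℕ) (ω : ℤ → ℕ) (i : ℤ) (p : ℤ × ℕ) : Prop :=
  Sp a ω p.1 (p.1 + 1 + p.2) ∧ N ≤ p.2 ∧ p.1 < i ∧ i < p.1 + 1 + p.2

theorem Adm_unique {a N : ℕ} {ω : ℤ → ℕ} {i : ℤ} {p q : ℤ × ℕ} (h : Adm a N ω i p)
    (h' : Adm a N ω i q) : p = q := by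
  obtain ⟨hs, -, h1, h2⟩ := h
  obtain ⟨hs', -, h1', h2'⟩ := h'
  obtain ⟨e1, e2⟩ := Sp_unique hs hs' h1 h2 h1' h2'
  apply Prod.ext e1
  have : (p.2 : ℤ) = q.2 := by linarith
  exact_mod_cast this

open Classical in
/-- the modification map -/
noncomputable def F (a N : ℕ) (D : ∀ ℓ, Set (Fin ℓ → Fin (2 ^ a))) (ω : ℤ → ℕ) : ℤ → ℕ := fun i =>
  if h : ∃ p : ℤ × ℕ, Adm a N ω i p ∧ (ω i).testBit a = true then
    nval a D ω h.choose.1 h.choose.2 i
  else ω i

section basic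

variable {a N : ℕ} {D : ∀ ℓ, Set (Fin ℓ → Fin (2 ^ a))}

theorem F_adm {ω : ℤ → ℕ} {i : ℤ} {p : ℤ × ℕ} (h : Adm a N ω i p) (ht : (ω i).testBit a = true) :
    F a N D ω i = nval a D ω p.1 p.2 i := by
  have h' : ∃ p : ℤ × ℕ, Adm a N ω i p ∧ (ω i).testBit a = true := ⟨p, h, ht⟩
  unfold F
  rw [dif_pos h']
  have := Adm_unique h'.choose_spec.1 h
  rw [this]

theorem F_not_bit {ω : ℤ → ℕ} {i : ℤ} (ht : (ω i).testBit a = false) : F a N D ω i = ω i := by
  unfold F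
  rw [dif_neg]
  rintro ⟨p, -, h⟩
  rw [ht] at h
  exact Bool.false_ne_true h

theorem F_not_adm {ω : ℤ → ℕ} {i : ℤ} (ht : ¬ ∃ p, Adm a N ω i p) : F a N D ω i = ω i := by
  unfold F
  rw [dif_neg]
  rintro ⟨p, h, -⟩
  exact ht ⟨p, h⟩

theorem F_cases (ω : ℤ → ℕ) (i : ℤ) : F a N D ω i = ω i ∨
    ∃ p, Adm a N ω i p ∧ (ω i).testBit a = true ∧ F a N D ω i = nval a D ω p.1 p.2 i := by
  by_cases h : ∃ p, Adm a N ω i p
  · obtain ⟨p, hp⟩ := h
    rcases hb : (ω i).testBit a with _ | _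
    · left
      exact F_not_bit hb
    · right
      exact ⟨p, hp, rfl, F_adm hp hb⟩
  · left
    exact F_not_adm h

theorem F_div (ω : ℤ → ℕ) (i : ℤ) : F a N D ω i / 2 ^ a = ω i / 2 ^ a := by
  rcases F_cases (N := N) (D := D) ω i with h | ⟨p, -, -, h⟩
  · rw [h]
  · rw [h]
    unfold nval
    rw [Nat.mul_add_div (by positivity), Nat.div_eq_of_lt (nlow_lt _ _ _), add_zero]

theorem F_bit (ω : ℤ → ℕ) (i : ℤ) {j : ℕ} (hj : a ≤ j) :
    (F a N D ω i).testBit j = (ω i).testBit j := by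
  have h1 : ∀ n : ℕ, n.testBit j = (n / 2 ^ a).testBit (j - a) := by
    intro n
    rw [Nat.testBit_div_two_pow, Nat.sub_add_cancel hj]
  rw [h1, F_div, ← h1]

/-- membership in the target after modification -/
theorem F_target {ω : ℤ → ℕ} {l : ℤ} {ℓ : ℕ} (hs : Sp a ω l (l + 1 + ℓ)) (hN : N ≤ ℓ)
    (hr : wd a ω l ℓ ∈ reach (D ℓ)) :
    (fun k : Fin ℓ => (enc a (F a N D ω (l + 1 + (k : ℕ)))).2) ∈ D ℓ := by
  have key : (fun k : Fin ℓ => (enc a (F a N D ω (l + 1 + (k : ℕ)))).2)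
      = sel (D ℓ) (wd a ω l ℓ) := by
    funext k
    have hadm : Adm a N ω (l + 1 + (k : ℕ)) (l, ℓ) := by
      refine ⟨hs, hN, ?_, ?_⟩
      · show l < l + 1 + (k : ℕ)
        omega
      · show l + 1 + (k : ℕ) < l + 1 + ℓ
        have := k.2
        omega
    rcases hb : (ω (l + 1 + (k : ℕ))).testBit a with _ | _
    · rw [F_not_bit hb, sel_eq]
      · rfl
      · exact hb
    · rw [F_adm hadm hb]
      apply Fin.ext
      show nval a D ω l ℓ (l + 1 + (k : ℕ)) % 2 ^ a = _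
      unfold nval
      rw [Nat.mul_add_mod, Nat.mod_eq_of_lt (nlow_lt _ _ _)]
      unfold nlow
      have e : (l + 1 + ((k : ℕ) : ℤ) - l - 1).toNat = (k : ℕ) := by
        omega
      rw [dif_pos (by rw [e]; exact k.2)]
      congr 2
      apply Fin.ext
      exact e
  rw [key]
  exact sel_mem hr

/-- existence of the surrounding interval -/
theorem exists_Sp {ω : ℤ → ℕ} {x y i : ℤ} (hx : mkr a (ω x)) (hy : mkr a (ω y)) (h1 : x < i)
    (h2 : i < y) (hi : ¬ mkr a (ω i)) :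
    ∃ l : ℤ, ∃ ℓ : ℕ, x ≤ l ∧ l < i ∧ i < l + 1 + ℓ ∧ l + 1 + ℓ ≤ y ∧ Sp a ω l (l + 1 + ℓ) := by
  classical
  -- left marker: maximal
  have hL : ∃ n : ℕ, mkr a (ω (i - n)) ∧ 0 < n := ⟨(i - x).toNat, by
    have : i - ((i - x).toNat : ℤ) = x := by omega
    rw [this]
    exact ⟨hx, by omega⟩⟩
  have hR : ∃ n : ℕ, mkr a (ω (i + n)) ∧ 0 < n := ⟨(y - i).toNat, by
    have : i + ((y - i).toNat : ℤ) = y := by omega
    rw [this]
    exact ⟨hy, by omega⟩⟩
  obtain ⟨hnL, hL0⟩ := Nat.find_spec hL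
  obtain ⟨hnR, hR0⟩ := Nat.find_spec hR
  set nL := Nat.find hL with hnLdef
  set nR := Nat.find hR with hnRdef
  have hLle : nL ≤ (i - x).toNat := Nat.find_min' hL (by
    have : i - ((i - x).toNat : ℤ) = x := by omega
    rw [this]
    exact ⟨hx, by omega⟩)
  have hRle : nR ≤ (y - i).toNat := Nat.find_min' hR (by
    have : i + ((y - i).toNat : ℤ) = y := by omega
    rw [this]
    exact ⟨hy, by omega⟩)
  refine ⟨i - nL, nL + nR - 1, by omega, by omega, by omega, by omega, ?_⟩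
  have e : i - (nL : ℤ) + 1 + ((nL + nR - 1 : ℕ) : ℤ) = i + nR := by
    have : ((nL + nR - 1 : ℕ) : ℤ) = nL + nR - 1 := by omega
    rw [this]
    ring
  rw [e]
  refine ⟨by omega, hnL, hnR, ?_⟩
  intro j hj1 hj2
  rcases lt_trichotomy j i with hji | hji | hji
  · have := Nat.find_min hL (m := (i - j).toNat) (by omega)
    intro hm
    apply this
    have e2 : i - ((i - j).toNat : ℤ) = j := by omega
    rw [e2]
    exact ⟨hm, by omega⟩
  · rw [hji]
    exact hi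
  · have := Nat.find_min hR (m := (j - i).toNat) (by omega)
    intro hm
    apply this
    have e2 : i + ((j - i).toNat : ℤ) = j := by omega
    rw [e2]
    exact ⟨hm, by omega⟩

theorem wd_congr {ω ω' : ℤ → ℕ} {l : ℤ} {ℓ : ℕ}
    (h : ∀ j, l < j → j < l + 1 + ℓ → enc a (ω j) = enc a (ω' j)) : wd a ω l ℓ = wd a ω' l ℓ := by
  funext k
  unfold wd
  exact h _ (by omega) (by have := k.2; omega)

/-- if a site is modified between two given markers, the admissible interval lies between them -/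
theorem Adm_between {ω : ℤ → ℕ} {x y i : ℤ} {p : ℤ × ℕ} (hx : mkr a (ω x)) (hy : mkr a (ω y))
    (h1 : x < i) (h2 : i < y) (hp : Adm a N ω i p) : x ≤ p.1 ∧ p.1 + 1 + p.2 ≤ y := by
  obtain ⟨⟨-, -, -, hno⟩, -, h3, h4⟩ := hp
  constructor
  · by_contra hc
    exact hno x (by omega) (by omega) hx
  · by_contra hc
    exact hno y (by omega) (by omega) hy

theorem F_local {ω ω' : ℤ → ℕ} {x y : ℤ} (hx : mkr a (ω x)) (hy : mkr a (ω y))
    (h : ∀ j, x ≤ j → j ≤ y → ω j = ω' j) {i : ℤ} (h1 : x < i) (h2 : i < y) :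
    F a N D ω i = F a N D ω' i := by
  have hi := h i h1.le h2.le
  have hx' : mkr a (ω' x) := by rw [← h x le_rfl (by omega)]; exact hx
  have hy' : mkr a (ω' y) := by rw [← h y (by omega) le_rfl]; exact hy
  have key : ∀ (ω ω' : ℤ → ℕ), mkr a (ω x) → mkr a (ω y) → (∀ j, x ≤ j → j ≤ y → ω j = ω' j) →
      ∀ p, Adm a N ω i p → Adm a N ω' i p := by
    intro ω ω' hx hy h p hp
    have hb := Adm_between hx hy h1 h2 hp
    obtain ⟨⟨h5, h6, h7, h8⟩, h9, h10, h11⟩ := hp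
    refine ⟨⟨h5, ?_, ?_, ?_⟩, h9, h10, h11⟩
    · rw [← h _ (by omega) (by omega)]; exact h6
    · rw [← h _ (by omega) (by omega)]; exact h7
    · intro j hj1 hj2
      rw [← h _ (by omega) (by omega)]
      exact h8 j hj1 hj2
  rcases F_cases (N := N) (D := D) ω i with h3 | ⟨p, hp, hb, h3⟩
  · rcases F_cases (N := N) (D := D) ω' i with h4 | ⟨p, hp, hb, h4⟩
    · rw [h3, h4, hi]
    · have hp' := key ω' ω hx' hy' (fun j hj1 hj2 => (h j hj1 hj2).symm) p hp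
      have hb2 := Adm_between hx hy h1 h2 hp'
      rw [F_adm hp' (by rw [hi]; exact hb), F_adm hp hb]
      unfold nval
      rw [hi, wd_congr (ω := ω) (ω' := ω')]
      intro j hj1 hj2
      rw [h j (by omega) (by omega)]
  · have hp' := key ω ω' hx hy h p hp
    have hb2 := Adm_between hx hy h1 h2 hp
    rw [h3, F_adm hp' (by rw [← hi]; exact hb)]
    unfold nval
    rw [hi, wd_congr (ω := ω) (ω' := ω')]
    intro j hj1 hj2
    rw [h j (by omega) (by omega)]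

theorem Adm_sh {ω : ℤ → ℕ} {k i : ℤ} {p : ℤ × ℕ} :
    Adm a N (sh k ω) i p ↔ Adm a N ω (i + k) (p.1 + k, p.2) := by
  unfold Adm Sp sh
  constructor
  · rintro ⟨⟨h1, h2, h3, h4⟩, h5, h6, h7⟩
    refine ⟨⟨by simp only; omega, h2, ?_, ?_⟩, h5, by simp only; omega, by simp only; omega⟩
    · have e : p.1 + k + 1 + (p.2 : ℤ) = p.1 + 1 + p.2 + k := by ring
      simp only
      rw [e]
      exact h3
    · intro j hj1 hj2
      have := h4 (j - k) (by simp only at hj1; omega) (by simp only at hj2; omega)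
      rwa [sub_add_cancel] at this
  · rintro ⟨⟨h1, h2, h3, h4⟩, h5, h6, h7⟩
    simp only at h1 h2 h3 h4 h6 h7
    refine ⟨⟨by omega, h2, ?_, ?_⟩, h5, by omega, by omega⟩
    · have e : p.1 + k + 1 + (p.2 : ℤ) = p.1 + 1 + p.2 + k := by ring
      rw [e] at h3
      exact h3
    · intro j hj1 hj2
      exact h4 (j + k) (by omega) (by omega)

theorem F_sh (k : ℤ) (ω : ℤ → ℕ) : F a N D (sh k ω) = sh k (F a N D ω) := by
  funext i
  show F a N D (sh k ω) i = F a N D ω (i + k)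
  have hval : ∀ p : ℤ × ℕ, nval a D (sh k ω) p.1 p.2 i = nval a D ω (p.1 + k) p.2 (i + k) := by
    intro p
    unfold nval
    have e1 : (i + k - (p.1 + k) - 1).toNat = (i - p.1 - 1).toNat := by
      congr 1
      ring
    have e2 : wd a (sh k ω) p.1 p.2 = wd a ω (p.1 + k) p.2 := by
      funext j
      unfold wd sh
      congr 2
      ring
    rw [e1, e2]
    rfl
  rcases F_cases (N := N) (D := D) (sh k ω) i with h3 | ⟨p, hp, hb, h3⟩
  · rcases F_cases (N := N) (D := D) ω (i + k) with h4 | ⟨p, hp, hb, h4⟩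
    · rw [h3, h4]
      rfl
    · have hp' : Adm a N (sh k ω) i (p.1 - k, p.2) := by
        rw [Adm_sh]
        simp only [sub_add_cancel]
        exact hp
      rw [F_adm hp' hb, hval, h4]
      simp only [sub_add_cancel]
  · rw [h3, hval]
    have hp' := Adm_sh.1 hp
    rw [F_adm hp' hb]

/-- truncation -/
def tr (K : ℕ) (ω : ℤ → ℕ) : ℤ → ℕ := fun i => ω i % 2 ^ K

theorem tr_sh (K : ℕ) (k : ℤ) (ω : ℤ → ℕ) : tr K (sh k ω) = sh k (tr K ω) := rfl

theorem mkr_tr {K : ℕ} (hK : a + 2 ≤ K) (n : ℕ) : mkr a (n % 2 ^ K) ↔ mkr a n := by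
  unfold mkr
  rw [Nat.testBit_mod_two_pow]
  simp
  omega

theorem enc_tr {K : ℕ} (hK : a + 2 ≤ K) (n : ℕ) : enc a (n % 2 ^ K) = enc a n := by
  unfold enc
  refine Prod.ext ?_ (Fin.ext ?_)
  · show (n % 2 ^ K).testBit a = n.testBit a
    rw [Nat.testBit_mod_two_pow]
    have : a < K := by omega
    simp [this]
  · show n % 2 ^ K % 2 ^ a = n % 2 ^ a
    exact Nat.mod_mod_of_dvd n (pow_dvd_pow 2 (by omega))

theorem Adm_tr {K : ℕ} (hK : a + 2 ≤ K) {ω : ℤ → ℕ} {i : ℤ} {p : ℤ × ℕ} :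
    Adm a N (tr K ω) i p ↔ Adm a N ω i p := by
  unfold Adm Sp tr
  simp only [mkr_tr hK]

theorem F_tr {K : ℕ} (hK : a + 2 ≤ K) (ω : ℤ → ℕ) : F a N D (tr K ω) = tr K (F a N D ω) := by
  funext i
  have hbit : (tr K ω i).testBit a = (ω i).testBit a := by
    have := congrArg Prod.fst (enc_tr (a := a) hK (ω i))
    exact this
  have hval : ∀ p : ℤ × ℕ, nval a D (tr K ω) p.1 p.2 i = nval a D ω p.1 p.2 i % 2 ^ K := by
    intro p
    unfold nval
    have e2 : wd a (tr K ω) p.1 p.2 = wd a ω p.1 p.2 := by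
      funext j
      unfold wd tr
      exact enc_tr hK _
    rw [e2]
    have hlt := nlow_lt (D p.2) (wd a ω p.1 p.2) (i - p.1 - 1).toNat
    set u := nlow (D p.2) (wd a ω p.1 p.2) (i - p.1 - 1).toNat
    have e3 : tr K ω i / 2 ^ a = ω i / 2 ^ a % 2 ^ (K - a) := by
      show ω i % 2 ^ K / 2 ^ a = _
      have : (2 : ℕ) ^ K = 2 ^ a * 2 ^ (K - a) := by
        rw [← pow_add]
        congr 1
        omega
      rw [this, Nat.mod_mul_right_div_self]
    rw [e3]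
    have e4 : (2 : ℕ) ^ K = 2 ^ a * 2 ^ (K - a) := by
      rw [← pow_add]
      congr 1
      omega
    rw [e4]
    set q := ω i / 2 ^ a
    have hq : 2 ^ (K - a) * (q / 2 ^ (K - a)) + q % 2 ^ (K - a) = q := Nat.div_add_mod _ _
    have hqlt : q % 2 ^ (K - a) < 2 ^ (K - a) := Nat.mod_lt _ (by positivity)
    symm
    have e5 : 2 ^ a * q + u = 2 ^ a * 2 ^ (K - a) * (q / 2 ^ (K - a))
        + (2 ^ a * (q % 2 ^ (K - a)) + u) := by
      conv_lhs => rw [← hq]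
      ring
    rw [e5, Nat.mul_add_mod]
    apply Nat.mod_eq_of_lt
    calc 2 ^ a * (q % 2 ^ (K - a)) + u < 2 ^ a * (q % 2 ^ (K - a)) + 2 ^ a := by omega
      _ = 2 ^ a * (q % 2 ^ (K - a) + 1) := by ring
      _ ≤ 2 ^ a * 2 ^ (K - a) := Nat.mul_le_mul_left _ hqlt
  show F a N D (tr K ω) i = F a N D ω i % 2 ^ K
  rcases F_cases (N := N) (D := D) (tr K ω) i with h3 | ⟨p, hp, hb, h3⟩
  · rcases F_cases (N := N) (D := D) ω i with h4 | ⟨p, hp, hb, h4⟩
    · rw [h3, h4]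
      rfl
    · have hp' : Adm a N (tr K ω) i p := (Adm_tr hK).2 hp
      rw [F_adm hp' (by rw [hbit]; exact hb), hval, h4]
  · have hp' := (Adm_tr hK).1 hp
    rw [h3, hval, F_adm hp' (by rw [← hbit]; exact hb)]

end basic

end Pool.Agent.TH285.Ff
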