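import Mathlib
import Pool.Agent.TH285.Ff.Constr

/-!
# The infinite composition of the modification maps
-/

namespace Pool.Agent.TH285.Ff

open MeasureTheory

section dep

variable {X : Type} [MeasurableSpace X] [Countable X] [MeasurableSingletonClass X]

theorem meas_dep (x y : ℤ) (s : Set (ℤ → X))
    (h : ∀ ω ω' : ℤ → X, (∀ j, x ≤ j → j ≤ y → ω j = ω' j) → ω ∈ s → ω' ∈ s) :
    MeasurableSet s := by
  classical
  set J := Finset.Icc x y with hJ
  have h1 : s = (J.restrict : (ℤ → X) → (J → X)) ⁻¹' ((J.restrict : (ℤ → X) → (J → X)) '' s) := by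
    ext ω
    constructor
    · intro hω
      exact ⟨ω, hω, rfl⟩
    · rintro ⟨ω', hω', he⟩
      apply h ω' ω _ hω'
      intro j hj1 hj2
      have := congrFun he ⟨j, by rw [hJ, Finset.mem_Icc]; exact ⟨hj1, hj2⟩⟩
      exact this
  rw [h1]
  apply Finset.measurable_restrict J
  exact (Set.to_countable _).measurableSet

end dep

theorem measurable_F (a N : ℕ) (D : ∀ ℓ, Set (Fin ℓ → Fin (2 ^ a))) : Measurable (F a N D) := by
  refine measurable_pi_lambda _ fun i => ?_
  refine measurable_to_countable' fun n => ?_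
  have hAdm : ∀ p : ℤ × ℕ, MeasurableSet
      {ω : ℤ → ℕ | Adm a N ω i p ∧ (ω i).testBit a = true} := by
    intro p
    apply meas_dep p.1 (p.1 + 1 + p.2)
    rintro ω ω' h ⟨⟨⟨h1, h2, h3, h4⟩, h5, h6, h7⟩, h8⟩
    refine ⟨⟨⟨h1, ?_, ?_, ?_⟩, h5, h6, h7⟩, ?_⟩
    · rw [← h _ (by omega) (by omega)]; exact h2
    · rw [← h _ (by omega) (by omega)]; exact h3
    · intro j hj1 hj2
      rw [← h _ (by omega) (by omega)]; exact h4 j hj1 hj2
    · rw [← h _ (by omega) (by omega)]; exact h8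
  have hval : ∀ p : ℤ × ℕ, MeasurableSet
      {ω : ℤ → ℕ | (Adm a N ω i p ∧ (ω i).testBit a = true) ∧ nval a D ω p.1 p.2 i = n} := by
    intro p
    apply meas_dep p.1 (p.1 + 1 + p.2)
    rintro ω ω' h ⟨⟨⟨⟨h1, h2, h3, h4⟩, h5, h6, h7⟩, h8⟩, h9⟩
    refine ⟨⟨⟨⟨h1, ?_, ?_, ?_⟩, h5, h6, h7⟩, ?_⟩, ?_⟩
    · rw [← h _ (by omega) (by omega)]; exact h2
    · rw [← h _ (by omega) (by omega)]; exact h3
    · intro j hj1 hj2
      rw [← h _ (by omega) (by omega)]; exact h4 j hj1 hj2
    · rw [← h _ (by omega) (by omega)]; exact h8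
    · rw [← h9]
      unfold nval
      rw [h i (by omega) (by omega), wd_congr (ω := ω) (ω' := ω')]
      intro j hj1 hj2
      rw [h j (by omega) (by omega)]
  have hset : (fun ω => F a N D ω i) ⁻¹' {n} =
      ({ω : ℤ → ℕ | ω i = n} ∩ (⋃ p : ℤ × ℕ, {ω : ℤ → ℕ | Adm a N ω i p ∧
        (ω i).testBit a = true})ᶜ) ∪
      ⋃ p : ℤ × ℕ, {ω : ℤ → ℕ | (Adm a N ω i p ∧ (ω i).testBit a = true) ∧
        nval a D ω p.1 p.2 i = n} := by
    ext ω
    simp only [Set.mem_preimage, Set.mem_singleton_iff, Set.mem_union, Set.mem_inter_iff,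
      Set.mem_compl_iff, Set.mem_iUnion, Set.mem_ofPred_eq]
    constructor
    · intro h
      by_cases hp : ∃ p, Adm a N ω i p ∧ (ω i).testBit a = true
      · right
        obtain ⟨p, hp1, hp2⟩ := hp
        refine ⟨p, ⟨hp1, hp2⟩, ?_⟩
        rw [← F_adm (D := D) hp1 hp2]
        exact h
      · left
        refine ⟨?_, hp⟩
        rw [← h]
        unfold F
        rw [dif_neg hp]
    · rintro (⟨h1, h2⟩ | ⟨p, ⟨hp1, hp2⟩, h3⟩)
      · unfold F
        rw [dif_neg h2]
        exact h1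
      · rw [F_adm hp1 hp2]
        exact h3
  rw [hset]
  refine MeasurableSet.union (MeasurableSet.inter ?_ ?_) ?_
  · have hme : Measurable fun ω : ℤ → ℕ => ω i := measurable_pi_apply i
    exact hme (measurableSet_singleton n)
  · exact (MeasurableSet.iUnion hAdm).compl
  · exact MeasurableSet.iUnion hval

/-- parameters -/
structure Par where
  al : ℕ → ℕ
  nn : ℕ → ℕ
  D : ∀ m ℓ, Set (Fin ℓ → Fin (2 ^ al m))
  hal : ∀ m, al m + 2 ≤ al (m + 1)

variable (P : Par)

theorem Par.al_lt {m m' : ℕ} (h : m < m') : P.al m + 2 ≤ P.al m' := by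
  induction m' with
  | zero => omega
  | succ k ih =>
    rcases Nat.lt_succ_iff_lt_or_eq.1 h with h1 | h1
    · have := ih h1
      have := P.hal k
      omega
    · subst h1
      exact P.hal m

theorem Par.al_le {m m' : ℕ} (h : m ≤ m') : P.al m ≤ P.al m' := by
  rcases h.eq_or_lt with h1 | h1
  · rw [h1]
  · have := P.al_lt h1
    omega

/-- level map -/
noncomputable def Fm (m : ℕ) : (ℤ → ℕ) → ℤ → ℕ := F (P.al m) (P.nn m) (P.D m)

/-- composition of `k` level maps starting at level `m` (the highest level acts first) -/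
noncomputable def comp : ℕ → ℕ → (ℤ → ℕ) → ℤ → ℕ
  | _, 0, ω => ω
  | m, k + 1, ω => Fm P m (comp (m + 1) k ω)

theorem comp_zero (m : ℕ) (ω : ℤ → ℕ) : comp P m 0 ω = ω := by
  unfold comp
  rfl

theorem comp_succ (m k : ℕ) (ω : ℤ → ℕ) : comp P m (k + 1) ω = Fm P m (comp P (m + 1) k ω) := by
  conv_lhs => unfold comp

theorem comp_add (k1 k2 : ℕ) : ∀ (m : ℕ) (ω : ℤ → ℕ),
    comp P m (k1 + k2) ω = comp P m k1 (comp P (m + k1) k2 ω) := by
  induction k1 with
  | zero =>
    intro m ω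
    rw [Nat.zero_add, comp_zero, Nat.add_zero]
  | succ k ih =>
    intro m ω
    rw [show k + 1 + k2 = (k + k2) + 1 by ring, comp_succ, comp_succ, ih (m + 1)]
    rw [show m + 1 + k = m + (k + 1) by ring]

theorem comp_small (k : ℕ) : ∀ (m : ℕ) (ω : ℤ → ℕ) (i : ℤ), ω i < 2 ^ P.al m →
    comp P m k ω i = ω i := by
  induction k with
  | zero =>
    intro m ω i _
    rw [comp_zero]
  | succ k ih =>
    intro m ω i h
    rw [comp_succ]
    have h1 : comp P (m + 1) k ω i = ω i :=
      ih (m + 1) ω i (lt_of_lt_of_le h (Nat.pow_le_pow_right (by norm_num) (P.al_le (by omega))))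
    unfold Fm
    rw [F_not_bit]
    · exact h1
    · rw [h1]
      exact Nat.testBit_lt_two_pow h

theorem comp_sh (k : ℕ) : ∀ (m : ℕ) (t : ℤ) (ω : ℤ → ℕ),
    comp P m k (sh t ω) = sh t (comp P m k ω) := by
  induction k with
  | zero =>
    intro m t ω
    rw [comp_zero, comp_zero]
  | succ k ih =>
    intro m t ω
    rw [comp_succ, comp_succ, ih]
    unfold Fm
    exact F_sh t _

theorem measurable_comp (k : ℕ) : ∀ m : ℕ, Measurable (comp P m k) := by
  induction k with
  | zero =>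
    intro m
    have : comp P m 0 = id := by
      funext ω
      rw [comp_zero]
      rfl
    rw [this]
    exact measurable_id
  | succ k ih =>
    intro m
    have : comp P m (k + 1) = fun ω => Fm P m (comp P (m + 1) k ω) := by
      funext ω
      rw [comp_succ]
    rw [this]
    exact (measurable_F _ _ _).comp (ih (m + 1))

theorem comp_tr (K k : ℕ) : ∀ (m : ℕ) (ω : ℤ → ℕ), (∀ m' < m + k, P.al m' + 2 ≤ K) →
    comp P m k (tr K ω) = tr K (comp P m k ω) := by
  induction k with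
  | zero =>
    intro m ω _
    rw [comp_zero, comp_zero]
  | succ k ih =>
    intro m ω h
    rw [comp_succ, comp_succ, ih (m + 1) ω (fun m' hm' => h m' (by omega))]
    unfold Fm
    exact F_tr (h m (by omega)) _

/-- barrier property -/
def Bar (M n : ℕ) : Prop := ∀ m < M, n.testBit (P.al m + 1) = true ∧ n.testBit (P.al m) = false

/-- the simplest barrier -/
def bnum : ℕ → ℕ
  | 0 => 0
  | M + 1 => 2 ^ (P.al M + 1) * 1 + bnum M

theorem bnum_lt (M : ℕ) : bnum P M < 2 ^ P.al M := by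
  induction M with
  | zero =>
    unfold bnum
    positivity
  | succ M ih =>
    unfold bnum
    have h1 : 2 ^ (P.al M + 2) ≤ 2 ^ P.al (M + 1) := Nat.pow_le_pow_right (by norm_num) (P.hal M)
    have h2 : 2 ^ (P.al M + 2) = 4 * 2 ^ P.al M := by ring
    have h3 : 2 ^ (P.al M + 1) = 2 * 2 ^ P.al M := by ring
    omega

theorem bnum_bar (M : ℕ) : Bar P M (bnum P M) := by
  induction M with
  | zero =>
    intro m hm
    omega
  | succ M ih =>
    intro m hm
    unfold bnum
    have hlt : bnum P M < 2 ^ (P.al M + 1) :=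
      lt_trans (bnum_lt P M) (Nat.pow_lt_pow_right (by norm_num) (by omega))
    rcases Nat.lt_succ_iff_lt_or_eq.1 hm with h1 | h1
    · have h2 := P.al_lt h1
      rw [Nat.testBit_two_pow_mul_add _ hlt, Nat.testBit_two_pow_mul_add _ hlt]
      rw [if_pos (by omega), if_pos (by omega)]
      exact ih m h1
    · subst h1
      rw [Nat.testBit_two_pow_mul_add _ hlt, Nat.testBit_two_pow_mul_add _ hlt]
      rw [if_neg (by omega), if_pos (by omega)]
      refine ⟨by simp, Nat.testBit_lt_two_pow (bnum_lt P m)⟩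

theorem comp_bar {M : ℕ} (k : ℕ) : ∀ (m : ℕ) (ω : ℤ → ℕ) (i : ℤ), m + k ≤ M → Bar P M (ω i) →
    comp P m k ω i = ω i := by
  induction k with
  | zero =>
    intro m ω i _ _
    rw [comp_zero]
  | succ k ih =>
    intro m ω i h hb
    rw [comp_succ]
    have h1 := ih (m + 1) ω i (by omega) hb
    unfold Fm
    rw [F_not_bit]
    · exact h1
    · rw [h1]
      exact (hb m (by omega)).2

theorem comp_local {M : ℕ} {x y : ℤ} (k : ℕ) : ∀ (m : ℕ) (ω ω' : ℤ → ℕ), m + k ≤ M →
    Bar P M (ω x) → Bar P M (ω y) → (∀ j, x ≤ j → j ≤ y → ω j = ω' j) →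
    ∀ j, x ≤ j → j ≤ y → comp P m k ω j = comp P m k ω' j := by
  induction k with
  | zero =>
    intro m ω ω' _ _ _ h
    rw [comp_zero, comp_zero]
    exact h
  | succ k ih =>
    intro m ω ω' hm hx hy h j hj1 hj2
    have h1 := ih (m + 1) ω ω' (by omega) hx hy h
    rw [comp_succ, comp_succ]
    have ex := comp_bar P k (m + 1) ω x (by omega) hx
    have ey := comp_bar P k (m + 1) ω y (by omega) hy
    have hxm : mkr (P.al m) (comp P (m + 1) k ω x) := by
      unfold mkr
      rw [ex]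
      exact (hx m (by omega)).1
    have hym : mkr (P.al m) (comp P (m + 1) k ω y) := by
      unfold mkr
      rw [ey]
      exact (hy m (by omega)).1
    rcases eq_or_lt_of_le hj1 with h2 | h2
    · subst h2
      have e2 := h1 x le_rfl hj2
      unfold Fm
      rw [F_not_bit, F_not_bit]
      · exact e2
      · rw [← e2, ex]
        exact (hx m (by omega)).2
      · rw [ex]
        exact (hx m (by omega)).2
    · rcases eq_or_lt_of_le hj2 with h3 | h3
      · subst h3
        have e2 := h1 j hj1 le_rfl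
        unfold Fm
        rw [F_not_bit, F_not_bit]
        · exact e2
        · rw [← e2, ey]
          exact (hy m (by omega)).2
        · rw [ey]
          exact (hy m (by omega)).2
      · unfold Fm
        exact F_local hxm hym h1 h2 h3

/-- a window on which only the levels below `M` act -/
def Win (M : ℕ) (x y : ℤ) (ω : ℤ → ℕ) : Prop :=
  ω x = bnum P M ∧ ω y = bnum P M ∧ ∀ j, x ≤ j → j ≤ y → ω j < 2 ^ P.al M

theorem comp_stab {M m k1 : ℕ} {x y : ℤ} {ω : ℤ → ℕ} (hM : M = m + k1) (hw : Win P M x y ω)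
    (k2 : ℕ) (j : ℤ) (hj1 : x ≤ j) (hj2 : j ≤ y) :
    comp P m (k1 + k2) ω j = comp P m k1 ω j := by
  rw [comp_add]
  subst hM
  have h1 : ∀ j, x ≤ j → j ≤ y → comp P (m + k1) k2 ω j = ω j := fun j h1 h2 =>
    comp_small P k2 _ ω j (hw.2.2 j h1 h2)
  refine comp_local P (M := m + k1) k1 m _ _ le_rfl ?_ ?_ h1 j hj1 hj2
  · rw [h1 x le_rfl (le_trans hj1 hj2), hw.1]
    exact bnum_bar P _
  · rw [h1 y (le_trans hj1 hj2) le_rfl, hw.2.1]
    exact bnum_bar P _

/-- good configurations -/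
def Good (ω : ℤ → ℕ) : Prop := ∀ (i : ℤ) (m : ℕ), ∃ M, m ≤ M ∧ ∃ x y, x < i ∧ i < y ∧ Win P M x y ω

open Classical in
/-- the limit configuration above level `m` -/
noncomputable def U (m : ℕ) (ω : ℤ → ℕ) : ℤ → ℕ := fun i =>
  if h : ∃ K, ∀ k, K ≤ k → comp P m k ω i = comp P m K ω i then comp P m h.choose ω i else 0

theorem U_eq {m : ℕ} {ω : ℤ → ℕ} {i : ℤ} {v K : ℕ} (h : ∀ k, K ≤ k → comp P m k ω i = v) :
    U P m ω i = v := by
  have h' : ∃ K, ∀ k, K ≤ k → comp P m k ω i = comp P m K ω i :=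
    ⟨K, fun k hk => (h k hk).trans (h K le_rfl).symm⟩
  unfold U
  rw [dif_pos h']
  have h2 := h'.choose_spec (max K h'.choose) (le_max_right _ _)
  rw [← h2]
  exact h _ (le_max_left _ _)

theorem U_win {m M : ℕ} {x y : ℤ} {ω : ℤ → ℕ} (hm : m ≤ M) (hw : Win P M x y ω) {j : ℤ}
    (hj1 : x ≤ j) (hj2 : j ≤ y) : U P m ω j = comp P m (M - m) ω j := by
  refine U_eq P (K := M - m) ?_
  intro k hk
  obtain ⟨k2, rfl⟩ := Nat.exists_eq_add_of_le hk
  exact comp_stab P (by omega) hw k2 j hj1 hj2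

theorem U_small {m : ℕ} {ω : ℤ → ℕ} {i : ℤ} (h : ω i < 2 ^ P.al m) : U P m ω i = ω i :=
  U_eq P (K := 0) fun k _ => comp_small P k m ω i h

theorem U_sh (m : ℕ) (t : ℤ) (ω : ℤ → ℕ) : U P m (sh t ω) = sh t (U P m ω) := by
  funext i
  show U P m (sh t ω) i = U P m ω (i + t)
  have h1 : ∀ k, comp P m k (sh t ω) i = comp P m k ω (i + t) := by
    intro k
    rw [comp_sh]
    rfl
  by_cases h : ∃ K, ∀ k, K ≤ k → comp P m k ω (i + t) = comp P m K ω (i + t)
  · obtain ⟨K, hK⟩ := h
    rw [U_eq P (m := m) (ω := ω) (i := i + t) hK]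
    refine U_eq P (K := K) fun k hk => ?_
    rw [h1]
    exact hK k hk
  · have h' : ¬ ∃ K, ∀ k, K ≤ k → comp P m k (sh t ω) i = comp P m K (sh t ω) i := by
      simpa only [h1] using h
    unfold U
    rw [dif_neg h, dif_neg h']

theorem measurable_U (m : ℕ) : Measurable (U P m) := by
  refine measurable_pi_lambda _ fun i => ?_
  refine measurable_to_countable' fun n => ?_
  have hg : ∀ k, Measurable fun ω : ℤ → ℕ => comp P m k ω i := fun k =>
    (measurable_pi_apply i).comp (measurable_comp P k m)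
  have hset : (fun ω => U P m ω i) ⁻¹' {n} =
      (⋃ K : ℕ, ⋂ k : ℕ, ⋂ _ : K ≤ k, {ω : ℤ → ℕ | comp P m k ω i = n}) ∪
      ((⋃ K : ℕ, ⋂ k : ℕ, ⋂ _ : K ≤ k, {ω : ℤ → ℕ | comp P m k ω i = comp P m K ω i})ᶜ
        ∩ {_ω : ℤ → ℕ | n = 0}) := by
    ext ω
    simp only [Set.mem_preimage, Set.mem_singleton_iff, Set.mem_union, Set.mem_inter_iff,
      Set.mem_compl_iff, Set.mem_iUnion, Set.mem_iInter, Set.mem_ofPred_eq]
    constructor
    · intro h
      by_cases h' : ∃ K, ∀ k, K ≤ k → comp P m k ω i = comp P m K ω i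
      · left
        obtain ⟨K, hK⟩ := h'
        refine ⟨K, fun k hk => ?_⟩
        rw [hK k hk, ← h]
        exact (U_eq P hK).symm
      · right
        refine ⟨h', ?_⟩
        unfold U at h
        rw [dif_neg h'] at h
        exact h.symm
    · rintro (⟨K, hK⟩ | ⟨h1, h2⟩)
      · exact U_eq P hK
      · unfold U
        rw [dif_neg h1, h2]
  rw [hset]
  refine MeasurableSet.union ?_ (MeasurableSet.inter ?_ ?_)
  · refine MeasurableSet.iUnion fun K => MeasurableSet.iInter fun k => MeasurableSet.iInter fun _ => ?_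
    exact hg k (measurableSet_singleton n)
  · refine MeasurableSet.compl ?_
    refine MeasurableSet.iUnion fun K => MeasurableSet.iInter fun k => MeasurableSet.iInter fun _ => ?_
    exact measurableSet_eq_fun (hg k) (hg K)
  · by_cases hn : n = 0
    · simp [hn]
    · simp [hn]

theorem U_step {ω : ℤ → ℕ} (hg : Good P ω) (m : ℕ) : U P m ω = Fm P m (U P (m + 1) ω) := by
  funext i
  obtain ⟨M, hM, x, y, hx, hy, hw⟩ := hg i (m + 1)
  have h1 : ∀ j, x ≤ j → j ≤ y → U P (m + 1) ω j = comp P (m + 1) (M - (m + 1)) ω j :=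
    fun j h1 h2 => U_win P hM hw h1 h2
  rw [U_win P (m := m) (by omega) hw hx.le hy.le]
  have e : M - m = (M - (m + 1)) + 1 := by omega
  rw [e, comp_succ]
  have hbx : Bar P M (ω x) := by rw [hw.1]; exact bnum_bar P M
  have hby : Bar P M (ω y) := by rw [hw.2.1]; exact bnum_bar P M
  have ex := comp_bar P (M - (m + 1)) (m + 1) ω x (by omega) hbx
  have ey := comp_bar P (M - (m + 1)) (m + 1) ω y (by omega) hby
  unfold Fm
  refine F_local (x := x) (y := y) ?_ ?_ (fun j h2 h3 => (h1 j h2 h3).symm) hx hy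
  · unfold mkr
    rw [ex]
    exact (hbx m (by omega)).1
  · unfold mkr
    rw [ey]
    exact (hby m (by omega)).1

theorem U_iter {ω : ℤ → ℕ} (hg : Good P ω) (m : ℕ) : U P 0 ω = comp P 0 m (U P m ω) := by
  induction m with
  | zero => rw [comp_zero]
  | succ m ih =>
    rw [comp_add P m 1 0, Nat.zero_add, comp_succ, comp_zero, ← U_step P hg m]
    exact ih

/-- the output process -/
noncomputable def Y (ω : ℤ → ℕ) : ℤ → Bool := fun i => (U P 0 ω i).testBit 0

theorem Y_sh (t : ℤ) (ω : ℤ → ℕ) : Y P (sh t ω) = sh t (Y P ω) := by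
  funext i
  unfold Y
  rw [U_sh]
  rfl

theorem measurable_Y : Measurable (Y P) := by
  refine measurable_pi_lambda _ fun i => ?_
  exact (measurable_of_countable (fun n : ℕ => n.testBit 0)).comp
    ((measurable_pi_apply i).comp (measurable_U P 0))

/-- the output is determined by a window of the original configuration -/
theorem Y_win {M : ℕ} {x y : ℤ} {ω ω' : ℤ → ℕ} (hw : Win P M x y ω)
    (h : ∀ j, x ≤ j → j ≤ y → ω j = ω' j) {j : ℤ} (hj1 : x ≤ j) (hj2 : j ≤ y) :
    Y P ω j = Y P ω' j := by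
  have hxy : x ≤ y := le_trans hj1 hj2
  have hw' : Win P M x y ω' := by
    refine ⟨?_, ?_, ?_⟩
    · rw [← h x le_rfl hxy]; exact hw.1
    · rw [← h y hxy le_rfl]; exact hw.2.1
    · intro j h1 h2
      rw [← h j h1 h2]; exact hw.2.2 j h1 h2
  unfold Y
  rw [U_win P (Nat.zero_le M) hw hj1 hj2, U_win P (Nat.zero_le M) hw' hj1 hj2]
  congr 1
  refine comp_local P (M := M) _ 0 ω ω' (by omega) ?_ ?_ h j hj1 hj2
  · rw [hw.1]; exact bnum_bar P M
  · rw [hw.2.1]; exact bnum_bar P M

/-- the output is determined by a window of the truncated configuration above level `m` -/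
theorem Y_det {m : ℕ} (hm : 1 ≤ P.al m) {x y : ℤ} {ω ω' : ℤ → ℕ} (hg : Good P ω)
    (hg' : Good P ω') (hx : Bar P m (tr (P.al m) (U P m ω) x))
    (hy : Bar P m (tr (P.al m) (U P m ω) y))
    (h : ∀ j, x ≤ j → j ≤ y → tr (P.al m) (U P m ω) j = tr (P.al m) (U P m ω') j) {j : ℤ}
    (hj1 : x ≤ j) (hj2 : j ≤ y) : Y P ω j = Y P ω' j := by
  have h0 : ∀ m' < 0 + m, P.al m' + 2 ≤ P.al m := fun m' hm' => P.al_lt (by omega)
  have key : ∀ ω, Good P ω → tr (P.al m) (U P 0 ω) = comp P 0 m (tr (P.al m) (U P m ω)) := by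
    intro ω hg
    rw [comp_tr P (P.al m) m 0 _ h0, ← U_iter P hg m]
  have h1 := comp_local P (M := m) m 0 _ _ (by omega) hx hy h j hj1 hj2
  rw [← key ω hg, ← key ω' hg'] at h1
  have h2 : ∀ n : ℕ, (n % 2 ^ P.al m).testBit 0 = n.testBit 0 := by
    intro n
    rw [Nat.testBit_mod_two_pow]
    have : 0 < P.al m := by omega
    simp [this]
  have h3 := congrArg (fun n : ℕ => n.testBit 0) h1
  unfold tr at h3
  simp only [h2] at h3
  exact h3

end Pool.Agent.TH285.Ff
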