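import Mathlib
import Pool.Agent.TH285.Ff.Levels

/-!
# Laws of the digits under the geometric product measure
-/

namespace Pool.Agent.TH285.Ff

open MeasureTheory Finset

/-- the reference measure on configurations -/
noncomputable def mu : Measure (ℤ → ℕ) := zp gm

instance : IsProbabilityMeasure mu := by
  unfold mu
  infer_instance

/-- `2^{-2^a}` -/
noncomputable def th (a : ℕ) : ℝ := (1 / 2 : ℝ) ^ (2 ^ a)

theorem th_pos (a : ℕ) : 0 < th a := by unfold th; positivity

theorem th_lt_one (a : ℕ) : th a < 1 := by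
  unfold th
  exact pow_lt_one₀ (by norm_num) (by norm_num) (by positivity)

theorem th_le_half (a : ℕ) : th a ≤ 1 / 2 := by
  unfold th
  calc (1 / 2 : ℝ) ^ (2 ^ a) ≤ (1 / 2 : ℝ) ^ 1 :=
        pow_le_pow_of_le_one (by norm_num) (by norm_num) (Nat.one_le_two_pow)
    _ = 1 / 2 := pow_one _

/-- law of the low part -/
noncomputable def nu (a : ℕ) (b : Fin (2 ^ a)) : ℝ := (1 / 2 : ℝ) ^ ((b : ℕ) + 1) / (1 - th a)

theorem nu_eq (a : ℕ) (b : Fin (2 ^ a)) : nu a b = gm.real {n | (enc a n).2 = b} := by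
  have h := gm_real_mod (K := 2 ^ a) (by positivity) b.2
  unfold nu th
  rw [← h]
  congr 1
  ext n
  unfold enc
  simp only [Set.mem_ofPred_eq, Fin.ext_iff]

theorem nu_nonneg (a : ℕ) (b : Fin (2 ^ a)) : 0 ≤ nu a b := by
  rw [nu_eq]
  exact measureReal_nonneg

theorem nu_sum (a : ℕ) : ∑ b, nu a b = 1 := by
  classical
  have h := real_mem_eq_sum gm (fun n => (enc a n).2) (fun y => MeasurableSet.of_discrete) Set.univ
  simp only [Set.mem_univ, if_true] at h
  have h2 : {n : ℕ | (fun n => (enc a n).2) n ∈ Set.univ} = Set.univ := by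
    ext n; simp
  simp only [nu_eq]
  rw [← h]
  have h3 : {ω : ℕ | True} = Set.univ := Set.ofPred_true
  rw [h3]
  exact probReal_univ

/-- lower bound for letters -/
theorem nu_lower (a : ℕ) (b : Fin (2 ^ a)) : (1 / 2 : ℝ) ^ (2 ^ a) ≤ nu a b := by
  unfold nu
  have h1 : 0 < 1 - th a := by have := th_lt_one a; linarith
  have h2 : 1 - th a ≤ 1 := by have := th_pos a; linarith
  rw [le_div_iff₀ h1]
  have h3 : (1 / 2 : ℝ) ^ (2 ^ a) ≤ (1 / 2 : ℝ) ^ ((b : ℕ) + 1) :=
    pow_le_pow_of_le_one (by norm_num) (by norm_num) b.2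
  calc (1 / 2 : ℝ) ^ (2 ^ a) * (1 - th a) ≤ (1 / 2 : ℝ) ^ (2 ^ a) * 1 := by
        apply mul_le_mul_of_nonneg_left h2 (by positivity)
    _ ≤ _ := by rw [mul_one]; exact h3

theorem law_low (a n : ℕ) (l : ℤ) (A : Set (Fin n → Fin (2 ^ a))) :
    mu.real {ω | (fun k : Fin n => (enc a (ω (l + 1 + (k : ℕ)))).2) ∈ A} = wt (nu a) A := by
  classical
  have hmeas : ∀ u : Fin n → Fin (2 ^ a), MeasurableSet
      {ω : ℤ → ℕ | (fun k : Fin n => (enc a (ω (l + 1 + (k : ℕ)))).2) = u} := by
    intro u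
    apply meas_dep (l + 1) (l + 1 + n)
    intro ω ω' h hω
    have hω' : (fun k : Fin n => (enc a (ω (l + 1 + (k : ℕ)))).2) = u := hω
    show (fun k : Fin n => (enc a (ω' (l + 1 + (k : ℕ)))).2) = u
    rw [← hω']
    funext k
    rw [h _ (by omega) (by have := k.2; omega)]
  rw [real_mem_eq_sum mu _ hmeas]
  unfold wt
  refine Finset.sum_congr rfl fun u _ => ?_
  split_ifs
  · have h := zp_box_inj gm (fun k : Fin n => l + 1 + ((k : ℕ) : ℤ)) (by
      intro k k' hk
      have hk' : l + 1 + ((k : ℕ) : ℤ) = l + 1 + ((k' : ℕ) : ℤ) := hk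
      apply Fin.ext
      omega) (fun k => {m | (enc a m).2 = u k}) (fun _ => MeasurableSet.of_discrete)
    have h2 : {ω : ℤ → ℕ | (fun k : Fin n => (enc a (ω (l + 1 + (k : ℕ)))).2) = u}
        = {ω | ∀ k : Fin n, ω (l + 1 + ((k : ℕ) : ℤ)) ∈ (fun k => {m | (enc a m).2 = u k}) k} := by
      ext ω
      constructor
      · intro h k
        exact congrFun h k
      · intro h
        funext k
        exact h k
    rw [h2]
    unfold mu
    rw [h]
    exact Finset.prod_congr rfl fun k _ => (nu_eq a (u k)).symm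
  · rfl

/-- decoding of a pair (permission digit, low part) -/
def dec (a : ℕ) (y : Bool × Fin (2 ^ a)) : ℕ := (y.2 : ℕ) + (if y.1 then 2 ^ a else 0)

theorem dec_lt (a : ℕ) (y : Bool × Fin (2 ^ a)) : dec a y < 2 ^ (a + 1) := by
  unfold dec
  have := y.2.2
  have h2 : 2 ^ (a + 1) = 2 * 2 ^ a := by ring
  split_ifs <;> omega

theorem enc_dec (a : ℕ) (y : Bool × Fin (2 ^ a)) : enc a (dec a y) = y := by
  obtain ⟨b, u⟩ := y
  have hu := u.2
  unfold enc dec
  cases b
  · refine Prod.ext ?_ (Fin.ext ?_)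
    · show ((u : ℕ) + 0).testBit a = false
      exact Nat.testBit_lt_two_pow (by omega)
    · show ((u : ℕ) + 0) % 2 ^ a = u
      exact Nat.mod_eq_of_lt (by omega)
  · refine Prod.ext ?_ (Fin.ext ?_)
    · show ((u : ℕ) + 2 ^ a).testBit a = true
      have h : (u : ℕ) + 2 ^ a = 2 ^ a * 1 + u := by ring
      rw [h, Nat.testBit_two_pow_mul_add _ hu, if_neg (by omega)]
      simp
    · show ((u : ℕ) + 2 ^ a) % 2 ^ a = u
      rw [Nat.add_mod_right]
      exact Nat.mod_eq_of_lt hu

theorem gm_dec (a : ℕ) (y : Bool × Fin (2 ^ a)) :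
    gm.real {dec a y} = (1 - th a) * pw (th a) (nu a) y := by
  rw [gm_real_singleton]
  obtain ⟨b, u⟩ := y
  have h1 : 0 < 1 - th a := by have := th_lt_one a; linarith
  unfold dec pw nu
  cases b
  · simp only [Bool.false_eq_true, if_false, add_zero, one_mul]
    field_simp
  · simp only [if_true]
    have : (1 / 2 : ℝ) ^ ((u : ℕ) + 2 ^ a + 1) = th a * (1 / 2 : ℝ) ^ ((u : ℕ) + 1) := by
      unfold th
      rw [← pow_add]
      congr 1
      ring
    rw [this]
    field_simp

/-- the basic favourable event -/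
def Ev (a n : ℕ) (l : ℤ) (D : Set (Fin n → Fin (2 ^ a))) : Set (ℤ → ℕ) :=
  {ω | (ω l = 2 ^ (a + 1) ∧ ω (l + 1 + n) = 2 ^ (a + 1)) ∧
    (∀ k : Fin n, ω (l + 1 + (k : ℕ)) < 2 ^ (a + 1)) ∧ wd a ω l n ∈ reach D}

theorem law_Ev (a n : ℕ) (l : ℤ) (D : Set (Fin n → Fin (2 ^ a))) :
    ((1 / 2 : ℝ) ^ (2 ^ (a + 1) + 1)) ^ 2 * ((1 - th a ^ 2) ^ n * wt (nu a) D ^ (1 / (1 + th a)))
      ≤ mu.real (Ev a n l D) := by
  classical
  have h1t : 0 < 1 - th a := by have := th_lt_one a; linarith
  set f : Fin n ⊕ Bool → ℤ := Sum.elim (fun k => l + 1 + ((k : ℕ) : ℤ))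
    (fun b => if b then l + 1 + n else l) with hf
  have hfinj : Function.Injective f := by
    rintro (k | b) (k' | b') h
    · simp only [hf, Sum.elim_inl] at h
      congr 1
      apply Fin.ext
      omega
    · exfalso
      simp only [hf, Sum.elim_inl, Sum.elim_inr] at h
      have := k.2
      split_ifs at h <;> omega
    · exfalso
      simp only [hf, Sum.elim_inl, Sum.elim_inr] at h
      have := k'.2
      split_ifs at h <;> omega
    · simp only [hf, Sum.elim_inr] at h
      congr 1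
      cases b <;> cases b' <;> simp at h ⊢ <;> omega
  set E : (Fin n → Bool × Fin (2 ^ a)) → Set (ℤ → ℕ) := fun x =>
    {ω | ∀ i, ω (f i) ∈ (Sum.elim (fun k => {dec a (x k)}) (fun _ => {2 ^ (a + 1)}) :
      Fin n ⊕ Bool → Set ℕ) i} with hE
  have hEm : ∀ x, mu.real (E x) = (∏ k, gm.real {dec a (x k)}) *
      ((1 / 2 : ℝ) ^ (2 ^ (a + 1) + 1)) ^ 2 := by
    intro x
    have h := zp_box_inj gm f hfinj
      (Sum.elim (fun k => {dec a (x k)}) (fun _ => {2 ^ (a + 1)}) : Fin n ⊕ Bool → Set ℕ)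
      (fun _ => MeasurableSet.of_discrete)
    simp only [hE]
    unfold mu
    rw [h, Fintype.prod_sum_type]
    simp only [Sum.elim_inl, Sum.elim_inr]
    congr 1
    rw [Fintype.prod_bool, gm_real_singleton, sq]
  have hEmeas : ∀ x, MeasurableSet (E x) := by
    intro x
    apply meas_dep l (l + 1 + n)
    intro ω ω' h hω i
    have h2 := hω i
    have h3 : ω (f i) = ω' (f i) := by
      apply h
      · rcases i with k | b
        · simp only [hf, Sum.elim_inl]; omega
        · simp only [hf, Sum.elim_inr]; split_ifs <;> omega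
      · rcases i with k | b
        · simp only [hf, Sum.elim_inl]; have := k.2; omega
        · simp only [hf, Sum.elim_inr]; split_ifs <;> omega
    rw [← h3]
    exact h2
  have hEk : ∀ x ω, ω ∈ E x → ∀ k : Fin n, ω (l + 1 + ((k : ℕ) : ℤ)) = dec a (x k) := by
    intro x ω hω k
    exact hω (Sum.inl k)
  have hsub : (⋃ x ∈ (Finset.univ.filter fun x => x ∈ reach D), E x) ⊆ Ev a n l D := by
    intro ω hω
    simp only [Set.mem_iUnion, Finset.mem_filter, Finset.mem_univ, true_and] at hω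
    obtain ⟨x, hx, hω⟩ := hω
    have hk := hEk x ω hω
    refine ⟨⟨hω (Sum.inr false), hω (Sum.inr true)⟩, ?_, ?_⟩
    · intro k
      rw [hk k]
      exact dec_lt a _
    · have : wd a ω l n = x := by
        funext k
        unfold wd
        rw [hk k, enc_dec]
      rw [this]
      exact hx
  have hsum : mu.real (⋃ x ∈ (Finset.univ.filter fun x => x ∈ reach D), E x)
      = ∑ x ∈ (Finset.univ.filter fun x => x ∈ reach D), mu.real (E x) := by
    rw [measureReal_biUnion_finset]
    · intro x _ x' _ hne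
      refine Set.disjoint_left.2 fun ω h1 h2 => hne ?_
      funext k
      have e1 := hEk x ω h1 k
      have e2 := hEk x' ω h2 k
      rw [← enc_dec a (x k), ← enc_dec a (x' k), ← e1, ← e2]
    · intro x _
      exact hEmeas x
  refine le_trans ?_ (measureReal_mono hsub)
  rw [hsum, Finset.sum_filter]
  simp only [hEm]
  have hpull : (∑ x : Fin n → Bool × Fin (2 ^ a), if x ∈ reach D then
      (∏ k, gm.real {dec a (x k)}) * ((1 / 2 : ℝ) ^ (2 ^ (a + 1) + 1)) ^ 2 else 0)
      = ((1 / 2 : ℝ) ^ (2 ^ (a + 1) + 1)) ^ 2 * ((1 - th a) ^ n *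
        wt (pw (th a) (nu a)) (reach D)) := by
    unfold wt
    rw [Finset.mul_sum, Finset.mul_sum]
    refine Finset.sum_congr rfl fun x _ => ?_
    split_ifs
    · simp only [gm_dec]
      rw [Finset.prod_mul_distrib, Finset.prod_const, Finset.card_univ, Fintype.card_fin]
      ring
    · ring
  rw [hpull]
  refine mul_le_mul_of_nonneg_left ?_ (by positivity)
  have hre := reach_ineq (th_pos a).le (nu_nonneg a) (nu_sum a) n D
  calc (1 - th a ^ 2) ^ n * wt (nu a) D ^ (1 / (1 + th a))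
      = (1 - th a) ^ n * ((1 + th a) ^ n * wt (nu a) D ^ (1 / (1 + th a))) := by
        rw [← mul_assoc, ← mul_pow]
        congr 2
        ring
    _ ≤ _ := mul_le_mul_of_nonneg_left hre (by positivity)

end Pool.Agent.TH285.Ff
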