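import Mathlib

/-!
# Choice of the constants
-/

namespace Pool.Agent.TH285.Ff

theorem pow_floor_ge {y t : ℝ} (hy0 : 0 < y) (hy1 : y ≤ 1) (ht : 0 ≤ t) (n : ℕ) :
    (y ^ t) ^ n ≤ y ^ (⌊t * n⌋₊) := by
  rw [← Real.rpow_natCast (y ^ t) n, ← Real.rpow_mul hy0.le, ← Real.rpow_natCast y]
  apply Real.rpow_le_rpow_of_exponent_ge hy0 hy1
  exact Nat.floor_le (by positivity)

theorem exists_consts {h θ c : ℝ} (hh : 0 < h) (hh1 : h ≤ 1 / 2) (hθ : 0 < θ) (hθh : θ < h / 4)
    (hc : 0 < c) (hc1 : c ≤ 1) :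
    ∃ lam ρ ε : ℝ, 0 < lam ∧ lam < 1 ∧ 0 < ρ ∧ 0 < ε ∧ ε ≤ 1 / 2 ∧
      (1 - h) ^ (θ / (1 + θ) / 2) < (1 - θ ^ 2) * lam ^ 3 ∧
      (∃ x, 0 ≤ x ∧ x ≤ 1 ∧ ∀ n : ℕ, lam ^ n ≤ (1 - x) ^ n * (x * c) ^ (⌊ρ * n⌋₊)) ∧
      (∃ x, 0 < x ∧ x ≤ 1 ∧ ∀ n : ℕ, (1 + x) ^ n * lam ^ n ≤ x ^ (⌊ε * n⌋₊)) := by
  have hθ1 : θ < 1 / 8 := by linarith
  have hθ2 : 0 < 1 - θ ^ 2 := by nlinarith
  set e := θ / (1 + θ) / 2 with he
  have he0 : 0 < e := by positivity
  have he1 : e ≤ 1 := by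
    rw [he, div_div, div_le_one (by positivity)]
    linarith
  have h1 : (1 - h) ^ e ≤ 1 - e * h := by
    have := _root_.rpow_one_add_le_one_add_mul_self (s := -h) (by linarith) he0.le he1
    have e1 : (1 : ℝ) + -h = 1 - h := by ring
    rw [e1] at this
    linarith
  have h2 : θ ^ 2 < e * h := by
    have h3 : e * h = θ * (h / (2 * (1 + θ))) := by
      rw [he]
      field_simp
    rw [h3, sq]
    apply mul_lt_mul_of_pos_left _ hθ
    rw [lt_div_iff₀ (by positivity)]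
    nlinarith
  set q := (1 - e * h) / (1 - θ ^ 2) with hq
  have hq1 : q < 1 := by
    rw [hq, div_lt_one hθ2]
    linarith
  have heh : e * h ≤ 1 / 2 := by nlinarith
  have hq0 : 0 < q := by
    rw [hq]
    apply div_pos _ hθ2
    linarith
  set t := (1 - q) / 8 with ht
  have ht0 : 0 < t := by rw [ht]; linarith
  have ht1 : t < 1 / 8 := by rw [ht]; linarith
  set s := 1 - t with hs
  have hs0 : 0 < s := by linarith
  have hs1 : s < 1 := by linarith
  have hs6 : q < s ^ 6 := by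
    have := one_add_mul_le_pow (a := -t) (by linarith) 6
    have e1 : (1 : ℝ) + -t = s := by rw [hs]; ring
    rw [e1] at this
    have e2 : (1 : ℝ) + ((6 : ℕ) : ℝ) * -t = 1 - 6 * t := by push_cast; ring
    rw [e2] at this
    have : q < 1 - 6 * t := by rw [ht]; linarith
    linarith
  have hlogs : Real.log s < 0 := Real.log_neg hs0 hs1
  -- first family
  set x1 := t with hx1
  have hxc0 : 0 < x1 * c := by positivity
  have hxc1 : x1 * c < 1 := by nlinarith
  have hlogx : Real.log (x1 * c) < 0 := Real.log_neg hxc0 hxc1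
  set ρ := Real.log s / Real.log (x1 * c) with hρ
  have hρ0 : 0 < ρ := div_pos_of_neg_of_neg hlogs hlogx
  have hρs : (x1 * c) ^ ρ = s := by
    rw [Real.rpow_def_of_pos hxc0, hρ, mul_div_cancel₀ _ hlogx.ne, Real.exp_log hs0]
  -- second family
  set x2 := t / s with hx2
  have hx20 : 0 < x2 := by positivity
  have hx21 : x2 < 1 := by
    rw [hx2, div_lt_one hs0]
    linarith
  have hlogx2 : Real.log x2 < 0 := Real.log_neg hx20 hx21
  set ε := min (1 / 2) (Real.log s / Real.log x2) with hε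
  have hε0 : 0 < ε := lt_min (by norm_num) (div_pos_of_neg_of_neg hlogs hlogx2)
  have hεs : s ≤ x2 ^ ε := by
    rw [Real.rpow_def_of_pos hx20]
    have h3 : Real.log s ≤ Real.log x2 * ε := by
      have h4 : ε ≤ Real.log s / Real.log x2 := min_le_right _ _
      have h5 := mul_le_mul_of_nonpos_left h4 hlogx2.le
      rw [mul_div_cancel₀ _ hlogx2.ne] at h5
      exact h5
    calc s = Real.exp (Real.log s) := (Real.exp_log hs0).symm
      _ ≤ _ := Real.exp_le_exp.2 h3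
  refine ⟨s ^ 2, ρ, ε, by positivity, by nlinarith, hρ0, hε0, min_le_left _ _, ?_, ?_, ?_⟩
  · calc (1 - h) ^ e ≤ 1 - e * h := h1
      _ = (1 - θ ^ 2) * q := by
        rw [hq]
        field_simp
      _ < (1 - θ ^ 2) * (s ^ 2) ^ 3 := by
        rw [← pow_mul]
        exact mul_lt_mul_of_pos_left hs6 hθ2
  · refine ⟨x1, ht0.le, by linarith, fun n => ?_⟩
    have h3 := pow_floor_ge hxc0 hxc1.le hρ0.le n
    rw [hρs] at h3
    have h4 : 1 - x1 = s := by rw [hs]
    rw [h4]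
    calc (s ^ 2) ^ n = s ^ n * s ^ n := by rw [← pow_mul, ← pow_add]; ring_nf
      _ ≤ _ := mul_le_mul_of_nonneg_left h3 (by positivity)
  · refine ⟨x2, hx20, hx21.le, fun n => ?_⟩
    have h3 := pow_floor_ge hx20 hx21.le hε0.le n
    have h4 : 1 + x2 = 1 / s := by
      rw [hx2]
      field_simp
      rw [hs]
      ring
    rw [h4]
    have h5 : (1 / s) ^ n * (s ^ 2) ^ n = s ^ n := by
      rw [← mul_pow]
      congr 1
      field_simp
    rw [h5]
    refine le_trans ?_ h3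
    exact pow_le_pow_left₀ hs0.le hεs n

end Pool.Agent.TH285.Ff
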