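import Mathlib
import Pool.Agent.TH285.Ff.Laws
import Pool.Agent.TH285.Ff.Num

/-!
# No independent factor of large entropy at a given level
-/

namespace Pool.Agent.TH285.Ff

open MeasureTheory Finset Filter
open scoped ENNReal Topology

section markov

variable {Ω : Type} [MeasurableSpace Ω] (μ : Measure Ω) [IsProbabilityMeasure μ]

theorem markov_count {n : ℕ} (E : Fin n → Set Ω) [∀ ω, DecidablePred fun k => ω ∈ E k]
    (hE : ∀ k, MeasurableSet (E k)) {δ t : ℝ}
    (hδ : ∀ k, μ.real (E k) ≤ δ) (ht : 0 < t) :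
    μ.real {ω | t ≤ ((Finset.univ.filter fun k => ω ∈ E k).card : ℝ)} ≤ n * δ / t := by
  set f : Ω → ℝ≥0∞ := fun ω => ∑ k, (E k).indicator (fun _ => (1 : ℝ≥0∞)) ω with hf
  have hfm : Measurable f := by
    refine Finset.measurable_sum _ fun k _ => ?_
    exact measurable_const.indicator (hE k)
  have hfc : ∀ ω, f ω = ((Finset.univ.filter fun k => ω ∈ E k).card : ℝ≥0∞) := by
    intro ω
    simp only [hf]
    rw [Finset.card_filter]
    push_cast
    refine Finset.sum_congr rfl fun k _ => ?_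
    by_cases h : ω ∈ E k <;> simp [h]
  have hint : ∫⁻ ω, f ω ∂μ = ∑ k, μ (E k) := by
    simp only [hf]
    rw [lintegral_finsetSum _ (fun k _ => measurable_const.indicator (hE k))]
    refine Finset.sum_congr rfl fun k _ => ?_
    rw [lintegral_indicator (hE k)]
    simp
  have h1 := meas_ge_le_lintegral_div (μ := μ) hfm.aemeasurable (ε := ENNReal.ofReal t)
    (by simpa using ht) ENNReal.ofReal_ne_top
  rw [hint] at h1
  have hsub : {ω | t ≤ ((Finset.univ.filter fun k => ω ∈ E k).card : ℝ)} ⊆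
      {ω | ENNReal.ofReal t ≤ f ω} := by
    intro ω hω
    show ENNReal.ofReal t ≤ f ω
    rw [hfc]
    have h2 : t ≤ ((Finset.univ.filter fun k => ω ∈ E k).card : ℝ) := hω
    calc ENNReal.ofReal t ≤ ENNReal.ofReal ((Finset.univ.filter fun k => ω ∈ E k).card : ℝ) :=
          ENNReal.ofReal_le_ofReal h2
      _ = _ := ENNReal.ofReal_natCast _
  have hne : (∑ k, μ (E k)) / ENNReal.ofReal t ≠ ⊤ := by
    apply ENNReal.div_ne_top
    · exact (ENNReal.sum_lt_top.2 fun k _ => measure_lt_top _ _).ne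
    · simpa using ht
  calc μ.real {ω | t ≤ ((Finset.univ.filter fun k => ω ∈ E k).card : ℝ)}
      ≤ μ.real {ω | ENNReal.ofReal t ≤ f ω} := measureReal_mono hsub
    _ ≤ ((∑ k, μ (E k)) / ENNReal.ofReal t).toReal := ENNReal.toReal_mono hne h1
    _ = (∑ k, μ.real (E k)) / t := by
        rw [ENNReal.toReal_div, ENNReal.toReal_ofReal ht.le,
          ENNReal.toReal_sum (fun k _ => measure_ne_top _ _)]
        rfl
    _ ≤ n * δ / t := by
        apply div_le_div_of_nonneg_right _ ht.le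
        calc ∑ k, μ.real (E k) ≤ ∑ _k : Fin n, δ := Finset.sum_le_sum fun k _ => hδ k
          _ = n * δ := by
            rw [Finset.sum_const, Finset.card_univ, Fintype.card_fin, nsmul_eq_mul]

end markov

/-- window codes on the alphabet `Fin (2 ^ a)` -/
def Code (a : ℕ) : Type := Σ r : ℕ, ((Fin (2 * r + 1) → Fin (2 ^ a)) → Option Bool)

instance (a : ℕ) : Countable (Code a) := by
  unfold Code
  infer_instance

/-- sliding a window code along a word -/
def Kw {a ℓ : ℕ} (c : Code a) (u : Fin ℓ → Fin (2 ^ a)) : Fin ℓ → Option Bool := fun k =>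
  if h : c.1 ≤ (k : ℕ) ∧ (k : ℕ) + c.1 < ℓ then
    c.2 (fun j => u ⟨(k : ℕ) - c.1 + j, by have := j.2; omega⟩) else none

/-- a favourable target -/
def GoodT (a : ℕ) (lam ε : ℝ) (c : Code a) (q : ℚ) (ℓ : ℕ) (z : Fin ℓ → Option Bool) : Prop :=
  stars z ≤ ⌊ε * ℓ⌋₊ ∧ (∏ k, wp q (z k)) * lam ^ (2 * ℓ) / 4 ≤ wt (nu a) {u | Kw c u = z}

open Classical in
/-- the targets -/
noncomputable def tgt (a : ℕ) (lam ε : ℝ) (task : ℕ → Code a × ℚ) (ℓ : ℕ) :
    Set (Fin ℓ → Fin (2 ^ a)) :=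
  if h : ∃ z, GoodT a lam ε (task ℓ).1 (task ℓ).2 ℓ z then {u | Kw (task ℓ).1 u = h.choose} else ∅

theorem exists_task (a : ℕ) : ∃ task : ℕ → Code a × ℚ, ∀ t N, ∃ n, N ≤ n ∧ task n = t := by
  have : Nonempty (Code a × ℚ) := ⟨(⟨0, fun _ => none⟩, 0)⟩
  obtain ⟨e, he⟩ := exists_surjective_nat (Code a × ℚ)
  refine ⟨fun n => e (Nat.unpair n).1, fun t N => ?_⟩
  obtain ⟨k, hk⟩ := he t
  refine ⟨Nat.pair k N, Nat.right_le_pair k N, ?_⟩
  simp only [Nat.unpair_pair]
  exact hk

/-- the word of the truncated configuration of level `m` around `s` -/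
noncomputable def cw (P : Par) (m r : ℕ) (ω : ℤ → ℕ) (s : ℤ) : Fin (2 * r + 1) → Fin (2 ^ P.al m) :=
  fun j => (enc (P.al m) (U P m ω (s - r + (j : ℕ)))).2

theorem measurable_low (P : Par) (m : ℕ) (i : ℤ) :
    Measurable fun ω => (enc (P.al m) (U P m ω i)).2 :=
  (measurable_of_countable (fun n : ℕ => (enc (P.al m) n).2)).comp
    ((measurable_pi_apply i).comp (measurable_U P m))

theorem measurable_cw (P : Par) (m r : ℕ) (s : ℤ) : Measurable fun ω => cw P m r ω s :=
  measurable_pi_lambda _ fun _ => measurable_low P m _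

theorem cw_sh (P : Par) (m r : ℕ) (ω : ℤ → ℕ) (s k : ℤ) :
    cw P m r (sh k ω) s = cw P m r ω (s + k) := by
  funext j
  unfold cw
  rw [U_sh]
  unfold sh
  congr 3
  ring

theorem exists_code (P : Par) (m : ℕ) (Zb : (ℤ → ℕ) → ℤ → Bool) (hZm : Measurable Zb)
    (hZf : ∀ᵐ ω ∂mu, ∃ r : ℕ, ∀ᵐ ω' ∂mu,
      (∀ j : ℤ, -r ≤ j → j ≤ r → (enc (P.al m) (U P m ω' j)).2 = (enc (P.al m) (U P m ω j)).2) →
        Zb ω' 0 = Zb ω 0) {δ : ℝ} (hδ : 0 < δ) :
    ∃ c : Code (P.al m), (∀ᵐ ω ∂mu, ∀ b, c.2 (cw P m c.1 ω 0) = some b → Zb ω 0 = b) ∧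
      mu.real {ω | c.2 (cw P m c.1 ω 0) = none} ≤ δ := by
  classical
  set κ : ∀ r : ℕ, (Fin (2 * r + 1) → Fin (2 ^ P.al m)) → Option Bool := fun r w =>
    if mu {ω | cw P m r ω 0 = w ∧ Zb ω 0 = false} = 0 then some true
    else if mu {ω | cw P m r ω 0 = w ∧ Zb ω 0 = true} = 0 then some false else none with hκ
  have hZ0 : Measurable fun ω => Zb ω 0 := (measurable_pi_apply (0 : ℤ)).comp hZm
  -- correctness
  have hcorr : ∀ r, ∀ᵐ ω ∂mu, ∀ b, κ r (cw P m r ω 0) = some b → Zb ω 0 = b := by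
    intro r
    have h1 : ∀ᵐ ω ∂mu, ∀ w, mu {ω | cw P m r ω 0 = w ∧ Zb ω 0 = false} = 0 →
        ¬ (cw P m r ω 0 = w ∧ Zb ω 0 = false) := by
      rw [ae_all_iff]
      intro w
      by_cases hw : mu {ω | cw P m r ω 0 = w ∧ Zb ω 0 = false} = 0
      · have : ∀ᵐ ω ∂mu, ¬ (cw P m r ω 0 = w ∧ Zb ω 0 = false) := by
          rw [ae_iff]
          simpa using hw
        filter_upwards [this] with ω hω _ using hω
      · exact Eventually.of_forall fun ω h => absurd h hw
    have h2 : ∀ᵐ ω ∂mu, ∀ w, mu {ω | cw P m r ω 0 = w ∧ Zb ω 0 = true} = 0 →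
        ¬ (cw P m r ω 0 = w ∧ Zb ω 0 = true) := by
      rw [ae_all_iff]
      intro w
      by_cases hw : mu {ω | cw P m r ω 0 = w ∧ Zb ω 0 = true} = 0
      · have : ∀ᵐ ω ∂mu, ¬ (cw P m r ω 0 = w ∧ Zb ω 0 = true) := by
          rw [ae_iff]
          simpa using hw
        filter_upwards [this] with ω hω _ using hω
      · exact Eventually.of_forall fun ω h => absurd h hw
    filter_upwards [h1, h2] with ω hω1 hω2 b hb
    simp only [hκ] at hb
    split_ifs at hb with c1 c2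
    · have hbt : b = true := by simpa using hb.symm
      rw [hbt]
      have := hω1 _ c1
      rcases hz : Zb ω 0 with _ | _
      · exact absurd ⟨rfl, hz⟩ this
      · rfl
    · have hbt : b = false := by simpa using hb.symm
      rw [hbt]
      have := hω2 _ c2
      rcases hz : Zb ω 0 with _ | _
      · rfl
      · exact absurd ⟨rfl, hz⟩ this
  set N : ℕ → Set (ℤ → ℕ) := fun r => {ω | κ r (cw P m r ω 0) = none} with hN
  have hNm : ∀ r, MeasurableSet (N r) := by
    intro r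
    exact (measurable_cw P m r 0) (t := {w | κ r w = none}) (Set.to_countable _).measurableSet
  have hNanti : Antitone N := by
    refine antitone_nat_of_succ_le fun r => ?_
    intro ω hω
    show κ r (cw P m r ω 0) = none
    have hω' : κ (r + 1) (cw P m (r + 1) ω 0) = none := hω
    have hsub : ∀ ω', cw P m (r + 1) ω' 0 = cw P m (r + 1) ω 0 → cw P m r ω' 0 = cw P m r ω 0 := by
      intro ω' h
      funext j
      have := congrFun h ⟨(j : ℕ) + 1, by have := j.2; omega⟩
      unfold cw at this ⊢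
      have e : (0 : ℤ) - ((r + 1 : ℕ) : ℤ) + (((j : ℕ) + 1 : ℕ) : ℤ) = 0 - (r : ℤ) + ((j : ℕ) : ℤ) := by
        push_cast; ring
      simp only [e] at this
      exact this
    have hmono : ∀ b, {ω' | cw P m (r + 1) ω' 0 = cw P m (r + 1) ω 0 ∧ Zb ω' 0 = b} ⊆
        {ω' | cw P m r ω' 0 = cw P m r ω 0 ∧ Zb ω' 0 = b} := by
      rintro b ω' ⟨h1, h2⟩
      exact ⟨hsub ω' h1, h2⟩
    simp only [hκ] at hω' ⊢
    split_ifs at hω' with c1 c2
    have d1 : mu {ω' | cw P m r ω' 0 = cw P m r ω 0 ∧ Zb ω' 0 = false} ≠ 0 := by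
      intro h0
      exact c1 (measure_mono_null (hmono false) h0)
    have d2 : mu {ω' | cw P m r ω' 0 = cw P m r ω 0 ∧ Zb ω' 0 = true} ≠ 0 := by
      intro h0
      exact c2 (measure_mono_null (hmono true) h0)
    rw [if_neg d1, if_neg d2]
  have hNnull : mu (⋂ r, N r) = 0 := by
    have : ∀ᵐ ω ∂mu, ω ∉ ⋂ r, N r := by
      filter_upwards [hZf] with ω hω
      obtain ⟨r, hr⟩ := hω
      intro hmem
      have hmr : κ r (cw P m r ω 0) = none := Set.mem_iInter.1 hmem r
      have hagree : ∀ ω', cw P m r ω' 0 = cw P m r ω 0 → ∀ j : ℤ, -(r : ℤ) ≤ j → j ≤ r →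
          (enc (P.al m) (U P m ω' j)).2 = (enc (P.al m) (U P m ω j)).2 := by
        intro ω' h j hj1 hj2
        have := congrFun h ⟨(j + r).toNat, by omega⟩
        unfold cw at this
        have e : (0 : ℤ) - (r : ℤ) + (((j + r).toNat : ℕ) : ℤ) = j := by omega
        simp only [e] at this
        exact this
      have hnull : ∀ b, Zb ω 0 ≠ b → mu {ω' | cw P m r ω' 0 = cw P m r ω 0 ∧ Zb ω' 0 = b} = 0 := by
        intro b hb
        have h3 : ∀ᵐ ω' ∂mu, ¬ (cw P m r ω' 0 = cw P m r ω 0 ∧ Zb ω' 0 = b) := by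
          filter_upwards [hr] with ω' hω' hc
          have := hω' (hagree ω' hc.1)
          exact hb (this ▸ hc.2)
        rw [ae_iff] at h3
        simpa using h3
      simp only [hκ] at hmr
      split_ifs at hmr with c1 c2
      rcases hz : Zb ω 0 with _ | _
      · exact c2 (hnull true (by rw [hz]; simp))
      · exact c1 (hnull false (by rw [hz]; simp))
    rw [ae_iff] at this
    have e : {ω | ¬ ω ∉ ⋂ r, N r} = ⋂ r, N r := by
      ext ω
      simp only [Set.mem_ofPred_eq, not_not]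
    rwa [e] at this
  have htend : Tendsto (fun r => mu (N r)) atTop (𝓝 (mu (⋂ r, N r))) :=
    tendsto_measure_iInter_atTop (fun r => (hNm r).nullMeasurableSet) hNanti ⟨0, measure_ne_top _ _⟩
  rw [hNnull] at htend
  have hev := htend.eventually (gt_mem_nhds (show (0 : ℝ≥0∞) < ENNReal.ofReal δ by simpa using hδ))
  obtain ⟨r, hr⟩ := hev.exists
  refine ⟨⟨r, κ r⟩, hcorr r, ?_⟩
  show mu.real (N r) ≤ δ
  rw [measureReal_def]
  exact ENNReal.toReal_le_of_le_ofReal hδ.le hr.le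

end Pool.Agent.TH285.Ff
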