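import Mathlib
import Pool.Agent.TH285.Ff.Defeat

/-!
# The contradiction at a level
-/

namespace Pool.Agent.TH285.Ff

open MeasureTheory Finset Filter
open scoped ENNReal Topology

theorem stars_Kw_le {a n : ℕ} (c : Code a) (u : Fin n → Fin (2 ^ a)) (S : Fin n → Prop)
    [DecidablePred S] (hS : ∀ k : Fin n, c.1 ≤ (k : ℕ) → (k : ℕ) + c.1 < n → Kw c u k = none → S k) :
    stars (Kw c u) ≤ 2 * c.1 + (Finset.univ.filter fun k => S k).card := by
  classical
  unfold stars
  have h1 : (Finset.univ.filter fun k => Kw c u k = none) ⊆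
      ((Finset.univ.filter fun k : Fin n => (k : ℕ) < c.1) ∪
        (Finset.univ.filter fun k : Fin n => n ≤ (k : ℕ) + c.1)) ∪
        (Finset.univ.filter fun k => S k) := by
    intro k hk
    simp only [Finset.mem_filter, Finset.mem_univ, true_and, Finset.mem_union] at hk ⊢
    by_cases h2 : (k : ℕ) < c.1
    · left; left; exact h2
    · by_cases h3 : n ≤ (k : ℕ) + c.1
      · left; right; exact h3
      · right
        exact hS k (by omega) (by omega) hk
  have h2 : (Finset.univ.filter fun k : Fin n => (k : ℕ) < c.1).card ≤ c.1 := by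
    have : (Finset.univ.filter fun k : Fin n => (k : ℕ) < c.1).card ≤ (Finset.range c.1).card := by
      apply Finset.card_le_card_of_injOn (fun k : Fin n => (k : ℕ))
      · intro k hk
        simpa using hk
      · intro k _ k' _ h
        exact Fin.ext h
    simpa using this
  have h3 : (Finset.univ.filter fun k : Fin n => n ≤ (k : ℕ) + c.1).card ≤ c.1 := by
    have : (Finset.univ.filter fun k : Fin n => n ≤ (k : ℕ) + c.1).card ≤
        (Finset.range c.1).card := by
      apply Finset.card_le_card_of_injOn (fun k : Fin n => n - 1 - (k : ℕ))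
      · intro k hk
        have h4 : n ≤ (k : ℕ) + c.1 := by simpa using hk
        have := k.2
        simp only [Finset.coe_range, Set.mem_Iio]
        omega
      · intro k _ k' _ h
        have h4 : n - 1 - (k : ℕ) = n - 1 - (k' : ℕ) := h
        apply Fin.ext
        have := k.2
        have := k'.2
        omega
    simpa using this
  calc (Finset.univ.filter fun k => Kw c u k = none).card ≤ _ := Finset.card_le_card h1
    _ ≤ _ := Finset.card_union_le _ _
    _ ≤ _ := Nat.add_le_add_right (Finset.card_union_le _ _) _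
    _ ≤ 2 * c.1 + (Finset.univ.filter fun k => S k).card := by omega

/-- decomposition of the mass of good words according to the partial reading -/
theorem wt_partition {a n : ℕ} (c : Code a) (R : ℕ) :
    wt (nu a) {u : Fin n → Fin (2 ^ a) | stars (Kw c u) ≤ R} =
      ∑ z : Fin n → Option Bool, if stars z ≤ R then wt (nu a) {u | Kw c u = z} else 0 := by
  classical
  have h1 : ∀ z : Fin n → Option Bool, (if stars z ≤ R then
      wt (nu a) {u : Fin n → Fin (2 ^ a) | Kw c u = z} else 0)
      = ∑ u : Fin n → Fin (2 ^ a), (if Kw c u = z ∧ stars z ≤ R then ∏ k, nu a (u k) else 0) := by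
    intro z
    unfold wt
    by_cases hz : stars z ≤ R
    · rw [if_pos hz]
      refine Finset.sum_congr rfl fun u _ => ?_
      simp only [Set.mem_ofPred_eq, hz, and_true]
      split_ifs <;> rfl
    · rw [if_neg hz]
      symm
      apply Finset.sum_eq_zero
      intro u _
      rw [if_neg (fun h => hz h.2)]
  rw [Finset.sum_congr rfl fun z _ => h1 z, Finset.sum_comm]
  unfold wt
  refine Finset.sum_congr rfl fun u _ => ?_
  have h2 : ∀ z : Fin n → Option Bool, (if Kw c u = z ∧ stars z ≤ R then ∏ k, nu a (u k) else 0)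
      = if z = Kw c u then (if stars (Kw c u) ≤ R then ∏ k, nu a (u k) else 0) else 0 := by
    intro z
    by_cases hz : z = Kw c u
    · subst hz
      simp
    · rw [if_neg hz, if_neg]
      rintro ⟨h, -⟩
      exact hz h.symm
  rw [Finset.sum_congr rfl fun z _ => h2 z, Finset.sum_ite_eq' Finset.univ (Kw c u)]
  simp only [Finset.mem_univ, if_true, Set.mem_ofPred_eq]
  split_ifs <;> rfl

/-- existence of a favourable target -/
theorem exists_goodT {a n : ℕ} (c : Code a) {lam ε : ℝ} (hlam : 0 < lam) {q : ℚ}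
    (hq0 : (0 : ℝ) ≤ q) (hq1 : (q : ℝ) ≤ 1)
    (hx : ∃ x, 0 < x ∧ x ≤ 1 ∧ ∀ n : ℕ, (1 + x) ^ n * lam ^ n ≤ x ^ (⌊ε * n⌋₊))
    (hG : lam ^ n / 2 ≤ wt (nu a) {u : Fin n → Fin (2 ^ a) | stars (Kw c u) ≤ ⌊ε * n⌋₊}) :
    ∃ z, GoodT a lam ε c q n z := by
  classical
  by_contra hno
  push Not at hno
  obtain ⟨x, hx0, hx1, hx2⟩ := hx
  set R := ⌊ε * n⌋₊ with hR
  have hsc := star_count hq0 hq1 hx0 hx1 (n := n) R
  have h1 : wt (wp q) {z : Fin n → Option Bool | stars z ≤ R} * lam ^ n ≤ 1 := by
    have h2 := hx2 n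
    rw [← hR] at h2
    have h3 : 0 < x ^ R := by positivity
    have h4 : wt (wp q) {z : Fin n → Option Bool | stars z ≤ R} * x ^ R * lam ^ n
        ≤ (1 + x) ^ n * lam ^ n := mul_le_mul_of_nonneg_right hsc (by positivity)
    have h5 : (wt (wp q) {z : Fin n → Option Bool | stars z ≤ R} * lam ^ n) * x ^ R ≤ 1 * x ^ R := by
      calc (wt (wp q) {z : Fin n → Option Bool | stars z ≤ R} * lam ^ n) * x ^ R
          = wt (wp q) {z : Fin n → Option Bool | stars z ≤ R} * x ^ R * lam ^ n := by ring
        _ ≤ (1 + x) ^ n * lam ^ n := h4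
        _ ≤ x ^ R := h2
        _ = 1 * x ^ R := (one_mul _).symm
    exact le_of_mul_le_mul_right h5 h3
  have h2 : wt (nu a) {u : Fin n → Fin (2 ^ a) | stars (Kw c u) ≤ R} ≤
      wt (wp q) {z : Fin n → Option Bool | stars z ≤ R} * (lam ^ (2 * n) / 4) := by
    rw [wt_partition]
    unfold wt
    rw [Finset.sum_mul]
    refine Finset.sum_le_sum fun z _ => ?_
    by_cases hz : stars z ≤ R
    · rw [if_pos hz, if_pos (by exact hz)]
      have h3 : ¬ (∏ k, wp q (z k)) * lam ^ (2 * n) / 4 ≤ wt (nu a) {u | Kw c u = z} :=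
        fun h => hno z ⟨hz, h⟩
      have h4 := (not_le.1 h3).le
      unfold wt at h4
      linarith
    · rw [if_neg hz, if_neg (by exact hz), zero_mul]
  have h3 : wt (wp q) {z : Fin n → Option Bool | stars z ≤ R} * (lam ^ (2 * n) / 4) ≤ lam ^ n / 4 := by
    calc wt (wp q) {z : Fin n → Option Bool | stars z ≤ R} * (lam ^ (2 * n) / 4)
        = (wt (wp q) {z : Fin n → Option Bool | stars z ≤ R} * lam ^ n) * (lam ^ n / 4) := by
          rw [two_mul, pow_add]; ring
      _ ≤ 1 * (lam ^ n / 4) := mul_le_mul_of_nonneg_right h1 (by positivity)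
      _ = lam ^ n / 4 := one_mul _
  have h4 : 0 < lam ^ n := by positivity
  linarith

/-- comparison of two parameters -/
theorem wp_compare {p lam : ℝ} (hp0 : 0 < p) (hp1 : p < 1) (hlam0 : 0 < lam) (hlam1 : lam < 1) :
    ∃ q : ℚ, (0 : ℝ) ≤ q ∧ (q : ℝ) ≤ 1 ∧ ∀ {n : ℕ} (z : Fin n → Option Bool),
      (∏ k, wp p (z k)) * lam ^ n ≤ ∏ k, wp q (z k) := by
  have h1 : p * lam < 1 - (1 - p) * lam := by nlinarith
  obtain ⟨q, hq1, hq2⟩ := exists_rat_btwn h1
  have hq0 : (0 : ℝ) ≤ q := le_trans (by positivity) hq1.le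
  have hq3 : (q : ℝ) ≤ 1 := by
    have : 0 ≤ (1 - p) * lam := mul_nonneg (by linarith) hlam0.le
    linarith
  refine ⟨q, hq0, hq3, fun {n} z => ?_⟩
  have h2 : (∏ k, wp p (z k)) * lam ^ n = ∏ k, (wp p (z k) * lam) := by
    rw [Finset.prod_mul_distrib, Finset.prod_const, Finset.card_univ, Fintype.card_fin]
  rw [h2]
  refine Finset.prod_le_prod (fun k _ => ?_) (fun k _ => ?_)
  · rcases z k with _ | b
    · simp [wp, hlam0.le]
    · cases b <;> simp only [wp]
      · exact mul_nonneg (by linarith) hlam0.le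
      · positivity
  · rcases z k with _ | b
    · simp only [wp]; linarith
    · cases b <;> simp only [wp] <;> linarith

theorem wp_le {h p : ℝ} (hh : 0 < h) (hp : h ≤ p) (hp1 : p ≤ 1 - h) {n : ℕ}
    (z : Fin n → Option Bool) : ∏ k, wp p (z k) ≤ (1 - h) ^ (n - stars z) := by
  classical
  have h1 : ∏ k, wp p (z k) ≤ ∏ k, (if z k = none then 1 else (1 - h)) := by
    refine Finset.prod_le_prod (fun k _ => ?_) (fun k _ => ?_)
    · rcases z k with _ | b
      · simp [wp]
      · cases b <;> simp only [wp] <;> linarith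
    · rcases z k with _ | b
      · simp [wp]
      · cases b
        · simp only [wp, reduceCtorEq, if_false]; linarith
        · simp only [wp, reduceCtorEq, if_false]; linarith
  refine le_trans h1 (le_of_eq ?_)
  rw [Finset.prod_ite, Finset.prod_const_one, one_mul, Finset.prod_const]
  congr 1
  have h2 := Finset.card_filter_add_card_filter_not (s := (Finset.univ : Finset (Fin n)))
    (fun k => z k = none)
  rw [Finset.card_univ, Fintype.card_fin] at h2
  have h3 : stars z = (Finset.univ.filter fun k => z k = none).card := by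
    unfold stars
    refine congrArg Finset.card ?_
    ext k
    simp only [Finset.mem_filter]
  omega

theorem wp_pos {p : ℝ} (hp0 : 0 < p) (hp1 : p < 1) {n : ℕ} (z : Fin n → Option Bool) :
    0 < ∏ k, wp p (z k) := by
  refine Finset.prod_pos fun k _ => ?_
  rcases z k with _ | b
  · simp [wp]
  · cases b <;> simp only [wp] <;> linarith

/-- the word of length `n` of the truncated configuration of level `m` -/
noncomputable def word (P : Par) (m n : ℕ) (ω : ℤ → ℕ) : Fin n → Fin (2 ^ P.al m) :=
  fun k => (enc (P.al m) (U P m ω (-1 + 1 + (k : ℕ)))).2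

theorem measurable_word (P : Par) (m n : ℕ) : Measurable (word P m n) :=
  measurable_pi_lambda _ fun _ => measurable_low P m _

/-- the lower bound for the target event -/
theorem lower_target (P : Par) {m n : ℕ} (hG : ∀ᵐ ω ∂mu, Good P ω) (hn : P.nn m ≤ n) :
    ((1 / 2 : ℝ) ^ (2 ^ (P.al m + 1) + 1)) ^ 2 *
      ((1 - th (P.al m) ^ 2) ^ n * wt (nu (P.al m)) (P.D m n) ^ (1 / (1 + th (P.al m))))
      ≤ mu.real {ω | word P m n ω ∈ P.D m n} := by
  refine le_trans (law_Ev (P.al m) n (-1) (P.D m n)) ?_
  have hae : ∀ᵐ ω ∂mu, ω ∈ Ev (P.al m) n (-1) (P.D m n) → ω ∈ {ω | word P m n ω ∈ P.D m n} := by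
    filter_upwards [hG] with ω hg hω
    obtain ⟨⟨hl, hr⟩, hlt, hre⟩ := hω
    have hlt' : 2 ^ (P.al m + 1) < 2 ^ P.al (m + 1) :=
      Nat.pow_lt_pow_right (by norm_num) (by have := P.hal m; omega)
    have hU : ∀ j : ℤ, -1 ≤ j → j ≤ -1 + 1 + n → U P (m + 1) ω j = ω j := by
      intro j h1 h2
      apply U_small
      rcases eq_or_lt_of_le h1 with h3 | h3
      · rw [← h3, hl]
        exact hlt'
      · rcases eq_or_lt_of_le h2 with h4 | h4
        · rw [h4, hr]
          exact hlt'
        · have h5 := hlt ⟨(j - (-1 + 1)).toNat, by omega⟩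
          have e : (-1 : ℤ) + 1 + (((j - (-1 + 1)).toNat : ℕ) : ℤ) = j := by omega
          simp only [e] at h5
          exact lt_trans h5 hlt'
    show word P m n ω ∈ P.D m n
    unfold word
    rw [U_step P hg m]
    unfold Fm
    apply F_target
    · refine ⟨by omega, ?_, ?_, ?_⟩
      · rw [hU (-1) le_rfl (by omega), hl]
        exact Nat.testBit_two_pow_self
      · rw [hU _ (by omega) le_rfl, hr]
        exact Nat.testBit_two_pow_self
      · intro j h1 h2
        rw [hU j (by omega) (by omega)]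
        have h5 := hlt ⟨(j - (-1 + 1)).toNat, by omega⟩
        have e : (-1 : ℤ) + 1 + (((j - (-1 + 1)).toNat : ℕ) : ℤ) = j := by omega
        simp only [e] at h5
        unfold mkr
        rw [Nat.testBit_lt_two_pow h5]
        exact Bool.false_ne_true
    · exact hn
    · have : wd (P.al m) (U P (m + 1) ω) (-1) n = wd (P.al m) ω (-1) n := by
        apply wd_congr
        intro j h1 h2
        rw [hU j h1.le h2.le]
      rw [this]
      exact hre
  exact ENNReal.toReal_mono (measure_ne_top _ _) (measure_mono_ae hae)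

end Pool.Agent.TH285.Ff
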