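import Mathlib
import Pool.Agent.TH285.Ff.Main

/-!
# The contradiction at a level, assembled
-/

namespace Pool.Agent.TH285.Ff

open MeasureTheory Finset Filter
open scoped ENNReal Topology

theorem mu_sh (k : ℤ) : MeasurePreserving (sh k) mu mu := zp_sh gm k

theorem mu_ae_sh {p : (ℤ → ℕ) → Prop} (h : ∀ᵐ ω ∂mu, p ω) : ∀ᵐ ω ∂mu, ∀ k : ℤ, p (sh k ω) :=
  zp_ae_sh gm h

theorem mu_real_sh (k : ℤ) {s : Set (ℤ → ℕ)} (hs : MeasurableSet s) :
    mu.real (sh k ⁻¹' s) = mu.real s := by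
  rw [measureReal_def, measureReal_def, (mu_sh k).measure_preimage hs.nullMeasurableSet]

/-- mass of the set of words admitting few undetermined places -/
theorem wt_good_lower (P : Par) (m n : ℕ) (hn : 0 < n) {lam ρ ε : ℝ} (hρ : 0 < ρ)
    (hε : 0 < ε) (c : Code (P.al m)) (hn2 : 2 * (c.1 : ℝ) ≤ ε * n / 2)
    (hx1 : ∃ x, 0 ≤ x ∧ x ≤ 1 ∧ ∀ n : ℕ,
      lam ^ n ≤ (1 - x) ^ n * (x * (1 / 2 : ℝ) ^ (2 ^ P.al m)) ^ (⌊ρ * n⌋₊))
    (hclose : mu.real {ω | (enc (P.al m) (U P m ω 0)).2 ≠ (enc (P.al m) (ω 0)).2} ≤ ρ / 4)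
    (hc : mu.real {ω | c.2 (cw P m c.1 ω 0) = none} ≤ ε / 8) :
    lam ^ n / 2 ≤ wt (nu (P.al m))
      {u : Fin n → Fin (2 ^ P.al m) | stars (Kw c u) ≤ ⌊ε * n⌋₊} := by
  classical
  have hn0 : (0 : ℝ) < n := by exact_mod_cast hn
  -- first family of events
  set E1 : Fin n → Set (ℤ → ℕ) := fun k => {ω | c.2 (cw P m c.1 ω ((k : ℕ) : ℤ)) = none} with hE1
  have hE1m : ∀ s : ℤ, MeasurableSet {ω | c.2 (cw P m c.1 ω s) = none} := fun s =>
    (measurable_cw P m c.1 s) (t := {w | c.2 w = none}) (Set.to_countable _).measurableSet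
  have hE1b : ∀ k, mu.real (E1 k) ≤ ε / 8 := by
    intro k
    have : E1 k = sh ((k : ℕ) : ℤ) ⁻¹' {ω | c.2 (cw P m c.1 ω 0) = none} := by
      ext ω
      simp only [hE1, Set.mem_ofPred_eq, Set.mem_preimage]
      rw [cw_sh, zero_add]
    rw [this, mu_real_sh _ (hE1m 0)]
    exact hc
  set S1 := {ω | ε * n / 2 ≤ ((Finset.univ.filter fun k => ω ∈ E1 k).card : ℝ)} with hS1
  have hM1 : mu.real S1 ≤ _ :=
    markov_count mu E1 (fun k => hE1m _) hE1b (t := ε * n / 2) (by positivity)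
  have hM1' : (n : ℝ) * (ε / 8) / (ε * n / 2) = 1 / 4 := by
    field_simp
    norm_num
  rw [hM1'] at hM1
  -- second family
  set E2 : Fin n → Set (ℤ → ℕ) := fun k =>
    {ω | (enc (P.al m) (U P m ω ((k : ℕ) : ℤ))).2 ≠ (enc (P.al m) (ω ((k : ℕ) : ℤ))).2} with hE2
  have hE2m : ∀ s : ℤ, MeasurableSet {ω : ℤ → ℕ | (enc (P.al m) (U P m ω s)).2 ≠ (enc (P.al m) (ω s)).2} := by
    intro s
    have h1 : Measurable fun ω : ℤ → ℕ => (enc (P.al m) (ω s)).2 :=
      (measurable_of_countable (fun n : ℕ => (enc (P.al m) n).2)).comp (measurable_pi_apply s)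
    exact (measurableSet_eq_fun (measurable_low P m s) h1).compl
  have hE2b : ∀ k, mu.real (E2 k) ≤ ρ / 4 := by
    intro k
    have : E2 k = sh ((k : ℕ) : ℤ) ⁻¹' {ω | (enc (P.al m) (U P m ω 0)).2 ≠ (enc (P.al m) (ω 0)).2} := by
      ext ω
      simp only [hE2, Set.mem_ofPred_eq, Set.mem_preimage]
      rw [U_sh]
      unfold sh
      rw [zero_add]
    rw [this, mu_real_sh _ (hE2m 0)]
    exact hclose
  set S2 := {ω | ρ * n ≤ ((Finset.univ.filter fun k => ω ∈ E2 k).card : ℝ)} with hS2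
  have hM2 : mu.real S2 ≤ _ :=
    markov_count mu E2 (fun k => hE2m _) hE2b (t := ρ * n) (by positivity)
  have hM2' : (n : ℝ) * (ρ / 4) / (ρ * n) = 1 / 4 := by
    field_simp
  rw [hM2'] at hM2
  set G : Set (Fin n → Fin (2 ^ P.al m)) := {u | stars (Kw c u) ≤ ⌊ε * n⌋₊} with hG
  set B : Set (Fin n → Fin (2 ^ P.al m)) := {v | ∃ w ∈ G, hd w v ≤ ⌊ρ * n⌋₊} with hB
  set V := {ω : ℤ → ℕ | (fun k : Fin n => (enc (P.al m) (ω (-1 + 1 + (k : ℕ)))).2) ∈ B} with hV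
  have hcover : Set.univ ⊆ V ∪ (S1 ∪ S2) := by
    intro ω _
    by_cases h1 : ω ∈ S1
    · right; left; exact h1
    by_cases h2 : ω ∈ S2
    · right; right; exact h2
    left
    have h1' : ((Finset.univ.filter fun k => ω ∈ E1 k).card : ℝ) < ε * n / 2 := not_le.1 h1
    have h2' : ((Finset.univ.filter fun k => ω ∈ E2 k).card : ℝ) < ρ * n := not_le.1 h2
    refine ⟨word P m n ω, ?_, ?_⟩
    · show stars (Kw c (word P m n ω)) ≤ ⌊ε * n⌋₊
      have h3 := stars_Kw_le c (word P m n ω) (fun k => ω ∈ E1 k) (by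
        intro k hk1 hk2 hk3
        unfold Kw at hk3
        rw [dif_pos ⟨hk1, hk2⟩] at hk3
        show c.2 (cw P m c.1 ω ((k : ℕ) : ℤ)) = none
        rw [← hk3]
        refine congrArg c.2 (funext fun j => ?_)
        unfold cw word
        congr 3
        have : (((k : ℕ) - c.1 + (j : ℕ) : ℕ) : ℤ) = (k : ℕ) - c.1 + (j : ℕ) := by
          push_cast [Nat.cast_sub hk1]; ring
        simp only [this]
        ring)
      apply Nat.le_floor
      have h4 : ((stars (Kw c (word P m n ω)) : ℕ) : ℝ) ≤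
          ((2 * c.1 + (Finset.univ.filter fun k => ω ∈ E1 k).card : ℕ) : ℝ) := by
        exact_mod_cast h3
      push_cast at h4
      linarith
    · have h3 : hd (word P m n ω) (fun k : Fin n => (enc (P.al m) (ω (-1 + 1 + (k : ℕ)))).2)
          = (Finset.univ.filter fun k => ω ∈ E2 k).card := by
        unfold hd
        refine congrArg Finset.card ?_
        ext k
        simp only [Finset.mem_filter, Finset.mem_univ, true_and, hE2, Set.mem_ofPred_eq]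
        unfold word
        have e : (-1 : ℤ) + 1 + ((k : ℕ) : ℤ) = ((k : ℕ) : ℤ) := by ring
        rw [e]
      rw [h3]
      apply Nat.le_floor
      exact h2'.le
  have hVp : 1 / 2 ≤ mu.real V := by
    have h1 : (1 : ℝ) ≤ mu.real (V ∪ (S1 ∪ S2)) := by
      calc (1 : ℝ) = mu.real Set.univ := probReal_univ.symm
        _ ≤ _ := measureReal_mono hcover
    have h2 := measureReal_union_le (μ := mu) V (S1 ∪ S2)
    have h3 := measureReal_union_le (μ := mu) S1 S2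
    linarith
  rw [hV, law_low (P.al m) n (-1) B] at hVp
  obtain ⟨x, hx0, hx11, hx⟩ := hx1
  have hno := noise_ineq (nu_nonneg (P.al m)) (nu_sum (P.al m)) (c := (1 / 2 : ℝ) ^ (2 ^ P.al m)) (by positivity)
    (pow_le_one₀ (by norm_num) (by norm_num)) (nu_lower (P.al m)) hx0 hx11 (⌊ρ * n⌋₊) G
  have hx' := hx n
  have h5 : lam ^ n / 2 ≤ wt (nu (P.al m)) B * ((1 - x) ^ n * (x * (1 / 2 : ℝ) ^ (2 ^ P.al m)) ^ (⌊ρ * n⌋₊)) := by
    have h6 : 0 ≤ (1 - x) ^ n * (x * (1 / 2 : ℝ) ^ (2 ^ P.al m)) ^ (⌊ρ * n⌋₊) := by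
      have : 0 ≤ 1 - x := by linarith
      positivity
    nlinarith
  exact le_trans h5 hno

theorem defeat (P : Par) (m : ℕ) (hG : ∀ᵐ ω ∂mu, Good P ω)
    {h p lam ρ ε : ℝ} (hh : 0 < h) (hp : h ≤ p) (hp1 : p ≤ 1 - h) (hlam0 : 0 < lam)
    (hlam1 : lam < 1) (hρ : 0 < ρ) (hε : 0 < ε) (hε1 : ε ≤ 1 / 2)
    (hnum : (1 - h) ^ (th (P.al m) / (1 + th (P.al m)) / 2) < (1 - th (P.al m) ^ 2) * lam ^ 3)
    (hx1 : ∃ x, 0 ≤ x ∧ x ≤ 1 ∧ ∀ n : ℕ,
      lam ^ n ≤ (1 - x) ^ n * (x * (1 / 2 : ℝ) ^ (2 ^ P.al m)) ^ (⌊ρ * n⌋₊))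
    (hx2 : ∃ x, 0 < x ∧ x ≤ 1 ∧ ∀ n : ℕ, (1 + x) ^ n * lam ^ n ≤ x ^ (⌊ε * n⌋₊))
    (task : ℕ → Code (P.al m) × ℚ) (htask : ∀ t N, ∃ n, N ≤ n ∧ task n = t)
    (hD : P.D m = tgt (P.al m) lam ε task)
    (hclose : mu.real {ω | (enc (P.al m) (U P m ω 0)).2 ≠ (enc (P.al m) (ω 0)).2} ≤ ρ / 4)
    (Zb : (ℤ → ℕ) → ℤ → Bool) (hZm : Measurable Zb)
    (hZs : ∀ᵐ ω ∂mu, ∀ k, Zb (sh k ω) 0 = Zb ω k)
    (hZl : ∀ n (z : Fin n → Option Bool),
      mu.real {ω | ∀ k : Fin n, ∀ b, z k = some b → Zb ω ((k : ℕ) : ℤ) = b} ≤ ∏ k, wp p (z k))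
    (hZf : ∀ᵐ ω ∂mu, ∃ r : ℕ, ∀ᵐ ω' ∂mu,
      (∀ j : ℤ, -r ≤ j → j ≤ r → (enc (P.al m) (U P m ω' j)).2 = (enc (P.al m) (U P m ω j)).2) →
        Zb ω' 0 = Zb ω 0) : False := by
  set θ := th (P.al m) with hθ
  have hθ0 : 0 < θ := th_pos (P.al m)
  have hθ1 : θ < 1 := th_lt_one (P.al m)
  have hp0 : 0 < p := by linarith
  have hp1' : p < 1 := by linarith
  obtain ⟨c, hc1, hc2⟩ := exists_code P m Zb hZm hZf (δ := ε / 8) (by positivity)
  obtain ⟨q, hq0, hq1, hq⟩ := wp_compare hp0 hp1' hlam0 hlam1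
  have hcode : ∀ᵐ ω ∂mu, ∀ k : ℤ, ∀ b, c.2 (cw P m c.1 ω k) = some b → Zb ω k = b := by
    filter_upwards [mu_ae_sh hc1, hZs] with ω h1 h2 k b hb
    have h3 := h1 k b
    rw [cw_sh, zero_add] at h3
    rw [← h2 k]
    exact h3 hb
  -- numeric data
  set g0 := (1 / 2 : ℝ) ^ (2 ^ (P.al m + 1) + 1) with hg0
  have hg0p : 0 < g0 := by positivity
  set s := θ / (1 + θ) / 2 with hs
  have hs0 : 0 < s := by positivity
  set A := (1 - θ ^ 2) * lam ^ 3 with hA
  have hA0 : 0 < A := by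
    have : 0 < 1 - θ ^ 2 := by nlinarith
    positivity
  have h1h : 0 ≤ 1 - h := by linarith
  have hr0 : 0 ≤ (1 - h) ^ s / A := div_nonneg (Real.rpow_nonneg h1h _) hA0.le
  have hr1 : (1 - h) ^ s / A < 1 := (div_lt_one hA0).2 hnum
  have htend := tendsto_pow_atTop_nhds_zero_of_lt_one hr0 hr1
  have hev := htend.eventually (gt_mem_nhds (show (0 : ℝ) < g0 ^ 2 / 4 by positivity))
  obtain ⟨N1, hN1⟩ := eventually_atTop.1 hev
  obtain ⟨N2, hN2⟩ := exists_nat_ge ((4 * (c.1 : ℝ)) / ε)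
  obtain ⟨n, hn, htn⟩ := htask (c, q) (max (max N1 N2) (max (P.nn m) 1))
  have hnN1 : N1 ≤ n := le_trans (le_trans (le_max_left _ _) (le_max_left _ _)) hn
  have hnN2 : N2 ≤ n := le_trans (le_trans (le_max_right _ _) (le_max_left _ _)) hn
  have hnnn : P.nn m ≤ n := le_trans (le_trans (le_max_left _ _) (le_max_right _ _)) hn
  have hn1 : 1 ≤ n := le_trans (le_trans (le_max_right _ _) (le_max_right _ _)) hn
  have hn2 : 2 * (c.1 : ℝ) ≤ ε * n / 2 := by
    have h1 : (4 * (c.1 : ℝ)) / ε ≤ n := le_trans hN2 (by exact_mod_cast hnN2)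
    rw [div_le_iff₀ hε] at h1
    linarith
  have hwg := wt_good_lower P m n hn1 hρ hε c hn2 hx1 hclose hc2
  have hex := exists_goodT (n := n) c hlam0 hq0 hq1 hx2 hwg
  -- the target
  have hDn : ∃ z, GoodT (P.al m) lam ε c q n z ∧ P.D m n = {u | Kw c u = z} := by
    have h1 : P.D m n = tgt (P.al m) lam ε task n := by rw [hD]
    have h2 : ∃ z, GoodT (P.al m) lam ε (task n).1 (task n).2 n z := by
      rw [htn]
      exact hex
    refine ⟨h2.choose, ?_, ?_⟩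
    · have h3 := h2.choose_spec
      have e1 : (task n).1 = c := by rw [htn]
      have e2 : (task n).2 = q := by rw [htn]
      rw [← e1, ← e2]
      exact h3
    · rw [h1]
      unfold tgt
      rw [dif_pos h2]
      have e1 : (task n).1 = c := by rw [htn]
      conv_rhs => rw [← e1]
  obtain ⟨z, ⟨hz1, hz2⟩, hDz⟩ := hDn
  set Q := ∏ k, wp p (z k) with hQ
  have hQ0 : 0 < Q := wp_pos hp0 hp1' z
  -- upper bound for the probability of the target
  have hup : mu.real {ω | word P m n ω ∈ P.D m n} ≤ Q := by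
    refine le_trans ?_ (hZl n z)
    have hae : ∀ᵐ ω ∂mu, ω ∈ {ω | word P m n ω ∈ P.D m n} →
        ω ∈ {ω | ∀ k : Fin n, ∀ b, z k = some b → Zb ω ((k : ℕ) : ℤ) = b} := by
      filter_upwards [hcode] with ω hω hmem k b hb
      have h1 : word P m n ω ∈ P.D m n := hmem
      rw [hDz] at h1
      have h2 : Kw c (word P m n ω) = z := h1
      rw [← h2] at hb
      unfold Kw at hb
      split_ifs at hb with h3
      apply hω ((k : ℕ) : ℤ) b
      rw [← hb]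
      refine congrArg c.2 (funext fun j => ?_)
      unfold cw word
      congr 3
      have : (((k : ℕ) - c.1 + (j : ℕ) : ℕ) : ℤ) = (k : ℕ) - c.1 + (j : ℕ) := by
        push_cast [Nat.cast_sub h3.1]; ring
      simp only [this]
      ring
    exact ENNReal.toReal_mono (measure_ne_top _ _) (measure_mono_ae hae)
  have hlow := lower_target P (m := m) (n := n) hG hnnn
  rw [← hθ] at hlow
  have hall := le_trans hlow hup
  -- comparison of the masses
  have hwtD : Q * lam ^ (3 * n) / 4 ≤ wt (nu (P.al m)) (P.D m n) := by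
    rw [hDz]
    refine le_trans ?_ hz2
    have h1 := hq z
    rw [← hQ] at h1
    have h2 : Q * lam ^ (3 * n) / 4 = (Q * lam ^ n) * (lam ^ (2 * n) / 4) := by
      rw [show 3 * n = n + 2 * n by ring, pow_add]; ring
    have h3 : (∏ k, wp (q : ℝ) (z k)) * lam ^ (2 * n) / 4
        = (∏ k, wp (q : ℝ) (z k)) * (lam ^ (2 * n) / 4) := by ring
    rw [h2, h3]
    exact mul_le_mul_of_nonneg_right h1 (by positivity)
  set t := 1 / (1 + θ) with ht
  have ht0 : 0 < t := by positivity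
  have ht1 : t ≤ 1 := by
    rw [ht, div_le_one (by positivity)]
    linarith
  have hl1 : 0 < lam ^ (3 * n) / 4 := by positivity
  have hl2 : lam ^ (3 * n) / 4 ≤ 1 := by
    have : lam ^ (3 * n) ≤ 1 := pow_le_one₀ hlam0.le hlam1.le
    linarith
  have h6 : Q ^ t * (lam ^ (3 * n) / 4) ≤ wt (nu (P.al m)) (P.D m n) ^ t := by
    calc Q ^ t * (lam ^ (3 * n) / 4) ≤ Q ^ t * (lam ^ (3 * n) / 4) ^ t := by
          apply mul_le_mul_of_nonneg_left _ (Real.rpow_nonneg hQ0.le _)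
          calc lam ^ (3 * n) / 4 = (lam ^ (3 * n) / 4) ^ (1 : ℝ) := (Real.rpow_one _).symm
            _ ≤ _ := Real.rpow_le_rpow_of_exponent_ge hl1 hl2 ht1
      _ = (Q * lam ^ (3 * n) / 4) ^ t := by
          rw [← Real.mul_rpow hQ0.le hl1.le]
          congr 1
          ring
      _ ≤ _ := Real.rpow_le_rpow (by positivity) hwtD ht0.le
  have h7 : g0 ^ 2 * ((1 - θ ^ 2) ^ n * (Q ^ t * (lam ^ (3 * n) / 4))) ≤ Q := by
    refine le_trans ?_ hall
    have h8 : 0 < 1 - θ ^ 2 := by nlinarith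
    apply mul_le_mul_of_nonneg_left _ (by positivity)
    exact mul_le_mul_of_nonneg_left h6 (by positivity)
  have h8 : g0 ^ 2 / 4 * A ^ n * Q ^ t ≤ Q := by
    calc g0 ^ 2 / 4 * A ^ n * Q ^ t = g0 ^ 2 * ((1 - θ ^ 2) ^ n * (Q ^ t * (lam ^ (3 * n) / 4))) := by
          rw [hA, mul_pow, ← pow_mul]; ring
      _ ≤ Q := h7
  have h9 : Q = Q ^ (1 - t) * Q ^ t := by
    rw [← Real.rpow_add hQ0]
    simp
  have h10 : g0 ^ 2 / 4 * A ^ n ≤ Q ^ (1 - t) := by
    have h11 : 0 < Q ^ t := Real.rpow_pos_of_pos hQ0 _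
    have h12 : g0 ^ 2 / 4 * A ^ n * Q ^ t ≤ Q ^ (1 - t) * Q ^ t := by
      rw [← h9]; exact h8
    exact le_of_mul_le_mul_right h12 h11
  -- upper bound for Q
  have h11 : Q ≤ (1 - h) ^ ((n : ℝ) / 2) := by
    have h12 := wp_le hh hp hp1 z
    refine le_trans h12 ?_
    rw [← Real.rpow_natCast (1 - h)]
    have h13 : (n : ℝ) / 2 ≤ ((n - stars z : ℕ) : ℝ) := by
      have h14 : (stars z : ℝ) ≤ ε * n := by
        calc (stars z : ℝ) ≤ (⌊ε * n⌋₊ : ℝ) := by exact_mod_cast hz1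
          _ ≤ ε * n := Nat.floor_le (by positivity)
      have h15 : (n : ℝ) - stars z ≤ ((n - stars z : ℕ) : ℝ) := by
        rw [sub_le_iff_le_add]
        have : n ≤ n - stars z + stars z := by omega
        exact_mod_cast this
      have h16 : ε * n ≤ 1 / 2 * n := mul_le_mul_of_nonneg_right hε1 (Nat.cast_nonneg n)
      linarith
    have h1h' : 0 < 1 - h := by linarith
    exact Real.rpow_le_rpow_of_exponent_ge h1h' (by linarith) h13
  have h12 : Q ^ (1 - t) ≤ ((1 - h) ^ s) ^ n := by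
    have e1 : 1 - t = θ / (1 + θ) := by
      rw [ht]
      field_simp
      ring
    have h13 : 0 ≤ 1 - t := by linarith
    calc Q ^ (1 - t) ≤ ((1 - h) ^ ((n : ℝ) / 2)) ^ (1 - t) := Real.rpow_le_rpow hQ0.le h11 h13
      _ = ((1 - h) ^ s) ^ n := by
        rw [← Real.rpow_mul h1h, ← Real.rpow_natCast ((1 - h) ^ s), ← Real.rpow_mul h1h, e1, hs]
        congr 1
        ring
  have h13 := hN1 n hnN1
  rw [div_pow, div_lt_iff₀ (by positivity)] at h13
  linarith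

end Pool.Agent.TH285.Ff
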