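import Mathlib
import Pool.Agent.TH285.Ff.Comb
import Pool.Agent.TH285.Ff.Geo
import Pool.Agent.TH285.Ff.Levels

/-!
# Geometric labels from finite-alphabet independent symbols

Every site carries three fair bits.  The sites form a stack (last in, first out): a site reads
bits until it sees a zero, and its label is the number of ones read.
-/

namespace Pool.Agent.TH285.Ff

open MeasureTheory Finset Filter
open scoped ENNReal Topology

/-- the alphabet of the source -/
abbrev Sy : Type := Bool × Bool × Bool

/-- state of a site: finished with a value, or active with `(height above it, count)` -/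
abbrev St : Type := ℕ ⊕ (ℕ × ℕ)

/-- reading one bit -/
def bstep : St → Bool → St
  | Sum.inl v, _ => Sum.inl v
  | Sum.inr (0, c), true => Sum.inr (0, c + 1)
  | Sum.inr (0, c), false => Sum.inl c
  | Sum.inr (h + 1, c), true => Sum.inr (h + 1, c)
  | Sum.inr (h + 1, c), false => Sum.inr (h, c)

/-- a new site is put on top -/
def push : St → St
  | Sum.inl v => Sum.inl v
  | Sum.inr (h, c) => Sum.inr (h + 1, c)

/-- the bits of a symbol -/
def bits (s : Sy) : List Bool := [s.1, s.2.1, s.2.2]

/-- reading several bits -/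
def rd (st : St) (l : List Bool) : St := l.foldl bstep st

/-- processing the symbol of a later site -/
def proc (st : St) (s : Sy) : St := rd (push st) (bits s)

/-- processing several later sites -/
def runl (st : St) (w : List Sy) : St := w.foldl proc st

/-- own symbol -/
def own (s : Sy) : St := rd (Sum.inr (0, 0)) (bits s)

theorem rd_inl (v : ℕ) (l : List Bool) : rd (Sum.inl v) l = Sum.inl v := by
  unfold rd
  induction l with
  | nil => rfl
  | cons b l ih => exact ih

theorem runl_inl (v : ℕ) (w : List Sy) : runl (Sum.inl v) w = Sum.inl v := by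
  unfold runl
  induction w with
  | nil => rfl
  | cons s w ih =>
    have : proc (Sum.inl v) s = Sum.inl v := rd_inl v _
    rw [List.foldl_cons, this]
    exact ih

/-- conditional probability that the final label is the prescribed one -/
noncomputable def phi : Option ℕ → St → ℝ
  | none, _ => 1
  | some a, Sum.inl v => if v = a then 1 else 0
  | some a, Sum.inr (_, c) => if c ≤ a then (1 / 2 : ℝ) ^ (a - c + 1) else 0

theorem phi_height (o : Option ℕ) (h h' c : ℕ) : phi o (Sum.inr (h, c)) = phi o (Sum.inr (h', c)) := by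
  cases o <;> rfl

theorem phi_nonneg (o : Option ℕ) (st : St) : 0 ≤ phi o st := by
  rcases o with _ | a
  · simp [phi]
  · rcases st with v | ⟨h, c⟩
    · simp only [phi]; split_ifs <;> norm_num
    · simp only [phi]; split_ifs <;> positivity

theorem phi_le_one (o : Option ℕ) (st : St) : phi o st ≤ 1 := by
  rcases o with _ | a
  · simp [phi]
  · rcases st with v | ⟨h, c⟩
    · simp only [phi]; split_ifs <;> norm_num
    · simp only [phi]
      split_ifs
      · exact pow_le_one₀ (by norm_num) (by norm_num)
      · norm_num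

theorem phi_avg (o : Option ℕ) (c : ℕ) :
    phi o (Sum.inr (0, c + 1)) + phi o (Sum.inl c) = 2 * phi o (Sum.inr (0, c)) := by
  rcases o with _ | a
  · simp [phi]; norm_num
  · simp only [phi]
    rcases lt_trichotomy c a with h | h | h
    · rw [if_pos (by omega), if_neg (by omega), if_pos (by omega)]
      have : a - c + 1 = (a - (c + 1) + 1) + 1 := by omega
      rw [this, pow_succ _ (a - (c + 1) + 1)]
      ring
    · subst h
      rw [if_neg (by omega), if_pos rfl, if_pos le_rfl]
      simp
    · rw [if_neg (by omega), if_neg (by omega), if_neg (by omega)]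
      norm_num

/-- product of the conditional probabilities of the elements of a stack (depth starting at `e`),
after reading bits and then processing later sites -/
noncomputable def Zp : ℕ → List (ℕ × Option ℕ) → List Bool → List Sy → ℝ
  | _, [], _, _ => 1
  | e, (c, o) :: l, bs, w => phi o (runl (rd (Sum.inr (e, c)) bs) w) * Zp (e + 1) l bs w

theorem Zp_true (l : List (ℕ × Option ℕ)) : ∀ (e : ℕ) (bs : List Bool) (w : List Sy), 0 < e →
    Zp e l (true :: bs) w = Zp e l bs w := by
  induction l with
  | nil => intro e bs w _; rfl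
  | cons x l ih =>
    obtain ⟨c, o⟩ := x
    intro e bs w he
    obtain ⟨e', rfl⟩ := Nat.exists_eq_succ_of_ne_zero he.ne'
    unfold Zp
    rw [ih _ _ _ (Nat.succ_pos _)]
    rfl

theorem Zp_false (l : List (ℕ × Option ℕ)) : ∀ (e : ℕ) (bs : List Bool) (w : List Sy),
    Zp (e + 1) l (false :: bs) w = Zp e l bs w := by
  induction l with
  | nil => intro e bs w; rfl
  | cons x l ih =>
    obtain ⟨c, o⟩ := x
    intro e bs w
    unfold Zp
    rw [ih]
    rfl

/-- product over a stack of the conditional probabilities -/
noncomputable def pl : List (ℕ × Option ℕ) → ℝ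
  | [] => 1
  | (c, o) :: l => phi o (Sum.inr (0, c)) * pl l

/-- product over the new sites -/
noncomputable def Jp : List (Option ℕ) → List Sy → ℝ
  | o :: os, s :: w => phi o (runl (own s) w) * Jp os w
  | _, _ => 1

/-- product of the initial probabilities -/
noncomputable def po : List (Option ℕ) → ℝ
  | [] => 1
  | o :: os => phi o (Sum.inr (0, 0)) * po os

/-- sum over all words of a given length -/
noncomputable def sW : ℕ → (List Sy → ℝ) → ℝ
  | 0, f => f []
  | T + 1, f => ∑ s : Sy, sW T fun w => f (s :: w)

/-- sum over all bit words of a given length -/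
noncomputable def sB : ℕ → (List Bool → ℝ) → ℝ
  | 0, f => f []
  | T + 1, f => sB T (fun w => f (true :: w)) + sB T (fun w => f (false :: w))

theorem sW_mul (T : ℕ) (c : ℝ) : ∀ f : List Sy → ℝ, sW T (fun w => c * f w) = c * sW T f := by
  induction T with
  | zero => intro f; rfl
  | succ T ih =>
    intro f
    unfold sW
    rw [Finset.mul_sum]
    exact Finset.sum_congr rfl fun s _ => ih _

theorem sB_mul (T : ℕ) (c : ℝ) : ∀ f : List Bool → ℝ, sB T (fun w => c * f w) = c * sB T f := by
  induction T with
  | zero => intro f; rfl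
  | succ T ih =>
    intro f
    unfold sB
    rw [ih, ih]
    ring

theorem sum_bits (f : List Bool → ℝ) : ∑ s : Sy, f (bits s) = sB 3 f := by
  rw [Fintype.sum_prod_type, Fintype.sum_bool, Fintype.sum_prod_type, Fintype.sum_prod_type,
    Fintype.sum_bool, Fintype.sum_bool]
  simp only [Fintype.sum_bool, sB, bits]

/-- bits step -/
theorem bits_claim (T : ℕ) (os : List (Option ℕ)) (C : ℝ)
    (hT : ∀ l, sW T (fun w => Zp 0 l [] w * Jp os w) = C * pl l) (k : ℕ) :
    ∀ l, sB k (fun bs => sW T (fun w => Zp 0 l bs w * Jp os w)) = 2 ^ k * (C * pl l) := by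
  induction k with
  | zero =>
    intro l
    show sW T (fun w => Zp 0 l [] w * Jp os w) = _
    rw [hT]
    ring
  | succ k ih =>
    intro l
    unfold sB
    rcases l with _ | ⟨⟨c, o⟩, l⟩
    · have h1 : ∀ b bs w, Zp 0 [] (b :: bs) w = Zp 0 [] bs w := fun _ _ _ => rfl
      simp only [h1]
      rw [ih]
      ring
    · have h1 : ∀ bs w, Zp 0 ((c, o) :: l) (true :: bs) w = Zp 0 ((c + 1, o) :: l) bs w := by
        intro bs w
        unfold Zp
        rw [Zp_true l 1 bs w (by norm_num)]
        rfl
      have h2 : ∀ bs w, Zp 0 ((c, o) :: l) (false :: bs) w = phi o (Sum.inl c) * Zp 0 l bs w := by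
        intro bs w
        have e1 : Zp 0 ((c, o) :: l) (false :: bs) w
            = phi o (runl (rd (Sum.inr (0, c)) (false :: bs)) w) * Zp (0 + 1) l (false :: bs) w := rfl
        rw [e1, Zp_false l 0 bs w]
        have : rd (Sum.inr (0, c)) (false :: bs) = Sum.inl c := rd_inl c bs
        rw [this, runl_inl]
      simp only [h1, h2, mul_assoc]
      have h3 : (fun bs => sW T fun w => phi o (Sum.inl c) * (Zp 0 l bs w * Jp os w))
          = fun bs => phi o (Sum.inl c) * sW T (fun w => Zp 0 l bs w * Jp os w) := by
        funext bs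
        rw [sW_mul]
      rw [h3, sB_mul, ih, ih]
      have h4 : pl ((c + 1, o) :: l) = phi o (Sum.inr (0, c + 1)) * pl l := rfl
      have h5 : pl ((c, o) :: l) = phi o (Sum.inr (0, c)) * pl l := rfl
      rw [h4, h5]
      have h6 := phi_avg o c
      have h7 : 2 ^ k * (C * (phi o (Sum.inr (0, c + 1)) * pl l))
          + phi o (Sum.inl c) * (2 ^ k * (C * pl l))
          = 2 ^ k * C * pl l * (phi o (Sum.inr (0, c + 1)) + phi o (Sum.inl c)) := by ring
      rw [h7, h6, pow_succ]
      ring

theorem Zp_push (l : List (ℕ × Option ℕ)) : ∀ (e : ℕ) (s : Sy) (w : List Sy),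
    Zp e l [] (s :: w) = Zp (e + 1) l (bits s) w := by
  induction l with
  | nil => intro e s w; rfl
  | cons x l ih =>
    obtain ⟨c, o⟩ := x
    intro e s w
    unfold Zp
    rw [ih]
    rfl

/-- joint expectation -/
theorem joint_claim (os : List (Option ℕ)) :
    ∀ l, sW os.length (fun w => Zp 0 l [] w * Jp os w) = (8 ^ os.length * po os) * pl l := by
  induction os with
  | nil =>
    intro l
    show Zp 0 l [] [] * Jp [] [] = _
    have h1 : ∀ (l : List (ℕ × Option ℕ)) (e : ℕ), Zp e l [] [] = pl l := by
      intro l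
      induction l with
      | nil => intro e; rfl
      | cons x l ih =>
        obtain ⟨c, o⟩ := x
        intro e
        unfold Zp pl
        rw [ih]
        congr 1
        exact phi_height o e 0 c
    rw [h1]
    simp [Jp, po]
  | cons o os ih =>
    intro l
    have hlen : (o :: os).length = os.length + 1 := rfl
    rw [hlen]
    unfold sW
    have h1 : ∀ (s : Sy) (w : List Sy), Zp 0 l [] (s :: w) * Jp (o :: os) (s :: w)
        = Zp 0 ((0, o) :: l) (bits s) w * Jp os w := by
      intro s w
      rw [Zp_push]
      show Zp (0 + 1) l (bits s) w * (phi o (runl (own s) w) * Jp os w) = _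
      have h2 : Zp 0 ((0, o) :: l) (bits s) w
          = phi o (runl (rd (Sum.inr (0, 0)) (bits s)) w) * Zp (0 + 1) l (bits s) w := rfl
      rw [h2]
      unfold own
      ring
    simp only [h1]
    rw [sum_bits (fun bs => sW os.length (fun w => Zp 0 ((0, o) :: l) bs w * Jp os w)),
      bits_claim os.length os (8 ^ os.length * po os) ih 3]
    have h2 : pl ((0, o) :: l) = phi o (Sum.inr (0, 0)) * pl l := rfl
    have h3 : po (o :: os) = phi o (Sum.inr (0, 0)) * po os := rfl
    rw [h2, h3, pow_succ]
    ring

/-- potential controlling the height -/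
noncomputable def Vh : St → ℝ
  | Sum.inl _ => 0
  | Sum.inr (h, _) => 2 ^ h

theorem Vh_nonneg (st : St) : 0 ≤ Vh st := by
  rcases st with v | ⟨h, c⟩
  · simp [Vh]
  · simp only [Vh]; positivity

theorem Vh_bstep (st : St) : Vh (bstep st true) + Vh (bstep st false) ≤ 3 / 2 * Vh st := by
  rcases st with v | ⟨h, c⟩
  · simp [Vh, bstep]
  · rcases h with _ | h
    · simp [Vh, bstep]; norm_num
    · simp only [Vh, bstep]
      rw [pow_succ]
      have : (0 : ℝ) < 2 ^ h := by positivity
      linarith

theorem Vh_rd (k : ℕ) : ∀ st : St, sB k (fun bs => Vh (rd st bs)) ≤ (3 / 2) ^ k * Vh st := by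
  induction k with
  | zero =>
    intro st
    show Vh (rd st []) ≤ _
    simp [rd]
  | succ k ih =>
    intro st
    unfold sB
    have h1 : ∀ (b : Bool) bs, rd st (b :: bs) = rd (bstep st b) bs := fun _ _ => rfl
    simp only [h1]
    have h2 := ih (bstep st true)
    have h3 := ih (bstep st false)
    have h4 := Vh_bstep st
    have h5 : (0 : ℝ) < (3 / 2) ^ k := by positivity
    calc _ ≤ (3 / 2) ^ k * Vh (bstep st true) + (3 / 2) ^ k * Vh (bstep st false) := add_le_add h2 h3
      _ = (3 / 2) ^ k * (Vh (bstep st true) + Vh (bstep st false)) := by ring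
      _ ≤ (3 / 2) ^ k * (3 / 2 * Vh st) := mul_le_mul_of_nonneg_left h4 h5.le
      _ = (3 / 2) ^ (k + 1) * Vh st := by rw [pow_succ]; ring

theorem Vh_push (st : St) : Vh (push st) ≤ 2 * Vh st := by
  rcases st with v | ⟨h, c⟩
  · simp [Vh, push]
  · simp only [Vh, push]
    rw [pow_succ]
    linarith

theorem sW_mono (T : ℕ) : ∀ (f g : List Sy → ℝ), (∀ w, f w ≤ g w) → sW T f ≤ sW T g := by
  induction T with
  | zero => intro f g h; exact h []
  | succ T ih =>
    intro f g h
    unfold sW
    exact Finset.sum_le_sum fun s _ => ih _ _ fun w => h _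

theorem Vh_run (T : ℕ) : ∀ st : St, sW T (fun w => Vh (runl st w)) ≤ (27 / 4) ^ T * Vh st := by
  induction T with
  | zero =>
    intro st
    show Vh (runl st []) ≤ _
    simp [runl]
  | succ T ih =>
    intro st
    unfold sW
    have h1 : ∀ (s : Sy) w, runl st (s :: w) = runl (proc st s) w := fun _ _ => rfl
    simp only [h1]
    have h5 : (0 : ℝ) < (27 / 4) ^ T := by positivity
    calc ∑ s : Sy, sW T (fun w => Vh (runl (proc st s) w))
        ≤ ∑ s : Sy, (27 / 4) ^ T * Vh (proc st s) := Finset.sum_le_sum fun s _ => ih _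
      _ = (27 / 4) ^ T * ∑ s : Sy, Vh (rd (push st) (bits s)) := by
          rw [Finset.mul_sum]; rfl
      _ = (27 / 4) ^ T * sB 3 (fun bs => Vh (rd (push st) bs)) := by
          rw [sum_bits (fun bs => Vh (rd (push st) bs))]
      _ ≤ (27 / 4) ^ T * ((3 / 2) ^ 3 * Vh (push st)) :=
          mul_le_mul_of_nonneg_left (Vh_rd 3 _) h5.le
      _ ≤ (27 / 4) ^ T * ((3 / 2) ^ 3 * (2 * Vh st)) := by
          apply mul_le_mul_of_nonneg_left _ h5.le
          exact mul_le_mul_of_nonneg_left (Vh_push st) (by norm_num)
      _ = (27 / 4) ^ (T + 1) * Vh st := by rw [pow_succ]; ring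

theorem Vh_own : sW 1 (fun w => Vh (match w with | s :: _ => own s | [] => Sum.inl 0)) ≤ 8 := by
  show ∑ s : Sy, Vh (own s) ≤ 8
  unfold own
  rw [sum_bits (fun bs => Vh (rd (Sum.inr (0, 0)) bs))]
  refine le_trans (Vh_rd 3 _) ?_
  simp only [Vh]
  norm_num

end Pool.Agent.TH285.Ff
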