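import Mathlib
import Pool.Agent.TH285.Ff.Lifo

/-!
# The law of the labels
-/

namespace Pool.Agent.TH285.Ff

open MeasureTheory Finset Filter
open scoped ENNReal Topology

/-- the uniform measure on the source alphabet -/
noncomputable def us : Measure Sy := (PMF.uniformOfFintype Sy).toMeasure

instance : IsProbabilityMeasure us := by
  unfold us
  infer_instance

theorem us_real (s : Sy) : us.real {s} = 1 / 8 := by
  unfold us
  rw [measureReal_def, PMF.toMeasure_apply_singleton _ _ (measurableSet_singleton s),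
    PMF.uniformOfFintype_apply]
  have : Fintype.card Sy = 8 := by
    simp only [Sy, Fintype.card_prod, Fintype.card_bool]
  rw [this]
  simp

/-- the window of length `T` starting at `i` -/
def win {X : Type} (ω : ℤ → X) (i : ℤ) (T : ℕ) : List X := List.ofFn fun j : Fin T => ω (i + (j : ℕ))

theorem win_zero {X : Type} (ω : ℤ → X) (i : ℤ) : win ω i 0 = [] := rfl

theorem win_succ {X : Type} (ω : ℤ → X) (i : ℤ) (T : ℕ) :
    win ω i (T + 1) = ω i :: win ω (i + 1) T := by
  unfold win
  rw [List.ofFn_succ]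
  congr 1
  · simp
  · congr 1
    funext j
    congr 1
    simp only [Fin.val_succ]
    push_cast
    ring

theorem win_length {X : Type} (ω : ℤ → X) (i : ℤ) (T : ℕ) : (win ω i T).length = T := by
  unfold win
  exact List.length_ofFn

theorem win_add {X : Type} (ω : ℤ → X) (T T' : ℕ) : ∀ i : ℤ,
    win ω i (T + T') = win ω i T ++ win ω (i + T) T' := by
  induction T with
  | zero => intro i; simp [win_zero]
  | succ T ih =>
    intro i
    have : T + 1 + T' = (T + T') + 1 := by ring
    rw [this, win_succ, win_succ, ih, List.cons_append]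
    congr 3
    push_cast
    ring

theorem sW_eq (T : ℕ) : ∀ f : List Sy → ℝ, sW T f = ∑ w : Fin T → Sy, f (List.ofFn w) := by
  induction T with
  | zero =>
    intro f
    show f [] = _
    rw [Fintype.sum_unique]
    congr 1
  | succ T ih =>
    intro f
    rw [sum_cons]
    unfold sW
    refine Finset.sum_congr rfl fun s _ => ?_
    rw [ih]
    refine Finset.sum_congr rfl fun w _ => ?_
    rw [List.ofFn_succ]
    simp

theorem win_law (i : ℤ) (T : ℕ) (A : Set (List Sy)) [DecidablePred (· ∈ A)] :
    (zp us).real {ω | win ω i T ∈ A} = (1 / 8 : ℝ) ^ T * sW T (fun l => if l ∈ A then 1 else 0) := by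
  classical
  have hms : ∀ y : Fin T → Sy, MeasurableSet {ω : ℤ → Sy | (fun k : Fin T => ω (i + (k : ℕ))) = y} := by
    intro y
    apply meas_dep i (i + T)
    intro ω ω' h hω
    rw [Set.mem_ofPred_eq] at hω ⊢
    rw [← hω]
    funext k
    have := k.2
    exact (h _ (by omega) (by omega)).symm
  have h1 := real_mem_eq_sum (zp us) (fun (ω : ℤ → Sy) (k : Fin T) => ω (i + (k : ℕ))) hms
    {w | List.ofFn w ∈ A}
  have h2 : {ω : ℤ → Sy | win ω i T ∈ A}
      = {ω | (fun (ω : ℤ → Sy) (k : Fin T) => ω (i + (k : ℕ))) ω ∈ {w | List.ofFn w ∈ A}} := rfl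
  rw [h2, h1, sW_eq, Finset.mul_sum]
  refine Finset.sum_congr rfl fun y _ => ?_
  have h3 : (zp us).real {ω | (fun (ω : ℤ → Sy) (k : Fin T) => ω (i + (k : ℕ))) ω = y}
      = (1 / 8 : ℝ) ^ T := by
    have h4 := zp_box_inj us (fun k : Fin T => i + (k : ℕ))
      (by
        intro a b hab
        have : (a : ℕ) = b := by
          have : (i + (a : ℕ) : ℤ) = i + (b : ℕ) := hab
          omega
        exact Fin.ext this) (fun k => {y k}) (fun k => measurableSet_singleton _)
    have h5 : {ω : ℤ → Sy | ∀ k : Fin T, ω (i + (k : ℕ)) ∈ ({y k} : Set Sy)}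
        = {ω | (fun (ω : ℤ → Sy) (k : Fin T) => ω (i + (k : ℕ))) ω = y} := by
      ext ω
      simp only [Set.mem_ofPred_eq, Set.mem_singleton_iff]
      constructor
      · intro h; funext k; exact h k
      · intro h k; exact congrFun h k
    rw [← h5, h4]
    simp only [us_real, Finset.prod_const, Finset.card_univ, Fintype.card_fin]
  rw [h3]
  by_cases hy : List.ofFn y ∈ A
  · rw [if_pos hy, if_pos (show y ∈ {w | List.ofFn w ∈ A} from hy), mul_one]
  · rw [if_neg hy, if_neg (show y ∉ {w | List.ofFn w ∈ A} from hy), mul_zero]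

/-- the state of site `i` after `T` later symbols -/
def stt (ω : ℤ → Sy) (i : ℤ) (T : ℕ) : St := runl (own (ω i)) (win ω (i + 1) T)

/-- site `i` is finished with value `v` at time `T` -/
def Dn (ω : ℤ → Sy) (i : ℤ) (T : ℕ) (v : ℕ) : Prop := stt ω i T = Sum.inl v

theorem runl_append (st : St) (w w' : List Sy) : runl st (w ++ w') = runl (runl st w) w' := by
  unfold runl
  rw [List.foldl_append]

theorem Dn_mono {ω : ℤ → Sy} {i : ℤ} {T T' : ℕ} {v : ℕ} (h : Dn ω i T v) (hT : T ≤ T') :
    Dn ω i T' v := by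
  obtain ⟨d, rfl⟩ := Nat.exists_eq_add_of_le hT
  unfold Dn stt at h ⊢
  rw [win_add, runl_append, h, runl_inl]

theorem Dn_unique {ω : ℤ → Sy} {i : ℤ} {T T' : ℕ} {v v' : ℕ} (h : Dn ω i T v) (h' : Dn ω i T' v') :
    v = v' := by
  have h1 := Dn_mono h (le_max_left T T')
  have h2 := Dn_mono h' (le_max_right T T')
  unfold Dn at h1 h2
  rw [h1] at h2
  exact Sum.inl.inj h2

theorem Dn_congr {ω ω' : ℤ → Sy} {i : ℤ} {T : ℕ} {v : ℕ}
    (hw : ∀ j, i ≤ j → j ≤ i + T → ω j = ω' j) (h : Dn ω i T v) : Dn ω' i T v := by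
  unfold Dn stt at h ⊢
  rw [← h, hw i le_rfl (by omega)]
  congr 1
  unfold win
  congr 1
  funext j
  have := j.2
  exact (hw _ (by omega) (by omega)).symm

open Classical in
/-- the label of site `i` -/
noncomputable def lab (ω : ℤ → Sy) (i : ℤ) : ℕ :=
  if h : ∃ v T, Dn ω i T v then h.choose else 0

theorem lab_eq {ω : ℤ → Sy} {i : ℤ} {T v : ℕ} (h : Dn ω i T v) : lab ω i = v := by
  have h1 : ∃ v T, Dn ω i T v := ⟨v, T, h⟩
  unfold lab
  rw [dif_pos h1]
  obtain ⟨T', hT'⟩ := h1.choose_spec
  exact Dn_unique hT' h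

theorem win_sh {X : Type} (k : ℤ) (ω : ℤ → X) (i : ℤ) (T : ℕ) :
    win (sh k ω) i T = win ω (i + k) T := by
  unfold win sh
  congr 1
  funext j
  congr 1
  ring

theorem Dn_sh (k : ℤ) (ω : ℤ → Sy) (i : ℤ) (T v : ℕ) : Dn (sh k ω) i T v ↔ Dn ω (i + k) T v := by
  unfold Dn stt
  rw [win_sh]
  have h1 : i + 1 + k = i + k + 1 := by ring
  rw [h1]
  rfl

theorem lab_sh (k : ℤ) (ω : ℤ → Sy) : lab (sh k ω) = sh k (lab ω) := by
  funext i
  show lab (sh k ω) i = lab ω (i + k)
  by_cases h : ∃ v T, Dn ω (i + k) T v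
  · obtain ⟨v, T, h⟩ := h
    rw [lab_eq h, lab_eq ((Dn_sh k ω i T v).2 h)]
  · have h' : ¬ ∃ v T, Dn (sh k ω) i T v := by
      rintro ⟨v, T, h2⟩
      exact h ⟨v, T, (Dn_sh k ω i T v).1 h2⟩
    unfold lab
    rw [dif_neg h, dif_neg h']

theorem measurableSet_Dn (i : ℤ) (T v : ℕ) : MeasurableSet {ω : ℤ → Sy | Dn ω i T v} :=
  meas_dep i (i + T) _ fun _ _ h hω => Dn_congr h hω

theorem measurable_lab : Measurable lab := by
  refine measurable_pi_lambda _ fun i => ?_
  refine measurable_to_countable' fun n => ?_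
  have h1 : MeasurableSet (⋃ T : ℕ, {ω : ℤ → Sy | Dn ω i T n}) :=
    MeasurableSet.iUnion fun T => measurableSet_Dn i T n
  have h2 : MeasurableSet (⋃ v : ℕ, ⋃ T : ℕ, {ω : ℤ → Sy | Dn ω i T v})ᶜ :=
    (MeasurableSet.iUnion fun v => MeasurableSet.iUnion fun T => measurableSet_Dn i T v).compl
  have h3 : (fun ω => lab ω i) ⁻¹' {n}
      = (⋃ T : ℕ, {ω : ℤ → Sy | Dn ω i T n})
        ∪ ((⋃ v : ℕ, ⋃ T : ℕ, {ω : ℤ → Sy | Dn ω i T v})ᶜ ∩ {_ω : ℤ → Sy | n = 0}) := by
    ext ω
    simp only [Set.mem_preimage, Set.mem_singleton_iff, Set.mem_union, Set.mem_iUnion,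
      Set.mem_inter_iff, Set.mem_compl_iff, Set.mem_ofPred_eq]
    constructor
    · intro h
      by_cases h4 : ∃ v T, Dn ω i T v
      · left
        obtain ⟨v, T, h5⟩ := h4
        rw [lab_eq h5] at h
        subst h
        exact ⟨T, h5⟩
      · right
        refine ⟨h4, ?_⟩
        unfold lab at h
        rw [dif_neg h4] at h
        exact h.symm
    · rintro (⟨T, h4⟩ | ⟨h4, rfl⟩)
      · exact lab_eq h4
      · unfold lab
        rw [dif_neg h4]
  rw [h3]
  exact h1.union (h2.inter (MeasurableSet.const _))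

/-- probability that a site is still active -/
theorem active_le (i : ℤ) (T : ℕ) :
    (zp us).real {ω | ¬ ∃ v, Dn ω i T v} ≤ (27 / 32 : ℝ) ^ T := by
  classical
  set A : Set (List Sy) := {l | ∃ s w, l = s :: w ∧ ¬ ∃ v, runl (own s) w = Sum.inl v} with hA
  have h1 : {ω : ℤ → Sy | ¬ ∃ v, Dn ω i T v} = {ω | win ω i (T + 1) ∈ A} := by
    ext ω
    simp only [Set.mem_ofPred_eq, hA]
    rw [win_succ]
    constructor
    · intro h
      exact ⟨_, _, rfl, h⟩
    · rintro ⟨s, w, h2, h3⟩
      obtain ⟨rfl, rfl⟩ := List.cons_eq_cons.1 h2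
      exact h3
  rw [h1, win_law]
  have h2 : sW (T + 1) (fun l => if l ∈ A then (1 : ℝ) else 0) ≤ (27 / 4) ^ T * 8 := by
    show ∑ s : Sy, sW T (fun w => if (s :: w) ∈ A then (1 : ℝ) else 0) ≤ _
    have h3 : ∀ s : Sy, sW T (fun w => if (s :: w) ∈ A then (1 : ℝ) else 0)
        ≤ (27 / 4) ^ T * Vh (own s) := by
      intro s
      refine le_trans (sW_mono T _ _ fun w => ?_) (Vh_run T (own s))
      split_ifs with h4
      · obtain ⟨s', w', h5, h6⟩ := h4
        obtain ⟨rfl, rfl⟩ := List.cons_eq_cons.1 h5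
        rcases h7 : runl (own s) w with v | ⟨h, c⟩
        · exact absurd ⟨v, h7⟩ h6
        · simp only [Vh]
          exact one_le_pow₀ (by norm_num)
      · exact Vh_nonneg _
    refine le_trans (Finset.sum_le_sum fun s _ => h3 s) ?_
    rw [← Finset.mul_sum]
    exact mul_le_mul_of_nonneg_left Vh_own (by positivity)
  calc (1 / 8 : ℝ) ^ (T + 1) * sW (T + 1) (fun l => if l ∈ A then (1 : ℝ) else 0)
      ≤ (1 / 8 : ℝ) ^ (T + 1) * ((27 / 4) ^ T * 8) := mul_le_mul_of_nonneg_left h2 (by positivity)
    _ = (27 / 32 : ℝ) ^ T := by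
        rw [pow_succ]
        have : (27 / 32 : ℝ) = 1 / 8 * (27 / 4) := by norm_num
        rw [this, mul_pow]
        ring

theorem ae_done : ∀ᵐ ω ∂(zp us), ∀ i : ℤ, ∃ T v, Dn ω i T v := by
  rw [ae_all_iff]
  intro i
  rw [ae_iff]
  have h1 : ∀ T : ℕ, (zp us).real {ω | ¬ ∃ T v, Dn ω i T v} ≤ (27 / 32 : ℝ) ^ T := by
    intro T
    refine le_trans (measureReal_mono ?_) (active_le i T)
    intro ω hω h2
    obtain ⟨v, h3⟩ := h2
    exact hω ⟨T, v, h3⟩
  have h2 : Tendsto (fun T : ℕ => (27 / 32 : ℝ) ^ T) atTop (𝓝 0) :=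
    tendsto_pow_atTop_nhds_zero_of_lt_one (by norm_num) (by norm_num)
  have h3 : (zp us).real {ω | ¬ ∃ T v, Dn ω i T v} ≤ 0 := ge_of_tendsto' h2 h1
  have h4 : (zp us).real {ω | ¬ ∃ T v, Dn ω i T v} = 0 := le_antisymm h3 measureReal_nonneg
  rwa [measureReal_def, ENNReal.toReal_eq_zero_iff, or_iff_left (measure_ne_top _ _)] at h4

/-- all sites of a window have the prescribed final labels -/
def allE : List ℕ → List Sy → Prop
  | a :: as, s :: w => runl (own s) w = Sum.inl a ∧ allE as w
  | _, _ => True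

/-- all sites of a window are finished -/
def allD : List ℕ → List Sy → Prop
  | _ :: as, s :: w => (∃ v, runl (own s) w = Sum.inl v) ∧ allD as w
  | _, _ => True

/-- targets -/
def osl (as : List ℕ) (T : ℕ) : List (Option ℕ) := as.map some ++ List.replicate T none

theorem Jp_bounds (os : List (Option ℕ)) : ∀ w, 0 ≤ Jp os w ∧ Jp os w ≤ 1 := by
  induction os with
  | nil => intro w; simp [Jp]
  | cons o os ih =>
    intro w
    rcases w with _ | ⟨s, w⟩
    · simp [Jp]
    · have h1 : Jp (o :: os) (s :: w) = phi o (runl (own s) w) * Jp os w := rfl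
      rw [h1]
      obtain ⟨h2, h3⟩ := ih w
      have h4 := phi_nonneg o (runl (own s) w)
      have h5 := phi_le_one o (runl (own s) w)
      exact ⟨mul_nonneg h4 h2, mul_le_one₀ h5 h2 h3⟩

theorem Jp_none (T : ℕ) : ∀ w, Jp (List.replicate T none) w = 1 := by
  induction T with
  | zero => intro w; simp [Jp]
  | succ T ih =>
    intro w
    rcases w with _ | ⟨s, w⟩
    · rw [List.replicate_succ]; rfl
    · rw [List.replicate_succ]
      show phi none (runl (own s) w) * Jp (List.replicate T none) w = 1
      rw [ih]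
      simp [phi]

open Classical in
theorem Jp_ge (T : ℕ) (as : List ℕ) : ∀ w, (if allE as w then (1 : ℝ) else 0) ≤ Jp (osl as T) w := by
  induction as with
  | nil =>
    intro w
    unfold osl
    rw [List.map_nil, List.nil_append, Jp_none]
    split_ifs <;> norm_num
  | cons a as ih =>
    intro w
    rcases w with _ | ⟨s, w⟩
    · have : Jp (osl (a :: as) T) [] = 1 := by
        unfold osl; rfl
      rw [this]
      split_ifs <;> norm_num
    · have h1 : Jp (osl (a :: as) T) (s :: w) = phi (some a) (runl (own s) w) * Jp (osl as T) w := rfl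
      rw [h1]
      split_ifs with h2
      · obtain ⟨h3, h4⟩ := h2
        have h5 := ih w
        rw [if_pos h4] at h5
        rw [h3]
        simp only [phi, if_true, one_mul]
        exact h5
      · exact mul_nonneg (phi_nonneg _ _) (Jp_bounds _ _).1

open Classical in
theorem Jp_le (T : ℕ) (as : List ℕ) : ∀ w, allD as w → as.length ≤ w.length →
    Jp (osl as T) w ≤ if allE as w then (1 : ℝ) else 0 := by
  induction as with
  | nil =>
    intro w _ _
    have : allE [] w := by
      unfold allE
      trivial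
    rw [if_pos this]
    exact (Jp_bounds _ _).2
  | cons a as ih =>
    intro w hD hl
    rcases w with _ | ⟨s, w⟩
    · simp at hl
    · have h1 : Jp (osl (a :: as) T) (s :: w) = phi (some a) (runl (own s) w) * Jp (osl as T) w := rfl
      rw [h1]
      obtain ⟨⟨v, hv⟩, hD'⟩ := hD
      have h2 := ih w hD' (by simpa using hl)
      rw [hv]
      by_cases hva : v = a
      · subst hva
        simp only [phi, if_true, one_mul]
        have h3 : allE (v :: as) (s :: w) ↔ allE as w := by
          constructor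
          · intro h; exact h.2
          · intro h; exact ⟨hv, h⟩
        simp only [h3]
        exact h2
      · simp only [phi, if_neg hva, zero_mul]
        split_ifs <;> norm_num

theorem po_osl (T : ℕ) (as : List ℕ) : po (osl as T) = (as.map fun a => (1 / 2 : ℝ) ^ (a + 1)).prod := by
  induction as with
  | nil =>
    unfold osl
    rw [List.map_nil, List.nil_append, List.map_nil, List.prod_nil]
    induction T with
    | zero => rfl
    | succ T ih =>
      rw [List.replicate_succ]
      show phi none _ * po (List.replicate T none) = 1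
      rw [ih]
      simp [phi]
  | cons a as ih =>
    have h1 : po (osl (a :: as) T) = phi (some a) (Sum.inr (0, 0)) * po (osl as T) := rfl
    rw [h1, ih, List.map_cons, List.prod_cons]
    congr 1

theorem osl_length (as : List ℕ) (T : ℕ) : (osl as T).length = as.length + T := by
  unfold osl
  simp

theorem sW_add (T : ℕ) : ∀ f g : List Sy → ℝ, sW T (fun w => f w + g w) = sW T f + sW T g := by
  induction T with
  | zero => intro f g; rfl
  | succ T ih =>
    intro f g
    unfold sW
    rw [← Finset.sum_add_distrib]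
    exact Finset.sum_congr rfl fun s _ => ih _ _

theorem sW_mono_len (T : ℕ) : ∀ (f g : List Sy → ℝ), (∀ w, w.length = T → f w ≤ g w) → sW T f ≤ sW T g := by
  induction T with
  | zero => intro f g h; exact h [] rfl
  | succ T ih =>
    intro f g h
    unfold sW
    exact Finset.sum_le_sum fun s _ => ih _ _ fun w hw => h _ (by simp [hw])

theorem sW_Jp (as : List ℕ) (T : ℕ) :
    sW (as.length + T) (Jp (osl as T))
      = 8 ^ (as.length + T) * (as.map fun a => (1 / 2 : ℝ) ^ (a + 1)).prod := by
  have h1 := joint_claim (osl as T) []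
  rw [osl_length, po_osl] at h1
  have h2 : (fun w => Zp 0 [] [] w * Jp (osl as T) w) = Jp (osl as T) := by
    funext w
    show 1 * Jp (osl as T) w = _
    rw [one_mul]
  rw [h2] at h1
  rw [h1]
  show _ * 1 = _
  rw [mul_one]

theorem prob_allE_le (i : ℤ) (as : List ℕ) (T : ℕ) :
    (zp us).real {ω | allE as (win ω i (as.length + T))}
      ≤ (as.map fun a => (1 / 2 : ℝ) ^ (a + 1)).prod := by
  classical
  have h1 := win_law i (as.length + T) {l | allE as l}
  have h2 : {ω : ℤ → Sy | win ω i (as.length + T) ∈ {l | allE as l}}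
      = {ω | allE as (win ω i (as.length + T))} := rfl
  rw [h2] at h1
  rw [h1]
  calc (1 / 8 : ℝ) ^ (as.length + T) * sW (as.length + T) (fun l => if l ∈ {l | allE as l} then 1 else 0)
      ≤ (1 / 8 : ℝ) ^ (as.length + T) * sW (as.length + T) (Jp (osl as T)) := by
        apply mul_le_mul_of_nonneg_left _ (by positivity)
        apply sW_mono
        intro w
        have := Jp_ge T as w
        by_cases h3 : allE as w
        · rw [if_pos h3] at this
          rw [if_pos (show w ∈ {l | allE as l} from h3)]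
          exact this
        · rw [if_neg (show w ∉ {l | allE as l} from h3)]
          exact (Jp_bounds _ _).1
    _ = (as.map fun a => (1 / 2 : ℝ) ^ (a + 1)).prod := by
        rw [sW_Jp, ← mul_assoc, ← mul_pow]
        norm_num

theorem prob_allE_ge (i : ℤ) (as : List ℕ) (T : ℕ) :
    (as.map fun a => (1 / 2 : ℝ) ^ (a + 1)).prod
      ≤ (zp us).real {ω | allE as (win ω i (as.length + T))}
        + (zp us).real {ω | ¬ allD as (win ω i (as.length + T))} := by
  classical
  have h1 := win_law i (as.length + T) {l | allE as l}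
  have h2 : {ω : ℤ → Sy | win ω i (as.length + T) ∈ {l | allE as l}}
      = {ω | allE as (win ω i (as.length + T))} := rfl
  have h1' := win_law i (as.length + T) {l | ¬ allD as l}
  have h2' : {ω : ℤ → Sy | win ω i (as.length + T) ∈ {l | ¬ allD as l}}
      = {ω | ¬ allD as (win ω i (as.length + T))} := rfl
  rw [h2] at h1
  rw [h2'] at h1'
  rw [h1, h1', ← mul_add, ← sW_add]
  calc (as.map fun a => (1 / 2 : ℝ) ^ (a + 1)).prod
      = (1 / 8 : ℝ) ^ (as.length + T) * sW (as.length + T) (Jp (osl as T)) := by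
        rw [sW_Jp, ← mul_assoc, ← mul_pow]
        norm_num
    _ ≤ _ := by
        apply mul_le_mul_of_nonneg_left _ (by positivity)
        apply sW_mono_len
        intro w hw
        by_cases hD : allD as w
        · rw [if_neg (show w ∉ {l | ¬ allD as l} from fun h => h hD), add_zero]
          have h3 := Jp_le T as w hD (by omega)
          by_cases h4 : allE as w
          · rw [if_pos h4] at h3
            rw [if_pos (show w ∈ {l | allE as l} from h4)]
            exact h3
          · rw [if_neg h4] at h3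
            rw [if_neg (show w ∉ {l | allE as l} from h4)]
            exact h3
        · rw [if_pos (show w ∈ {l | ¬ allD as l} from hD)]
          have h3 := (Jp_bounds (osl as T) w).2
          have h4 : (0 : ℝ) ≤ if w ∈ {l | allE as l} then 1 else 0 := by
            split_ifs <;> norm_num
          linarith

/-- all labels agree with the list -/
def labE (ω : ℤ → Sy) : ℤ → List ℕ → Prop
  | _, [] => True
  | i, a :: as => lab ω i = a ∧ labE ω (i + 1) as

theorem labE_of_allE (ω : ℤ → Sy) (T : ℕ) (as : List ℕ) : ∀ i : ℤ,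
    allE as (win ω i (as.length + T)) → labE ω i as := by
  induction as with
  | nil => intro i _; trivial
  | cons a as ih =>
    intro i h
    have h1 : (a :: as).length + T = (as.length + T) + 1 := by
      rw [List.length_cons]; ring
    rw [h1, win_succ] at h
    obtain ⟨h2, h3⟩ := h
    exact ⟨lab_eq (T := as.length + T) h2, ih _ h3⟩

theorem allE_of_labE (ω : ℤ → Sy) (T : ℕ) (as : List ℕ) : ∀ i : ℤ,
    allD as (win ω i (as.length + T)) → labE ω i as → allE as (win ω i (as.length + T)) := by
  induction as with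
  | nil => intro i _ _; unfold allE; trivial
  | cons a as ih =>
    intro i h hl
    have h1 : (a :: as).length + T = (as.length + T) + 1 := by
      rw [List.length_cons]; ring
    rw [h1, win_succ] at h ⊢
    obtain ⟨⟨v, h2⟩, h3⟩ := h
    obtain ⟨h4, h5⟩ := hl
    refine ⟨?_, ih _ h3 h5⟩
    have h6 : lab ω i = v := lab_eq (T := as.length + T) h2
    rw [h4] at h6
    rw [h6]
    exact h2

theorem allD_of_Dn (ω : ℤ → Sy) (T : ℕ) (as : List ℕ) : ∀ i : ℤ,
    (∀ j : ℕ, j < as.length → ∃ v, Dn ω (i + j) T v) → allD as (win ω i (as.length + T)) := by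
  induction as with
  | nil => intro i _; unfold allD; trivial
  | cons a as ih =>
    intro i h
    have h1 : (a :: as).length + T = (as.length + T) + 1 := by
      rw [List.length_cons]; ring
    rw [h1, win_succ]
    refine ⟨?_, ih _ ?_⟩
    · obtain ⟨v, hv⟩ := h 0 (by simp)
      refine ⟨v, ?_⟩
      have h2 : Dn ω i (as.length + T) v := by
        have h3 : i + ((0 : ℕ) : ℤ) = i := by simp
        rw [h3] at hv
        exact Dn_mono hv (by omega)
      exact h2
    · intro j hj
      have h2 := h (j + 1) (by simp only [List.length_cons]; omega)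
      have h3 : i + ((j + 1 : ℕ) : ℤ) = i + 1 + j := by push_cast; ring
      rw [h3] at h2
      exact h2

theorem prob_not_allD (i : ℤ) (as : List ℕ) (T : ℕ) :
    (zp us).real {ω | ¬ allD as (win ω i (as.length + T))} ≤ as.length * (27 / 32 : ℝ) ^ T := by
  have h1 : {ω : ℤ → Sy | ¬ allD as (win ω i (as.length + T))}
      ⊆ ⋃ j ∈ Finset.range as.length, {ω : ℤ → Sy | ¬ ∃ v, Dn ω (i + (j : ℕ)) T v} := by
    intro ω hω
    by_contra hne
    apply hω
    apply allD_of_Dn
    intro j hj
    by_contra h2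
    apply hne
    simp only [Set.mem_iUnion]
    exact ⟨j, Finset.mem_range.2 hj, h2⟩
  calc _ ≤ (zp us).real (⋃ j ∈ Finset.range as.length, {ω : ℤ → Sy | ¬ ∃ v, Dn ω (i + (j : ℕ)) T v}) :=
        measureReal_mono h1 (measure_ne_top _ _)
    _ ≤ ∑ j ∈ Finset.range as.length, (zp us).real {ω : ℤ → Sy | ¬ ∃ v, Dn ω (i + (j : ℕ)) T v} :=
        measureReal_biUnion_finset_le _ _
    _ ≤ ∑ _j ∈ Finset.range as.length, (27 / 32 : ℝ) ^ T :=
        Finset.sum_le_sum fun j _ => active_le _ _
    _ = as.length * (27 / 32 : ℝ) ^ T := by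
        rw [Finset.sum_const, Finset.card_range, nsmul_eq_mul]

theorem prob_labE (i : ℤ) (as : List ℕ) :
    (zp us).real {ω | labE ω i as} = (as.map fun a => (1 / 2 : ℝ) ^ (a + 1)).prod := by
  have h0 : Tendsto (fun T : ℕ => (27 / 32 : ℝ) ^ T) atTop (𝓝 0) :=
    tendsto_pow_atTop_nhds_zero_of_lt_one (by norm_num) (by norm_num)
  have h0' : Tendsto (fun T : ℕ => (as.length : ℝ) * (27 / 32 : ℝ) ^ T) atTop (𝓝 0) := by
    have := h0.const_mul (as.length : ℝ)
    rwa [mul_zero] at this
  have hup : ∀ T : ℕ, (zp us).real {ω | labE ω i as}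
      ≤ (as.map fun a => (1 / 2 : ℝ) ^ (a + 1)).prod + as.length * (27 / 32 : ℝ) ^ T := by
    intro T
    have h1 : {ω : ℤ → Sy | labE ω i as} ⊆ {ω | allE as (win ω i (as.length + T))}
        ∪ {ω | ¬ allD as (win ω i (as.length + T))} := by
      intro ω hω
      by_cases h2 : allD as (win ω i (as.length + T))
      · left
        exact allE_of_labE ω T as i h2 hω
      · right
        exact h2
    calc _ ≤ (zp us).real ({ω | allE as (win ω i (as.length + T))}
        ∪ {ω | ¬ allD as (win ω i (as.length + T))}) := measureReal_mono h1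
      _ ≤ _ := measureReal_union_le _ _
      _ ≤ _ := add_le_add (prob_allE_le i as T) (prob_not_allD i as T)
  have hlo : ∀ T : ℕ, (as.map fun a => (1 / 2 : ℝ) ^ (a + 1)).prod - as.length * (27 / 32 : ℝ) ^ T
      ≤ (zp us).real {ω | labE ω i as} := by
    intro T
    have h1 := prob_allE_ge i as T
    have h2 := prob_not_allD i as T
    have h3 : (zp us).real {ω | allE as (win ω i (as.length + T))} ≤ (zp us).real {ω | labE ω i as} :=
      measureReal_mono fun ω hω => labE_of_allE ω T as i hω
    linarith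
  apply le_antisymm
  · have h1 : Tendsto (fun T : ℕ => (as.map fun a => (1 / 2 : ℝ) ^ (a + 1)).prod
        + as.length * (27 / 32 : ℝ) ^ T) atTop (𝓝 ((as.map fun a => (1 / 2 : ℝ) ^ (a + 1)).prod)) := by
      have := h0'.const_add ((as.map fun a => (1 / 2 : ℝ) ^ (a + 1)).prod)
      rwa [add_zero] at this
    exact ge_of_tendsto' h1 hup
  · have h1 : Tendsto (fun T : ℕ => (as.map fun a => (1 / 2 : ℝ) ^ (a + 1)).prod
        - as.length * (27 / 32 : ℝ) ^ T) atTop (𝓝 ((as.map fun a => (1 / 2 : ℝ) ^ (a + 1)).prod)) := by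
      have := h0'.const_sub ((as.map fun a => (1 / 2 : ℝ) ^ (a + 1)).prod)
      rwa [sub_zero] at this
    exact le_of_tendsto' h1 hlo

theorem labE_iff (ω : ℤ → Sy) (as : List ℕ) : ∀ i : ℤ,
    labE ω i as ↔ ∀ j : Fin as.length, lab ω (i + (j : ℕ)) = as[j] := by
  induction as with
  | nil =>
    intro i
    constructor
    · intro _ j
      exact j.elim0
    · intro _
      trivial
  | cons a as ih =>
    intro i
    have h0 : labE ω i (a :: as) ↔ lab ω i = a ∧ labE ω (i + 1) as := Iff.rfl
    rw [h0, ih]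
    constructor
    · rintro ⟨h1, h2⟩ ⟨j, hj⟩
      rcases j with _ | j
      · simpa using h1
      · have h3 := h2 ⟨j, by simpa using hj⟩
        have h4 : i + ((j + 1 : ℕ) : ℤ) = i + 1 + j := by push_cast; ring
        simp only [Fin.getElem_fin] at h3 ⊢
        rw [h4, List.getElem_cons_succ]
        exact h3
    · intro h
      refine ⟨?_, ?_⟩
      · have := h ⟨0, by simp⟩
        simpa using this
      · rintro ⟨j, hj⟩
        have h3 := h ⟨j + 1, by simpa using hj⟩
        have h4 : i + ((j + 1 : ℕ) : ℤ) = i + 1 + j := by push_cast; ring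
        simp only [Fin.getElem_fin] at h3 ⊢
        rw [h4, List.getElem_cons_succ] at h3
        exact h3

theorem prob_lab (i : ℤ) {n : ℕ} (a : Fin n → ℕ) :
    (zp us).real {ω | ∀ j : Fin n, lab ω (i + (j : ℕ)) = a j} = ∏ j, (1 / 2 : ℝ) ^ (a j + 1) := by
  have h1 := prob_labE i (List.ofFn a)
  have h2 : {ω : ℤ → Sy | labE ω i (List.ofFn a)} = {ω | ∀ j : Fin n, lab ω (i + (j : ℕ)) = a j} := by
    ext ω
    rw [Set.mem_ofPred_eq, Set.mem_ofPred_eq, labE_iff]
    constructor
    · intro h j
      have := h ⟨j, by simp⟩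
      simpa using this
    · intro h j
      have hj : (j : ℕ) < n := by
        have h3 := j.2
        simpa using h3
      have := h ⟨j, hj⟩
      simpa using this
  rw [h2] at h1
  rw [h1, List.map_ofFn, List.prod_ofFn]
  rfl

/-- the labels have the geometric product law -/
theorem map_lab : Measure.map lab (zp us) = zp gm := by
  classical
  refine Measure.eq_infinitePi (fun _ : ℤ => gm) ?_
  intro s t ht
  obtain ⟨N, hN⟩ : ∃ N : ℕ, ∀ j ∈ s, -(N : ℤ) ≤ j ∧ j < N := by
    refine ⟨s.sup (fun j => j.natAbs + 1), fun j hj => ?_⟩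
    have := Finset.le_sup (f := fun j : ℤ => j.natAbs + 1) hj
    omega
  -- window map
  let r : (ℤ → ℕ) → (Fin (2 * N) → ℕ) := fun ω k => ω (-(N : ℤ) + (k : ℕ))
  have hr : Measurable r := measurable_pi_lambda _ fun k => measurable_pi_apply _
  have h1 : Measure.map r (Measure.map lab (zp us)) = Measure.map r (zp gm) := by
    have : IsProbabilityMeasure (Measure.map lab (zp us)) :=
      Measure.isProbabilityMeasure_map measurable_lab.aemeasurable
    have : IsProbabilityMeasure (Measure.map r (Measure.map lab (zp us))) :=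
      Measure.isProbabilityMeasure_map hr.aemeasurable
    have : IsProbabilityMeasure (Measure.map r (zp gm)) :=
      Measure.isProbabilityMeasure_map hr.aemeasurable
    refine Measure.ext_of_singleton fun a => ?_
    have h2 : (Measure.map r (Measure.map lab (zp us))).real {a} = (Measure.map r (zp gm)).real {a} := by
      rw [measureReal_def, measureReal_def, Measure.map_apply hr (measurableSet_singleton a),
        Measure.map_apply measurable_lab (hr (measurableSet_singleton a)),
        Measure.map_apply hr (measurableSet_singleton a), ← measureReal_def, ← measureReal_def]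
      have h3 : lab ⁻¹' (r ⁻¹' {a}) = {ω | ∀ j : Fin (2 * N), lab ω (-(N : ℤ) + (j : ℕ)) = a j} := by
        ext ω
        simp only [Set.mem_preimage, Set.mem_singleton_iff, Set.mem_ofPred_eq]
        exact funext_iff
      have h4 : r ⁻¹' {a} = {ω | ∀ j : Fin (2 * N), ω (-(N : ℤ) + (j : ℕ)) ∈ ({a j} : Set ℕ)} := by
        ext ω
        simp only [Set.mem_preimage, Set.mem_singleton_iff, Set.mem_ofPred_eq]
        exact funext_iff
      rw [h3, prob_lab, h4, zp_box_inj gm (fun j : Fin (2 * N) => -(N : ℤ) + (j : ℕ))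
        (by
          intro x y hxy
          have hxy' : (-(N : ℤ) + (x : ℕ)) = -(N : ℤ) + (y : ℕ) := hxy
          exact Fin.ext (by omega)) (fun j => {a j}) (fun j => measurableSet_singleton _)]
      exact Finset.prod_congr rfl fun j _ => (gm_real_singleton _).symm
    rwa [measureReal_def, measureReal_def, ENNReal.toReal_eq_toReal_iff' (measure_ne_top _ _)
      (measure_ne_top _ _)] at h2
  have h5 : (s : Set ℤ).pi t = r ⁻¹' {a | ∀ k : Fin (2 * N), (-(N : ℤ) + (k : ℕ)) ∈ s →
      a k ∈ t (-(N : ℤ) + (k : ℕ))} := by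
    ext ω
    simp only [Set.mem_pi, Set.mem_preimage, Set.mem_ofPred_eq]
    constructor
    · intro h k hk
      exact h _ hk
    · intro h j hj
      obtain ⟨hj1, hj2⟩ := hN j hj
      have h6 := h ⟨(j + N).toNat, by omega⟩
      have h7 : (-(N : ℤ) + ((j + N).toNat : ℕ)) = j := by omega
      simp only [r] at h6
      rw [h7] at h6
      exact h6 hj
  have h6 : MeasurableSet {a : Fin (2 * N) → ℕ | ∀ k : Fin (2 * N), (-(N : ℤ) + (k : ℕ)) ∈ s →
      a k ∈ t (-(N : ℤ) + (k : ℕ))} := (Set.to_countable _).measurableSet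
  rw [h5, ← Measure.map_apply hr h6, h1, Measure.map_apply hr h6, ← h5]
  exact Measure.infinitePi_pi (fun _ : ℤ => gm) (fun i _ => ht i)

end Pool.Agent.TH285.Ff
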