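import Mathlib
import Pool.Agent.TH285.Ff.Level

/-!
# Choice of the parameters
-/

namespace Pool.Agent.TH285.Ff

open MeasureTheory Finset Filter
open scoped ENNReal Topology

theorem mu_no_value (c : ℕ) (s : ℤ) (L : ℕ) :
    mu.real {ω | ∀ k : Fin L, ω (s + ((k : ℕ) : ℤ)) ≠ c} = (1 - (1 / 2 : ℝ) ^ (c + 1)) ^ L := by
  have h := zp_box_inj gm (fun k : Fin L => s + ((k : ℕ) : ℤ)) (by
      intro k k' hk
      have hk' : s + ((k : ℕ) : ℤ) = s + ((k' : ℕ) : ℤ) := hk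
      apply Fin.ext
      omega) (fun _ => {c}ᶜ) (fun _ => MeasurableSet.of_discrete)
  have h2 : {ω : ℤ → ℕ | ∀ k : Fin L, ω (s + ((k : ℕ) : ℤ)) ≠ c}
      = {ω | ∀ k : Fin L, ω (s + ((k : ℕ) : ℤ)) ∈ ({c}ᶜ : Set ℕ)} := by
    ext ω
    simp
  rw [h2]
  unfold mu
  rw [h, Finset.prod_const, Finset.card_univ, Fintype.card_fin]
  rw [probReal_compl_eq_one_sub (MeasurableSet.of_discrete), gm_real_singleton]

theorem mu_large (j : ℤ) (N : ℕ) : mu.real {ω | N ≤ ω j} = (1 / 2 : ℝ) ^ N := by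
  have h := zp_box_inj gm (fun _ : Unit => j) (fun _ _ _ => rfl) (fun _ => {n | N ≤ n})
    (fun _ => MeasurableSet.of_discrete)
  have h2 : {ω : ℤ → ℕ | N ≤ ω j} = {ω | ∀ _ : Unit, ω j ∈ {n | N ≤ n}} := by
    ext ω
    simp
  rw [h2]
  unfold mu
  rw [h]
  simp [gm_real_ge]

/-- closeness of the limit configuration and of the original one -/
theorem close_bound (P : Par) (m L : ℕ) (hG : ∀ᵐ ω ∂mu, Good P ω) (hL : P.nn m = 2 * L) :
    mu.real {ω | (enc (P.al m) (U P m ω 0)).2 ≠ (enc (P.al m) (ω 0)).2} ≤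
      th (P.al (m + 1)) + 2 * (1 - (1 / 2 : ℝ) ^ (2 ^ (P.al m + 1) + 1)) ^ L := by
  set c := 2 ^ (P.al m + 1) with hc
  set A1 := {ω : ℤ → ℕ | 2 ^ P.al (m + 1) ≤ ω 0} with hA1
  set A2 := {ω : ℤ → ℕ | ∀ k : Fin L, ω (1 + ((k : ℕ) : ℤ)) ≠ c} with hA2
  set A3 := {ω : ℤ → ℕ | ∀ k : Fin L, ω (-L + ((k : ℕ) : ℤ)) ≠ c} with hA3
  have hae : ∀ᵐ ω ∂mu, ω ∈ {ω | (enc (P.al m) (U P m ω 0)).2 ≠ (enc (P.al m) (ω 0)).2} →
      ω ∈ A1 ∪ (A2 ∪ A3) := by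
    filter_upwards [hG] with ω hg hne
    by_contra hno
    simp only [Set.mem_union, not_or] at hno
    obtain ⟨h1, h2, h3⟩ := hno
    have h1' : ω 0 < 2 ^ P.al (m + 1) := not_le.1 h1
    have h2' : ∃ k : Fin L, ω (1 + ((k : ℕ) : ℤ)) = c := by
      by_contra hh
      push Not at hh
      exact h2 hh
    have h3' : ∃ k : Fin L, ω (-L + ((k : ℕ) : ℤ)) = c := by
      by_contra hh
      push Not at hh
      exact h3 hh
    obtain ⟨k2, hk2⟩ := h2'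
    obtain ⟨k3, hk3⟩ := h3'
    have hclt : c < 2 ^ P.al (m + 1) :=
      Nat.pow_lt_pow_right (by norm_num) (by have := P.hal m; omega)
    apply hne
    have hU0 : U P (m + 1) ω 0 = ω 0 := U_small P h1'
    rw [U_step P hg m]
    unfold Fm
    rcases F_cases (N := P.nn m) (D := P.D m) (U P (m + 1) ω) 0 with h | ⟨p, hp, -, -⟩
    · rw [h, hU0]
    · exfalso
      obtain ⟨⟨-, -, -, hno⟩, hN, hp1, hp2⟩ := hp
      have e2 : U P (m + 1) ω (1 + ((k2 : ℕ) : ℤ)) = c := by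
        rw [U_small P (by rw [hk2]; exact hclt), hk2]
      have e3 : U P (m + 1) ω (-L + ((k3 : ℕ) : ℤ)) = c := by
        rw [U_small P (by rw [hk3]; exact hclt), hk3]
      have hmk : mkr (P.al m) c := Nat.testBit_two_pow_self
      have f2 : p.1 + 1 + (p.2 : ℤ) ≤ 1 + ((k2 : ℕ) : ℤ) := by
        by_contra hlt
        apply hno (1 + ((k2 : ℕ) : ℤ)) (by omega) (by omega)
        rw [e2]
        exact hmk
      have f3 : -(L : ℤ) + ((k3 : ℕ) : ℤ) ≤ p.1 := by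
        by_contra hlt
        have := k3.2
        apply hno (-L + ((k3 : ℕ) : ℤ)) (by omega) (by omega)
        rw [e3]
        exact hmk
      have := k2.2
      have := k3.2
      omega
  have h1 : mu.real {ω | (enc (P.al m) (U P m ω 0)).2 ≠ (enc (P.al m) (ω 0)).2} ≤
      mu.real (A1 ∪ (A2 ∪ A3)) :=
    ENNReal.toReal_mono (measure_ne_top _ _) (measure_mono_ae hae)
  have h2 := measureReal_union_le (μ := mu) A1 (A2 ∪ A3)
  have h3 := measureReal_union_le (μ := mu) A2 A3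
  have e1 : mu.real A1 = th (P.al (m + 1)) := mu_large 0 _
  have e2 : mu.real A2 = (1 - (1 / 2 : ℝ) ^ (c + 1)) ^ L := mu_no_value c 1 L
  have e3 : mu.real A3 = (1 - (1 / 2 : ℝ) ^ (c + 1)) ^ L := mu_no_value c (-L) L
  linarith

/-- almost every configuration is good -/
theorem good_ae (P : Par) (h : ∀ M : ℕ, ∃ L : ℕ,
    2 * (1 - (1 / 2 : ℝ) ^ (bnum P M + 1)) ^ L + (2 * L + 1) * th (P.al M) ≤ 1 / ((M : ℝ) + 1)) :
    ∀ᵐ ω ∂mu, Good P ω := by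
  unfold Good
  rw [ae_all_iff]
  intro i
  rw [ae_all_iff]
  intro m
  rw [ae_iff]
  have key : ∀ M, m ≤ M → mu.real {ω | ¬ ∃ M, m ≤ M ∧ ∃ x y, x < i ∧ i < y ∧ Win P M x y ω} ≤
      1 / ((M : ℝ) + 1) := by
    intro M hM
    obtain ⟨L, hL⟩ := h M
    refine le_trans ?_ hL
    set A1 : Set (ℤ → ℕ) := ⋃ k : Fin (2 * L + 1), {ω | 2 ^ P.al M ≤ ω (i - L + ((k : ℕ) : ℤ))}
      with hA1
    set A2 := {ω : ℤ → ℕ | ∀ k : Fin L, ω (i + 1 + ((k : ℕ) : ℤ)) ≠ bnum P M} with hA2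
    set A3 := {ω : ℤ → ℕ | ∀ k : Fin L, ω (i - L + ((k : ℕ) : ℤ)) ≠ bnum P M} with hA3
    have hsub : {ω | ¬ ∃ M, m ≤ M ∧ ∃ x y, x < i ∧ i < y ∧ Win P M x y ω} ⊆
        A1 ∪ (A2 ∪ A3) := by
      intro ω hω
      by_contra hno
      simp only [Set.mem_union, not_or] at hno
      obtain ⟨h1, h2, h3⟩ := hno
      have h1' : ∀ k : Fin (2 * L + 1), ω (i - L + ((k : ℕ) : ℤ)) < 2 ^ P.al M := by
        intro k
        by_contra hh
        apply h1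
        rw [hA1, Set.mem_iUnion]
        exact ⟨k, not_lt.1 hh⟩
      have h2' : ∃ k : Fin L, ω (i + 1 + ((k : ℕ) : ℤ)) = bnum P M := by
        by_contra hh
        push Not at hh
        exact h2 hh
      have h3' : ∃ k : Fin L, ω (i - L + ((k : ℕ) : ℤ)) = bnum P M := by
        by_contra hh
        push Not at hh
        exact h3 hh
      obtain ⟨k2, hk2⟩ := h2'
      obtain ⟨k3, hk3⟩ := h3'
      have := k2.2
      have := k3.2
      apply hω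
      refine ⟨M, hM, i - L + ((k3 : ℕ) : ℤ), i + 1 + ((k2 : ℕ) : ℤ), by omega, by omega,
        hk3, hk2, ?_⟩
      intro j hj1 hj2
      have h4 := h1' ⟨(j - (i - L)).toNat, by omega⟩
      have e : i - L + (((j - (i - L)).toNat : ℕ) : ℤ) = j := by omega
      simp only [e] at h4
      exact h4
    have h1 := measureReal_mono (μ := mu) hsub
    have h2 := measureReal_union_le (μ := mu) A1 (A2 ∪ A3)
    have h3 := measureReal_union_le (μ := mu) A2 A3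
    have e1 : mu.real A1 ≤ (2 * L + 1) * th (P.al M) := by
      have h4 := measureReal_iUnion_fintype_le (μ := mu)
        (fun k : Fin (2 * L + 1) => {ω : ℤ → ℕ | 2 ^ P.al M ≤ ω (i - L + ((k : ℕ) : ℤ))})
      refine le_trans h4 (le_of_eq ?_)
      simp only [mu_large]
      rw [Finset.sum_const, Finset.card_univ, Fintype.card_fin, nsmul_eq_mul]
      push_cast
      rfl
    have e2 : mu.real A2 = (1 - (1 / 2 : ℝ) ^ (bnum P M + 1)) ^ L := mu_no_value _ (i + 1) L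
    have e3 : mu.real A3 = (1 - (1 / 2 : ℝ) ^ (bnum P M + 1)) ^ L := mu_no_value _ (i - L) L
    linarith
  have hz : mu.real {ω | ¬ ∃ M, m ≤ M ∧ ∃ x y, x < i ∧ i < y ∧ Win P M x y ω} ≤ 0 := by
    apply le_of_forall_pos_le_add
    intro e he
    obtain ⟨M0, hM0⟩ := exists_nat_gt (1 / e)
    have h1 := key (max m M0) (le_max_left _ _)
    have h2 : (1 : ℝ) / (((max m M0 : ℕ) : ℝ) + 1) ≤ e := by
      have h3 : (M0 : ℝ) ≤ ((max m M0 : ℕ) : ℝ) := by exact_mod_cast le_max_right m M0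
      rw [div_le_iff₀ (by positivity)]
      rw [div_lt_iff₀ he] at hM0
      nlinarith
    linarith
  have hz' : mu.real {ω | ¬ ∃ M, m ≤ M ∧ ∃ x y, x < i ∧ i < y ∧ Win P M x y ω} = 0 :=
    le_antisymm hz measureReal_nonneg
  rwa [measureReal_eq_zero_iff] at hz'

theorem th_tendsto : Tendsto th atTop (𝓝 0) := by
  unfold th
  have h1 : Tendsto (fun n : ℕ => (1 / 2 : ℝ) ^ n) atTop (𝓝 0) :=
    tendsto_pow_atTop_nhds_zero_of_lt_one (by norm_num) (by norm_num)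
  exact h1.comp (tendsto_pow_atTop_atTop_of_one_lt (by norm_num))

theorem exists_L {c : ℝ} (hc0 : 0 < c) (hc1 : c ≤ 1) {δ : ℝ} (hδ : 0 < δ) :
    ∃ L : ℕ, 2 * (1 - c) ^ L ≤ δ := by
  have h1 : Tendsto (fun n : ℕ => (1 - c) ^ n) atTop (𝓝 0) :=
    tendsto_pow_atTop_nhds_zero_of_lt_one (by linarith) (by linarith)
  obtain ⟨L, hL⟩ := (h1.eventually (gt_mem_nhds (show (0 : ℝ) < δ / 2 by positivity))).exists
  exact ⟨L, by linarith⟩

theorem exists_next {δ : ℝ} (hδ : 0 < δ) (N : ℕ) : ∃ a : ℕ, N ≤ a ∧ th a < δ := by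
  have h := (th_tendsto.eventually (gt_mem_nhds hδ)).and (eventually_ge_atTop N)
  obtain ⟨a, ha1, ha2⟩ := h.exists
  exact ⟨a, ha2, ha1⟩

/-- one step of the recursion -/
theorem step_exists (m a : ℕ) : ∃ (lam ρ ε : ℝ) (L a' : ℕ), a + 2 ≤ a' ∧
    (th a < 1 / (4 * ((m : ℝ) + 2)) →
      0 < lam ∧ lam < 1 ∧ 0 < ρ ∧ 0 < ε ∧ ε ≤ 1 / 2 ∧
      (1 - 1 / ((m : ℝ) + 2)) ^ (th a / (1 + th a) / 2) < (1 - th a ^ 2) * lam ^ 3 ∧
      (∃ x, 0 ≤ x ∧ x ≤ 1 ∧ ∀ n : ℕ,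
        lam ^ n ≤ (1 - x) ^ n * (x * (1 / 2 : ℝ) ^ (2 ^ a)) ^ (⌊ρ * n⌋₊)) ∧
      (∃ x, 0 < x ∧ x ≤ 1 ∧ ∀ n : ℕ, (1 + x) ^ n * lam ^ n ≤ x ^ (⌊ε * n⌋₊)) ∧
      th a' + 2 * (1 - (1 / 2 : ℝ) ^ (2 ^ (a + 1) + 1)) ^ L ≤ ρ / 4 ∧
      th a' < 1 / (4 * (((m + 1 : ℕ) : ℝ) + 2)) ∧
      ∃ L' : ℕ, 2 * (1 - (1 / 2 : ℝ) ^ (2 ^ (a + 2))) ^ L' + (2 * L' + 1) * th a'
        ≤ 1 / (((m + 1 : ℕ) : ℝ) + 1)) := by
  by_cases hb : th a < 1 / (4 * ((m : ℝ) + 2))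
  swap
  · exact ⟨0, 0, 0, 0, a + 2, le_rfl, fun h => absurd h hb⟩
  have hm2 : (0 : ℝ) < (m : ℝ) + 2 := by positivity
  have hh1 : 1 / ((m : ℝ) + 2) ≤ 1 / 2 := by
    apply one_div_le_one_div_of_le (by norm_num)
    have : (0 : ℝ) ≤ m := Nat.cast_nonneg m
    linarith
  have hθh : th a < 1 / ((m : ℝ) + 2) / 4 := by
    have : 1 / ((m : ℝ) + 2) / 4 = 1 / (4 * ((m : ℝ) + 2)) := by field_simp
    rw [this]
    exact hb
  obtain ⟨lam, ρ, ε, h1, h2, h3, h4, h5, h6, h7, h8⟩ := exists_consts (h := 1 / ((m : ℝ) + 2))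
    (θ := th a) (c := (1 / 2 : ℝ) ^ (2 ^ a)) (by positivity) hh1 (th_pos a) hθh (by positivity)
    (pow_le_one₀ (by norm_num) (by norm_num))
  obtain ⟨L, hL⟩ := exists_L (c := (1 / 2 : ℝ) ^ (2 ^ (a + 1) + 1)) (by positivity)
    (pow_le_one₀ (by norm_num) (by norm_num)) (δ := ρ / 8) (by positivity)
  obtain ⟨L', hL'⟩ := exists_L (c := (1 / 2 : ℝ) ^ (2 ^ (a + 2))) (by positivity)
    (pow_le_one₀ (by norm_num) (by norm_num)) (δ := 1 / (((m + 1 : ℕ) : ℝ) + 1) / 2)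
    (by positivity)
  obtain ⟨a', ha1, ha2⟩ := exists_next (δ := min (ρ / 8) (min (1 / (4 * (((m + 1 : ℕ) : ℝ) + 2)))
    (1 / (((m + 1 : ℕ) : ℝ) + 1) / 2 / (2 * L' + 1)))) (by positivity) (a + 2)
  have hA : th a' < ρ / 8 := lt_of_lt_of_le ha2 (min_le_left _ _)
  have hB : th a' < 1 / (4 * (((m + 1 : ℕ) : ℝ) + 2)) :=
    lt_of_lt_of_le ha2 (le_trans (min_le_right _ _) (min_le_left _ _))
  have hC : th a' < 1 / (((m + 1 : ℕ) : ℝ) + 1) / 2 / (2 * L' + 1) :=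
    lt_of_lt_of_le ha2 (le_trans (min_le_right _ _) (min_le_right _ _))
  refine ⟨lam, ρ, ε, L, a', ha1, fun _ => ⟨h1, h2, h3, h4, h5, h6, h7, h8, by linarith, hB,
    L', ?_⟩⟩
  have hpos : (0 : ℝ) < 2 * L' + 1 := by positivity
  rw [lt_div_iff₀ hpos] at hC
  linarith

/-- existence of good parameters -/
theorem exists_par : ∃ P : Par, 1 ≤ P.al 0 ∧ (∀ᵐ ω ∂mu, Good P ω) ∧
    ∀ m : ℕ, ∃ (lam ρ ε : ℝ) (task : ℕ → Code (P.al m) × ℚ), 0 < lam ∧ lam < 1 ∧ 0 < ρ ∧ 0 < ε ∧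
      ε ≤ 1 / 2 ∧
      (1 - 1 / ((m : ℝ) + 2)) ^ (th (P.al m) / (1 + th (P.al m)) / 2)
        < (1 - th (P.al m) ^ 2) * lam ^ 3 ∧
      (∃ x, 0 ≤ x ∧ x ≤ 1 ∧ ∀ n : ℕ,
        lam ^ n ≤ (1 - x) ^ n * (x * (1 / 2 : ℝ) ^ (2 ^ P.al m)) ^ (⌊ρ * n⌋₊)) ∧
      (∃ x, 0 < x ∧ x ≤ 1 ∧ ∀ n : ℕ, (1 + x) ^ n * lam ^ n ≤ x ^ (⌊ε * n⌋₊)) ∧
      (∀ t N, ∃ n, N ≤ n ∧ task n = t) ∧
      P.D m = tgt (P.al m) lam ε task ∧
      mu.real {ω | (enc (P.al m) (U P m ω 0)).2 ≠ (enc (P.al m) (ω 0)).2} ≤ ρ / 4 := by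
  choose lam ρ ε L nx hnx hst using step_exists
  choose task htask using exists_task
  set al : ℕ → ℕ := fun m => Nat.rec 3 (fun m a => nx m a) m with hal
  have al0 : al 0 = 3 := rfl
  have als : ∀ m, al (m + 1) = nx m (al m) := fun m => rfl
  have hbase : ∀ m : ℕ, th (al m) < 1 / (4 * ((m : ℝ) + 2)) := by
    intro m
    induction m with
    | zero =>
      rw [al0]
      unfold th
      norm_num
    | succ m ih =>
      have h := hst m (al m) ih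
      rw [als]
      exact h.2.2.2.2.2.2.2.2.2.1
  set P : Par := ⟨al, fun m => 2 * L m (al m),
    fun m ℓ => tgt (al m) (lam m (al m)) (ε m (al m)) (task (al m)) ℓ,
    fun m => by rw [als]; exact hnx m (al m)⟩ with hP
  have hPal : ∀ m, P.al m = al m := fun m => rfl
  have hgood : ∀ᵐ ω ∂mu, Good P ω := by
    apply good_ae
    intro M
    rcases M with _ | M
    · refine ⟨2, ?_⟩
      rw [hPal, al0]
      unfold bnum th
      norm_num
    · obtain ⟨L', hL'⟩ := (hst M (al M) (hbase M)).2.2.2.2.2.2.2.2.2.2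
      refine ⟨L', le_trans ?_ hL'⟩
      rw [hPal, als]
      have h1 : bnum P (M + 1) + 1 ≤ 2 ^ (al M + 2) := by
        have h2 := bnum_lt P M
        rw [hPal] at h2
        have h3 : bnum P (M + 1) = 2 ^ (al M + 1) * 1 + bnum P M := rfl
        have h4 : 2 ^ (al M + 2) = 4 * 2 ^ al M := by ring
        have h5 : 2 ^ (al M + 1) = 2 * 2 ^ al M := by ring
        omega
      have h6 : (1 / 2 : ℝ) ^ (2 ^ (al M + 2)) ≤ (1 / 2 : ℝ) ^ (bnum P (M + 1) + 1) :=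
        pow_le_pow_of_le_one (by norm_num) (by norm_num) h1
      have h7 : (1 / 2 : ℝ) ^ (bnum P (M + 1) + 1) ≤ 1 := pow_le_one₀ (by norm_num) (by norm_num)
      have h8 : (1 - (1 / 2 : ℝ) ^ (bnum P (M + 1) + 1)) ^ L' ≤
          (1 - (1 / 2 : ℝ) ^ (2 ^ (al M + 2))) ^ L' :=
        pow_le_pow_left₀ (by linarith) (by linarith) _
      linarith
  refine ⟨P, ?_, hgood, fun m => ?_⟩
  · rw [hPal, al0]
    norm_num
  · obtain ⟨h1, h2, h3, h4, h5, h6, h7, h8, h9, h10, h11⟩ := hst m (al m) (hbase m)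
    refine ⟨lam m (al m), ρ m (al m), ε m (al m), task (al m), h1, h2, h3, h4, h5, h6, h7, h8,
      htask (al m), rfl, ?_⟩
    exact le_trans (close_bound P m (L m (al m)) hgood rfl) h9

end Pool.Agent.TH285.Ff
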